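import Pool.Agent.H934R2.Expl.Tail

/-!
The exploration path of critical bond percolation in a rectangle, and the law of its trace.
-/

set_option maxHeartbeats 400000

namespace H934E

open H974 H973 Finset MeasureTheory TopologicalSpace

/-- A rectangle `D = (-A, B) × (0, H)` with the boundary points `a = t + i H` and `b = 0`. -/
structure Rect where
  A : ℝ
  B : ℝ
  H : ℝ
  t : ℝ
  hA : 0 < A
  hB : 0 < B
  hH : 0 < H
  ht1 : -A < t
  ht2 : t < B

/-- The lattice vertex `(x, y)` stands for the point `δ (x + i (y + 1))` of `δ ℤ²`. -/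
noncomputable def pt (δ : ℝ) (v : Vtx) : ℂ := ⟨δ * v.1, δ * (v.2 + 1)⟩

namespace Rect

variable (R : Rect)

/-- The domain. -/
def D : Set ℂ := {z | -R.A < z.re ∧ z.re < R.B ∧ 0 < z.im ∧ z.im < R.H}

/-- First and last column, last row, and column of the starting point `a_δ`. -/
noncomputable def x0 (δ : ℝ) : ℤ := ⌊-(R.A / δ)⌋ + 1
noncomputable def x1 (δ : ℝ) : ℤ := ⌈R.B / δ⌉ - 1
noncomputable def y1 (δ : ℝ) : ℤ := ⌈R.H / δ⌉ - 2
noncomputable def tc (δ : ℝ) : ℤ := ⌊R.t / δ⌋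

/-- The vertices of the discrete domain `D_δ`; see `mem_verts`. -/
noncomputable def verts (δ : ℝ) : Finset Vtx :=
  Finset.Icc (R.x0 δ) (R.x1 δ) ×ˢ Finset.Icc 0 (R.y1 δ)

theorem mem_verts' {δ : ℝ} {v : Vtx} : v ∈ R.verts δ ↔
    (R.x0 δ ≤ v.1 ∧ v.1 ≤ R.x1 δ) ∧ (0 ≤ v.2 ∧ v.2 ≤ R.y1 δ) := by
  unfold verts
  rw [Finset.mem_product, Finset.mem_Icc, Finset.mem_Icc]

/-- `D_δ` consists of the points of `δ ℤ²` in `D`. -/
theorem mem_verts {δ : ℝ} (hδ : 0 < δ) {v : Vtx} : v ∈ R.verts δ ↔ pt δ v ∈ R.D := by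
  rw [mem_verts']
  unfold pt D x0 x1 y1
  simp only [Set.mem_ofPred_eq]
  have e1 : (⌊-(R.A / δ)⌋ + 1 ≤ v.1) ↔ -R.A < δ * (v.1 : ℝ) := by
    rw [Int.add_one_le_iff, Int.floor_lt, ← neg_div, div_lt_iff₀ hδ, mul_comm]
  have e2 : (v.1 ≤ ⌈R.B / δ⌉ - 1) ↔ δ * (v.1 : ℝ) < R.B := by
    rw [Int.le_sub_one_iff, Int.lt_ceil, lt_div_iff₀ hδ, mul_comm]
  have e3 : (0 ≤ v.2) ↔ 0 < δ * ((v.2 : ℝ) + 1) := by
    rw [mul_pos_iff_of_pos_left hδ]
    constructor
    · intro h
      have : (0:ℝ) ≤ v.2 := by exact_mod_cast h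
      linarith
    · intro h
      have h2 : (-1:ℝ) < v.2 := by linarith
      have h3 : (-1:ℤ) < v.2 := by exact_mod_cast h2
      omega
  have e4 : (v.2 ≤ ⌈R.H / δ⌉ - 2) ↔ δ * ((v.2 : ℝ) + 1) < R.H := by
    rw [show (v.2 ≤ ⌈R.H / δ⌉ - 2) ↔ v.2 + 1 < ⌈R.H / δ⌉ from by omega, Int.lt_ceil,
      lt_div_iff₀ hδ, mul_comm]
    push_cast
    rfl
  rw [e1, e2, e3, e4]
  tauto

/-- The edges of `D_δ`. -/
noncomputable def edges (δ : ℝ) : Finset Edg := ES (R.verts δ)

/-- The edges along the counterclockwise boundary arc from `a_δ` to `b_δ`; they are declared open: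
top side from `a_δ` to the left, left side, bottom side from the left to `b_δ = (0, 0)`. -/
def wired (δ : ℝ) : Set Edg :=
  {e | (e.2.2 = true ∧ e.2.1 = R.y1 δ ∧ R.x0 δ ≤ e.1 ∧ e.1 < R.tc δ) ∨
    (e.2.2 = false ∧ e.1 = R.x0 δ ∧ 0 ≤ e.2.1 ∧ e.2.1 < R.y1 δ) ∨
    (e.2.2 = true ∧ e.2.1 = 0 ∧ R.x0 δ ≤ e.1 ∧ e.1 < 0)}

/-- The faces outside of `D_δ` along the complementary arc from `b_δ` to `a_δ`; they are declared
to be connected to each other. The face `(x, y)` is the unit square with lower left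
corner `(x, y)`. -/
def outer (δ : ℝ) : Set Vtx :=
  {f | (f.2 = -1 ∧ 0 ≤ f.1 ∧ f.1 ≤ R.x1 δ) ∨
    (f.1 = R.x1 δ ∧ -1 ≤ f.2 ∧ f.2 ≤ R.y1 δ) ∨
    (f.2 = R.y1 δ ∧ R.tc δ ≤ f.1 ∧ f.1 ≤ R.x1 δ)}

/-- The open cluster of the first arc, when `F` is the set of open edges. -/
def clu (δ : ℝ) (F : Finset Edg) : Set Vtx := {v | W (R.wired δ) F v}

/-- The dual-open cluster of the second arc: the faces connected to the outer faces by dual edges
which cross closed edges. -/
def dclu (δ : ℝ) (F : Finset Edg) : Set Vtx :=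
  {f | ∃ g ∈ R.outer δ, DReach (↑(R.edges δ) \ (↑F ∪ R.wired δ)) g f}

end Rect

/-- The face next to the vertex `v` in the direction `s` (`true` is right resp. up). -/
def cface (v : Vtx) (s : Bool × Bool) : Vtx :=
  (if s.1 then v.1 else v.1 - 1, if s.2 then v.2 else v.2 - 1)

/-- The edge of the medial lattice between the vertex `v` and the face `cface v s`: the segment
between the midpoints of the two primal edges at `v` on the sides of this face. -/
noncomputable def cseg (δ : ℝ) (v : Vtx) (s : Bool × Bool) : Set ℂ :=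
  segment ℝ (pt δ v + ⟨if s.1 then δ / 2 else -(δ / 2), 0⟩)
    (pt δ v + ⟨0, if s.2 then δ / 2 else -(δ / 2)⟩)

namespace Rect

variable (R : Rect)

/-- The exploration path: the medial edges between the two clusters. -/
def corners (δ : ℝ) (F : Finset Edg) : Set (Vtx × (Bool × Bool)) :=
  {c | c.1 ∈ R.clu δ F ∧ cface c.1 c.2 ∈ R.dclu δ F}

/-- The trace of the exploration path. -/
noncomputable def path (δ : ℝ) (F : Finset Edg) : Set ℂ :=
  ⋃ c ∈ R.corners δ F, cseg δ c.1 c.2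

theorem wired_finite (δ : ℝ) : (R.wired δ).Finite := by
  apply Set.Finite.subset (s := (Set.Icc (R.x0 δ) (max (max (R.tc δ) 0) (R.x0 δ))) ×ˢ
    ((Set.Icc (min 0 (R.y1 δ)) (max 0 (R.y1 δ))) ×ˢ (Set.univ : Set Bool)))
  · exact Set.Finite.prod (Set.finite_Icc _ _) (Set.Finite.prod (Set.finite_Icc _ _)
      Set.finite_univ)
  · rintro ⟨x, y, b⟩ h
    simp only [wired, Set.mem_ofPred_eq] at h
    simp only [Set.mem_prod, Set.mem_Icc, Set.mem_univ, and_true]
    omega

/-- Vertices of a cluster in a finite configuration. -/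
theorem reach_finite {G : Set Edg} (hG : G.Finite) (u : Vtx) : {v | Reach G u v}.Finite := by
  apply Set.Finite.subset (s := {u} ∪ (src '' G ∪ tgt '' G))
  · exact (Set.finite_singleton _).union ((hG.image _).union (hG.image _))
  · intro v hv
    have hv' : Reach G u v := hv
    rcases Relation.ReflTransGen.cases_tail hv' with h | ⟨w, _, e, he, hc⟩
    · left; exact h
    · right
      rcases hc with ⟨_, h2⟩ | ⟨h1, _⟩
      · right; exact ⟨e, he, h2⟩
      · left; exact ⟨e, he, h1⟩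

theorem clu_finite (δ : ℝ) (F : Finset Edg) : (R.clu δ F).Finite :=
  reach_finite (F.finite_toSet.union (R.wired_finite δ)) (0, 0)

theorem corners_finite (δ : ℝ) (F : Finset Edg) : (R.corners δ F).Finite := by
  apply Set.Finite.subset ((R.clu_finite δ F).prod (Set.finite_univ (α := Bool × Bool)))
  rintro ⟨v, s⟩ h
  exact ⟨h.1, Set.mem_univ _⟩

theorem isCompact_cseg (δ : ℝ) (v : Vtx) (s : Bool × Bool) : IsCompact (cseg δ v s) := by
  unfold cseg
  rw [segment_eq_image]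
  apply isCompact_Icc.image
  fun_prop

theorem path_compact (δ : ℝ) (F : Finset Edg) : IsCompact (R.path δ F) :=
  (R.corners_finite δ F).isCompact_biUnion (fun c _ => isCompact_cseg δ c.1 c.2)

theorem x1_nonneg {δ : ℝ} (hδ : 0 < δ) : 0 ≤ R.x1 δ := by
  unfold x1
  have : 0 < ⌈R.B / δ⌉ := Int.ceil_pos.mpr (div_pos R.hB hδ)
  omega

/-- A visited boundary vertex of the second arc gives a point of the path. -/
theorem mem_path {δ : ℝ} {F : Finset Edg} {k : ℤ} (hk : 0 ≤ k) (hk1 : k ≤ R.x1 δ)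
    (hW : W (R.wired δ) F (k, 0)) : (⟨δ * k, δ / 2⟩ : ℂ) ∈ R.path δ F := by
  unfold path
  rw [Set.mem_iUnion₂]
  refine ⟨((k, 0), (true, false)), ⟨hW, ?_⟩, ?_⟩
  · refine ⟨(k, -1), Or.inl ⟨rfl, hk, hk1⟩, ?_⟩
    have : cface (k, 0) (true, false) = (k, -1) := by
      unfold cface; simp
    rw [this]
    exact DReach.refl _ _
  · have h := right_mem_segment ℝ (pt δ (k, 0) + ⟨if true then δ / 2 else -(δ / 2), 0⟩)
      (pt δ (k, 0) + ⟨0, if false then δ / 2 else -(δ / 2)⟩)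
    unfold cseg
    convert h using 1
    unfold pt
    apply Complex.ext
    · simp
    · simp
      ring

theorem path_nonempty {δ : ℝ} (hδ : 0 < δ) (F : Finset Edg) : (R.path δ F).Nonempty :=
  ⟨_, R.mem_path (k := 0) le_rfl (R.x1_nonneg hδ) (Reach.refl _ _)⟩

/-- Every point of the path is close to a vertex of the open cluster of the first arc. -/
theorem path_near {δ : ℝ} (hδ : 0 < δ) {F : Finset Edg} {z : ℂ} (hz : z ∈ R.path δ F) :
    ∃ v : Vtx, W (R.wired δ) F v ∧ |z.re - δ * v.1| ≤ δ ∧ |z.im - δ * (v.2 + 1)| ≤ δ := by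
  unfold path at hz
  rw [Set.mem_iUnion₂] at hz
  obtain ⟨⟨v, s⟩, ⟨h1, _⟩, h2⟩ := hz
  refine ⟨v, h1, ?_⟩
  unfold cseg at h2
  rw [segment_eq_image] at h2
  obtain ⟨θ, ⟨h3, h4⟩, rfl⟩ := h2
  have ha : |if s.1 then δ / 2 else -(δ / 2)| ≤ δ := by
    split_ifs
    · rw [abs_of_pos (by positivity)]; linarith
    · rw [abs_neg, abs_of_pos (by positivity)]; linarith
  have hb : |if s.2 then δ / 2 else -(δ / 2)| ≤ δ := by
    split_ifs
    · rw [abs_of_pos (by positivity)]; linarith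
    · rw [abs_neg, abs_of_pos (by positivity)]; linarith
  unfold pt
  simp only [Complex.add_re, Complex.add_im, Complex.real_smul, Complex.mul_re, Complex.mul_im,
    Complex.sub_re, Complex.sub_im, Complex.one_re, Complex.one_im, Complex.ofReal_re,
    Complex.ofReal_im, zero_mul, sub_zero, add_zero, zero_add]
  constructor
  · have e : (1 - θ) * (δ * (v.1 : ℝ) + if s.1 then δ / 2 else -(δ / 2)) + θ * (δ * (v.1 : ℝ))
        - δ * (v.1 : ℝ) = (1 - θ) * (if s.1 then δ / 2 else -(δ / 2)) := by ring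
    rw [e, abs_mul, abs_of_nonneg (by linarith)]
    calc (1 - θ) * |if s.1 then δ / 2 else -(δ / 2)| ≤ 1 * δ :=
          mul_le_mul (by linarith) ha (abs_nonneg _) (by norm_num)
      _ = δ := one_mul _
  · have e : (1 - θ) * (δ * ((v.2 : ℝ) + 1)) + θ * (δ * ((v.2 : ℝ) + 1) +
        if s.2 then δ / 2 else -(δ / 2)) - δ * ((v.2 : ℝ) + 1) =
        θ * (if s.2 then δ / 2 else -(δ / 2)) := by ring
    rw [e, abs_mul, abs_of_nonneg h3]
    calc θ * |if s.2 then δ / 2 else -(δ / 2)| ≤ 1 * δ :=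
          mul_le_mul h4 hb (abs_nonneg _) (by norm_num)
      _ = δ := one_mul _

/-- The trace as a nonempty compact set. -/
noncomputable def trace {δ : ℝ} (hδ : 0 < δ) (F : Finset Edg) : NonemptyCompacts ℂ :=
  ⟨⟨R.path δ F, R.path_compact δ F⟩, R.path_nonempty hδ F⟩

theorem coe_trace {δ : ℝ} (hδ : 0 < δ) (F : Finset Edg) :
    (R.trace hδ F : Set ℂ) = R.path δ F := rfl

end Rect

/-- The Borel structure for the Hausdorff metric. -/
noncomputable instance instMNC : MeasurableSpace (NonemptyCompacts ℂ) := borel _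
instance instBNC : BorelSpace (NonemptyCompacts ℂ) := ⟨rfl⟩

namespace Rect

variable (R : Rect)

/-- The law of the trace at mesh `δ`: all sets of open edges have the same probability. -/
noncomputable def lawM {δ : ℝ} (hδ : 0 < δ) : Measure (NonemptyCompacts ℂ) :=
  ∑ F ∈ (R.edges δ).powerset, ENNReal.ofReal ((1/2) ^ (R.edges δ).card) •
    Measure.dirac (R.trace hδ F)

theorem lawM_apply {δ : ℝ} (hδ : 0 < δ) {G : Set (NonemptyCompacts ℂ)} (hG : MeasurableSet G) :
    R.lawM hδ G = ENNReal.ofReal (Q (R.edges δ) (fun F => R.trace hδ F ∈ G)) := by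
  classical
  unfold lawM
  rw [Measure.finsetSum_apply]
  unfold Q Pr
  rw [Ex_half, ENNReal.ofReal_mul (by positivity), ENNReal.ofReal_sum_of_nonneg
    (fun _ _ => ind_nonneg _), Finset.mul_sum]
  apply Finset.sum_congr rfl
  intro F _
  rw [Measure.smul_apply, Measure.dirac_apply' _ hG, smul_eq_mul]
  congr 1
  by_cases h : R.trace hδ F ∈ G
  · rw [ind_of h, Set.indicator_of_mem h]; simp
  · rw [ind_not_of h, Set.indicator_of_notMem h]; simp

theorem lawM_univ {δ : ℝ} (hδ : 0 < δ) : R.lawM hδ Set.univ = 1 := by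
  rw [R.lawM_apply hδ MeasurableSet.univ]
  have : Q (R.edges δ) (fun F => R.trace hδ F ∈ (Set.univ : Set (NonemptyCompacts ℂ))) = 1 :=
    Pr_true _ (fun F _ => Set.mem_univ _)
  rw [this]
  simp

/-- The law of the trace of the exploration path at mesh `δ`. -/
noncomputable def law {δ : ℝ} (hδ : 0 < δ) : ProbabilityMeasure (NonemptyCompacts ℂ) :=
  ⟨R.lawM hδ, ⟨R.lawM_univ hδ⟩⟩

end Rect

end H934E
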