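import Pool.Agent.H934R2.Expl.Pieces

/-!
Weak limits of the laws of the trace: the intersection with the whole boundary has dimension 2/3.
-/

set_option maxHeartbeats 400000

namespace H934E

open H974 H973 Finset MeasureTheory TopologicalSpace Filter Topology
open scoped ENNReal

/-- The event that `K` comes close to the point `z`. -/
def HB (z : ℂ) (ε : ℝ) : Set (NonemptyCompacts ℂ) := {K | ((K : Set ℂ) ∩ BU z ε).Nonempty}

theorem isOpen_HB (z : ℂ) (ε : ℝ) : IsOpen (HB z ε) :=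
  NonemptyCompacts.isOpen_inter_nonempty_of_isOpen (isOpen_BU z ε)

theorem Pc.lo_lt_hi (R : Rect) (P : Pc) : P.lo R < P.hi R := by
  have hA := R.hA
  have hB := R.hB
  have hH := R.hH
  have h1 := R.ht1
  have h2 := R.ht2
  cases P <;> simp only [Pc.lo, Pc.hi] <;> linarith

theorem Pc.φ_isometry (R : Rect) (P : Pc) : Isometry (P.φ R) := by
  apply Isometry.of_dist_eq
  intro x y
  rw [Complex.dist_eq, Real.dist_eq]
  have key1 : ∀ c : ℝ, ‖(⟨x, c⟩ : ℂ) - ⟨y, c⟩‖ = |x - y| := by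
    intro c
    have : (⟨x, c⟩ : ℂ) - ⟨y, c⟩ = ((x - y : ℝ) : ℂ) := by
      apply Complex.ext <;> simp
    rw [this, Complex.norm_real, Real.norm_eq_abs]
  have key2 : ∀ c : ℝ, ‖(⟨c, x⟩ : ℂ) - ⟨c, y⟩‖ = |x - y| := by
    intro c
    have : (⟨c, x⟩ : ℂ) - ⟨c, y⟩ = ((x - y : ℝ) : ℂ) * Complex.I := by
      apply Complex.ext <;> simp
    rw [this, norm_mul, Complex.norm_I, mul_one, Complex.norm_real, Real.norm_eq_abs]
  cases P <;> simp only [Pc.φ]
  · exact key1 0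
  · exact key2 R.B
  · exact key1 R.H
  · exact key1 0
  · exact key2 (-R.A)
  · exact key1 R.H

theorem Pc.φ_lip (R : Rect) (P : Pc) (x y : ℝ) :
    |(P.φ R y).re - (P.φ R x).re| ≤ |y - x| ∧ |(P.φ R y).im - (P.φ R x).im| ≤ |y - x| := by
  cases P <;> simp [Pc.φ]

namespace Rect

/-- Hitting probabilities near the boundary, for weak limits. -/
theorem HB_le : ∃ C : ℝ, 0 < C ∧ ∀ (R : Rect) {ι : Type} {L : Filter ι} [NeBot L] {δ : ι → ℝ}
    (hδ : ∀ i, 0 < δ i) (_ : Tendsto δ L (𝓝 0)) {μ : ProbabilityMeasure (NonemptyCompacts ℂ)}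
    (_ : Tendsto (fun i => R.law (hδ i)) L (𝓝 μ)) (P : Pc) (ξ ρ ε : ℝ), 0 < ε → 8 * ε ≤ ρ →
    ρ ≤ R.L0 → ρ ≤ ξ - P.lo R → ρ ≤ P.hi R - ξ →
    (μ : Measure (NonemptyCompacts ℂ)) (HB (P.φ R ξ) ε) ≤
      ENNReal.ofReal (C * (ε / ρ) ^ ((1:ℝ)/3)) := by
  obtain ⟨C, hC, h⟩ := hit_pieces
  refine ⟨C, hC, ?_⟩
  intro R ι L _ δ hδ hlim μ hμ P ξ ρ ε h1 h2 h3 h4 h5
  apply R.open_le hδ hμ (isOpen_HB _ ε)
  have hAt : 0 < R.A + R.t := by linarith [R.ht1]
  have e1 : ∀ᶠ i in L, δ i < min (ε / 32) (R.A + R.t) :=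
    (hlim.eventually_lt_const (lt_min (by positivity) hAt))
  filter_upwards [e1] with i hi
  have hi1 := hi.trans_le (min_le_left _ _)
  have hi2 := hi.trans_le (min_le_right _ _)
  exact h R P ξ ρ ε (δ i) (hδ i) (by linarith) h2 h3 hi2.le h4 h5

variable (R : Rect)

section

variable {ι : Type} {L : Filter ι} [NeBot L] {δ : ι → ℝ} (hδ : ∀ i, 0 < δ i)
  (hlim : Tendsto δ L (𝓝 0))
  {μ : ProbabilityMeasure (NonemptyCompacts ℂ)}
  (hμ : Tendsto (fun i => R.law (hδ i)) L (𝓝 μ))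

include hlim hμ

theorem ae_piece (P : Pc) {ρ d : ℝ} (hρ : 0 < ρ) (hd : 2/3 < d) :
    ∀ᵐ K ∂(μ : Measure (NonemptyCompacts ℂ)),
      μH[d] ({x : ℝ | P.φ R x ∈ K} ∩ Set.Icc (P.lo R + ρ) (P.hi R - ρ)) = 0 := by
  obtain ⟨C, hC, hH⟩ := HB_le
  set lo := P.lo R with hlo
  set hi := P.hi R with hhi
  have hlh : lo < hi := P.lo_lt_hi R
  set B : ℝ := hi - lo with hB
  have hB0 : 0 < B := by rw [hB]; linarith
  set ρ' : ℝ := min (ρ / 2) R.L0 with hρ'
  have hρ'0 : 0 < ρ' := lt_min (by positivity) R.L0_pos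
  have hd0 : 0 < d := by linarith
  set ε : ℕ → ℝ := fun n => (1/2 : ℝ) ^ n with hε
  have hε0 : ∀ n, 0 < ε n := fun n => by rw [hε]; positivity
  have hε1 : ∀ n, ε n ≤ 1 := fun n => pow_le_one₀ (by norm_num) (by norm_num)
  have hεlim : Tendsto ε atTop (𝓝 0) :=
    tendsto_pow_atTop_nhds_zero_of_lt_one (by norm_num) (by norm_num)
  set N : ℕ → ℕ := fun n => ⌈B / ε n⌉₊ + 1 with hN
  -- the events
  classical
  set O : ℕ → ℕ → Set (NonemptyCompacts ℂ) := fun n j =>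
    if (ρ / 2 ≤ j * ε n ∧ lo + j * ε n ≤ hi - ρ / 2 ∧ 16 * ε n ≤ ρ') then
      HB (P.φ R (lo + j * ε n)) (2 * ε n) else ∅ with hO
  have hOm : ∀ n j, MeasurableSet (O n j) := by
    intro n j
    rw [hO]
    simp only
    split_ifs
    · exact (isOpen_HB _ _).measurableSet
    · exact MeasurableSet.empty
  have hOμ : ∀ n j, (μ : Measure (NonemptyCompacts ℂ)) (O n j) ≤
      ENNReal.ofReal (C * (2 * ε n / ρ') ^ ((1:ℝ)/3)) := by
    intro n j
    rw [hO]
    simp only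
    split_ifs with h
    · have hm := min_le_left (ρ / 2) R.L0
      refine hH R hδ hlim hμ P (lo + j * ε n) ρ' (2 * ε n) (by have := hε0 n; positivity)
        (by linarith) (min_le_right _ _) ?_ ?_
      · rw [← hlo]; linarith [h.1]
      · rw [← hhi]; linarith [h.2.1]
    · simp
  set g : ℕ → NonemptyCompacts ℂ → ℝ≥0∞ := fun n K =>
    ∑ j ∈ Finset.range (N n), (O n j).indicator (fun _ => ENNReal.ofReal (ε n ^ d)) K with hg
  have hgm : ∀ n, Measurable (g n) := by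
    intro n
    rw [hg]
    apply Finset.measurable_sum
    intro j _
    exact measurable_const.indicator (hOm n j)
  have hgint : ∀ n, ∫⁻ K, g n K ∂(μ : Measure (NonemptyCompacts ℂ)) ≤
      ENNReal.ofReal ((B + 2) * (C * (2 / ρ') ^ ((1:ℝ)/3)) * (ε n) ^ (d - 2/3)) := by
    intro n
    have hn := hε0 n
    rw [hg]
    simp only
    rw [lintegral_finsetSum _ (fun j _ => measurable_const.indicator (hOm n j))]
    have h1 : ∀ j ∈ Finset.range (N n),
        ∫⁻ K, (O n j).indicator (fun _ => ENNReal.ofReal (ε n ^ d)) K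
          ∂(μ : Measure (NonemptyCompacts ℂ)) ≤
        ENNReal.ofReal (ε n ^ d * (C * (2 * ε n / ρ') ^ ((1:ℝ)/3))) := by
      intro j _
      rw [lintegral_indicator_const (hOm n j), ENNReal.ofReal_mul (by positivity)]
      exact mul_le_mul_right (hOμ n j) _
    refine (Finset.sum_le_sum h1).trans ?_
    rw [Finset.sum_const, Finset.card_range, nsmul_eq_mul, ← ENNReal.ofReal_natCast,
      ← ENNReal.ofReal_mul (by positivity)]
    apply ENNReal.ofReal_le_ofReal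
    have h2 : ((N n : ℕ) : ℝ) ≤ (B + 2) / ε n := by
      rw [hN]
      simp only
      push_cast
      have h3 : (⌈B / ε n⌉₊ : ℝ) < B / ε n + 1 :=
        Nat.ceil_lt_add_one (div_nonneg hB0.le hn.le)
      have h4 : 1 ≤ 1 / ε n := by rw [le_div_iff₀ hn]; linarith [hε1 n]
      have h5 : (B + 2) / ε n = B / ε n + 2 * (1 / ε n) := by ring
      linarith
    have h6 : (2 * ε n / ρ') ^ ((1:ℝ)/3) = (2 / ρ') ^ ((1:ℝ)/3) * (ε n) ^ ((1:ℝ)/3) := by
      rw [← Real.mul_rpow (by positivity) hn.le]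
      congr 1; ring
    calc ((N n : ℕ) : ℝ) * (ε n ^ d * (C * (2 * ε n / ρ') ^ ((1:ℝ)/3)))
        ≤ (B + 2) / ε n * (ε n ^ d * (C * (2 * ε n / ρ') ^ ((1:ℝ)/3))) :=
          mul_le_mul_of_nonneg_right h2 (by positivity)
      _ = (B + 2) * (C * (2 / ρ') ^ ((1:ℝ)/3)) * ((ε n ^ d * (ε n) ^ ((1:ℝ)/3)) / ε n) := by
          rw [h6]; ring
      _ = _ := by
          congr 1
          rw [← Real.rpow_add hn]
          nth_rewrite 2 [← Real.rpow_one (ε n)]
          rw [← Real.rpow_sub hn]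
          congr 1; ring
      _ ≤ _ := le_rfl
  have hlimg : Tendsto (fun n => ∫⁻ K, g n K ∂(μ : Measure (NonemptyCompacts ℂ))) atTop (𝓝 0) := by
    have h1 : Tendsto (fun n => ENNReal.ofReal
        ((B + 2) * (C * (2 / ρ') ^ ((1:ℝ)/3)) * (ε n) ^ (d - 2/3))) atTop (𝓝 0) := by
      rw [← ENNReal.ofReal_zero]
      apply ENNReal.tendsto_ofReal
      have h2 : Tendsto (fun n => (ε n) ^ (d - 2/3)) atTop (𝓝 0) := by
        have := hεlim.rpow_const (p := d - 2/3) (Or.inr (by linarith))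
        rwa [Real.zero_rpow (by linarith)] at this
      have := h2.const_mul ((B + 2) * (C * (2 / ρ') ^ ((1:ℝ)/3)))
      rwa [mul_zero] at this
    exact tendsto_of_tendsto_of_tendsto_of_le_of_le tendsto_const_nhds h1
      (fun _ => bot_le) hgint
  have hfatou : ∫⁻ K, liminf (fun n => g n K) atTop ∂(μ : Measure (NonemptyCompacts ℂ)) = 0 := by
    have := lintegral_liminf_le (u := atTop) (μ := (μ : Measure (NonemptyCompacts ℂ))) hgm
    rw [hlimg.liminf_eq] at this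
    exact le_antisymm this (bot_le)
  rw [lintegral_eq_zero_iff (Measurable.liminf hgm)] at hfatou
  filter_upwards [hfatou] with K hK
  have hK' : liminf (fun n => g n K) atTop = 0 := hK
  set I := {x : ℝ | P.φ R x ∈ K} ∩ Set.Icc (lo + ρ) (hi - ρ) with hI
  have key := Measure.hausdorffMeasure_le_liminf_sum (X := ℝ) (ι := fun n => Fin (N n)) d I
    (l := atTop) (fun n => ENNReal.ofReal (ε n))
    (by rw [← ENNReal.ofReal_zero]; exact ENNReal.tendsto_ofReal hεlim)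
    (fun n j => I ∩ Set.Icc (lo + (j : ℕ) * ε n) (lo + ((j : ℕ) + 1) * ε n))
    (by
      apply Eventually.of_forall
      intro n j
      refine (Metric.ediam_mono Set.inter_subset_right).trans ?_
      rw [Real.ediam_Icc]
      apply ENNReal.ofReal_le_ofReal
      linarith)
    (by
      apply Eventually.of_forall
      intro n y hy
      have hn := hε0 n
      have hy0 : 0 ≤ y - lo := by linarith [hy.2.1]
      have hyB : y - lo ≤ B := by linarith [hy.2.2]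
      rw [Set.mem_iUnion]
      have h1 : ⌊(y - lo) / ε n⌋₊ < N n := by
        rw [hN]
        simp only
        have : ⌊(y - lo) / ε n⌋₊ ≤ ⌈B / ε n⌉₊ :=
          (Nat.floor_le_ceil _).trans (Nat.ceil_le_ceil (div_le_div_of_nonneg_right hyB hn.le))
        omega
      refine ⟨⟨⌊(y - lo) / ε n⌋₊, h1⟩, hy, ?_, ?_⟩
      · have := Nat.floor_le (div_nonneg hy0 hn.le)
        rw [le_div_iff₀ hn] at this
        simp only
        linarith
      · have := (Nat.lt_floor_add_one ((y - lo) / ε n)).le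
        rw [div_le_iff₀ hn] at this
        simp only
        linarith)
  refine le_antisymm (key.trans ?_) (bot_le)
  rw [← hK']
  refine liminf_le_liminf ?_
  have hev : ∀ᶠ n in atTop, 16 * ε n ≤ ρ' := by
    have := hεlim.eventually_lt_const (show (0:ℝ) < ρ' / 16 by positivity)
    filter_upwards [this] with n hn
    linarith
  filter_upwards [hev] with n hn16
  have hn := hε0 n
  rw [hg]
  simp only
  rw [← Fin.sum_univ_eq_sum_range (fun j => (O n j).indicator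
    (fun _ => ENNReal.ofReal (ε n ^ d)) K) (N n)]
  apply Finset.sum_le_sum
  intro j _
  rcases (I ∩ Set.Icc (lo + (j : ℕ) * ε n) (lo + ((j : ℕ) + 1) * ε n)).eq_empty_or_nonempty
    with h0 | ⟨y, hy⟩
  · rw [h0, Metric.ediam_empty, ENNReal.zero_rpow_of_pos hd0]
    exact bot_le
  · have hρ2 : ρ' ≤ ρ / 2 := min_le_left _ _
    have hyI := hy.1
    have h1 : K ∈ O n j := by
      rw [hO]
      simp only
      have h2 : ρ / 2 ≤ (j : ℕ) * ε n ∧ lo + (j : ℕ) * ε n ≤ hi - ρ / 2 ∧ 16 * ε n ≤ ρ' := by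
        refine ⟨?_, ?_, hn16⟩
        · have := hy.2.2
          have := hyI.2.1
          linarith
        · have := hy.2.1
          have := hyI.2.2
          linarith
      rw [if_pos h2]
      have h3 := P.φ_lip R (lo + (j : ℕ) * ε n) y
      have h4 : |y - (lo + (j : ℕ) * ε n)| ≤ ε n := by
        rw [abs_le]
        constructor <;> linarith [hy.2.1, hy.2.2]
      refine ⟨P.φ R y, hyI.1, ?_, ?_⟩
      · linarith [h3.1]
      · linarith [h3.2]
    rw [Set.indicator_of_mem h1]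
    rw [← ENNReal.ofReal_rpow_of_pos hn]
    apply ENNReal.rpow_le_rpow _ hd0.le
    refine (Metric.ediam_mono Set.inter_subset_right).trans ?_
    rw [Real.ediam_Icc]
    apply ENNReal.ofReal_le_ofReal
    linarith

/-- Upper bound for the dimension on one piece. -/
theorem ae_piece_dim (P : Pc) : ∀ᵐ K ∂(μ : Measure (NonemptyCompacts ℂ)),
    dimH ({x : ℝ | P.φ R x ∈ K} ∩ Set.Icc (P.lo R) (P.hi R)) ≤ ((2/3 : NNReal) : ℝ≥0∞) := by
  have h1 : ∀ n m : ℕ, ∀ᵐ K ∂(μ : Measure (NonemptyCompacts ℂ)),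
      μH[((2/3 + 1 / ((m : NNReal) + 1) : NNReal) : ℝ)]
        ({x : ℝ | P.φ R x ∈ K} ∩
          Set.Icc (P.lo R + 1 / ((n : ℝ) + 1)) (P.hi R - 1 / ((n : ℝ) + 1))) = 0 := by
    intro n m
    apply R.ae_piece hδ hlim hμ P (by positivity)
    push_cast
    have : (0:ℝ) < 1 / ((m : ℝ) + 1) := by positivity
    linarith
  have h1' := ae_all_iff.mpr (fun n => ae_all_iff.mpr (h1 n))
  filter_upwards [h1'] with K hK
  have hsub : {x : ℝ | P.φ R x ∈ K} ∩ Set.Icc (P.lo R) (P.hi R) ⊆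
      ({P.lo R} ∪ {P.hi R}) ∪ ⋃ n : ℕ, ({x : ℝ | P.φ R x ∈ K} ∩
          Set.Icc (P.lo R + 1 / ((n : ℝ) + 1)) (P.hi R - 1 / ((n : ℝ) + 1))) := by
    rintro y ⟨hy1, hy2, hy3⟩
    rcases eq_or_lt_of_le hy2 with h | h
    · left; left; exact h.symm
    · rcases eq_or_lt_of_le hy3 with h' | h'
      · left; right; exact h'
      · right
        rw [Set.mem_iUnion]
        obtain ⟨n, hn⟩ := exists_nat_one_div_lt (lt_min (sub_pos.mpr h) (sub_pos.mpr h'))
        refine ⟨n, hy1, ?_, ?_⟩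
        · have := (hn.trans_le (min_le_left _ _)).le
          linarith
        · have := (hn.trans_le (min_le_right _ _)).le
          linarith
  refine (dimH_mono hsub).trans ?_
  rw [dimH_union, dimH_union, dimH_singleton, dimH_singleton, dimH_iUnion]
  apply max_le (by simp)
  apply iSup_le
  intro n
  apply le_of_forall_gt_imp_ge_of_dense
  intro a ha
  have h2 : ∃ m : ℕ, ((2/3 + 1 / ((m : NNReal) + 1) : NNReal) : ℝ≥0∞) ≤ a := by
    by_cases hat : a = ⊤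
    · exact ⟨0, by rw [hat]; exact le_top⟩
    · lift a to NNReal using hat
      have ha' : (2/3 : NNReal) < a := by exact_mod_cast ha
      have ha2 : (0:ℝ) < (a : ℝ) - 2/3 := by
        have : ((2/3 : NNReal) : ℝ) < (a : ℝ) := by exact_mod_cast ha'
        push_cast at this
        linarith
      obtain ⟨m, hm⟩ := exists_nat_one_div_lt ha2
      refine ⟨m, ?_⟩
      have : ((2/3 + 1 / ((m : NNReal) + 1) : NNReal) : ℝ) ≤ (a : ℝ) := by
        push_cast
        linarith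
      exact_mod_cast this
  obtain ⟨m, hm⟩ := h2
  refine le_trans ?_ hm
  apply dimH_le_of_hausdorffMeasure_ne_top
  rw [hK n m]
  exact ENNReal.zero_ne_top

end

/-- The boundary of the rectangle consists of the six pieces. -/
theorem frontier_D : frontier R.D ⊆ ⋃ P : Pc, P.φ R '' Set.Icc (P.lo R) (P.hi R) := by
  have hD : R.D = Set.Ioo (-R.A) R.B ×ℂ Set.Ioo 0 R.H := by
    ext z
    simp only [D, Complex.mem_reProdIm, Set.mem_ofPred_eq, Set.mem_Ioo]
    tauto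
  have hA := R.hA
  have hB := R.hB
  have hH := R.hH
  have h1 := R.ht1
  have h2 := R.ht2
  rw [hD, Complex.frontier_reProdIm, closure_Ioo (by linarith), closure_Ioo (by linarith),
    frontier_Ioo (by linarith), frontier_Ioo (by linarith)]
  rintro z (hz | hz)
  · rw [Complex.mem_reProdIm] at hz
    obtain ⟨⟨hz1, hz2⟩, hz3⟩ := hz
    rw [Set.mem_iUnion]
    rcases hz3 with hz3 | hz3
    · rcases le_total 0 z.re with h | h
      · exact ⟨.br, z.re, ⟨h, hz2⟩, Complex.ext rfl (by simp [Pc.φ, hz3])⟩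
      · exact ⟨.bl, z.re, ⟨hz1, h⟩, Complex.ext rfl (by simp [Pc.φ, hz3])⟩
    · have hz3' : z.im = R.H := hz3
      rcases le_total R.t z.re with h | h
      · exact ⟨.tr, z.re, ⟨h, hz2⟩, Complex.ext rfl (by simp [Pc.φ, hz3'])⟩
      · exact ⟨.tl, z.re, ⟨hz1, h⟩, Complex.ext rfl (by simp [Pc.φ, hz3'])⟩
  · rw [Complex.mem_reProdIm] at hz
    obtain ⟨hz3, hz1, hz2⟩ := hz
    rw [Set.mem_iUnion]
    rcases hz3 with hz3 | hz3
    · exact ⟨.lt, z.im, ⟨hz1, hz2⟩, Complex.ext (by simp [Pc.φ, hz3]) rfl⟩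
    · have hz3' : z.re = R.B := hz3
      exact ⟨.rt, z.im, ⟨hz1, hz2⟩, Complex.ext (by simp [Pc.φ, hz3']) rfl⟩

section

variable {ι : Type} {L : Filter ι} [NeBot L] {δ : ι → ℝ} (hδ : ∀ i, 0 < δ i)
  (hlim : Tendsto δ L (𝓝 0))
  {μ : ProbabilityMeasure (NonemptyCompacts ℂ)}
  (hμ : Tendsto (fun i => R.law (hδ i)) L (𝓝 μ))

include hlim hμ

/-- The intersection with the boundary has dimension at most `2/3`. -/
theorem ae_frontier_le : ∀ᵐ (K : NonemptyCompacts ℂ) ∂(μ : Measure (NonemptyCompacts ℂ)),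
    dimH ((K : Set ℂ) ∩ frontier R.D) ≤ ((2/3 : NNReal) : ℝ≥0∞) := by
  filter_upwards [R.ae_piece_dim hδ hlim hμ .br, R.ae_piece_dim hδ hlim hμ .rt,
    R.ae_piece_dim hδ hlim hμ .tr, R.ae_piece_dim hδ hlim hμ .bl,
    R.ae_piece_dim hδ hlim hμ .lt, R.ae_piece_dim hδ hlim hμ .tl] with K k1 k2 k3 k4 k5 k6
  have hall : ∀ P : Pc, dimH (P.φ R '' ({x : ℝ | P.φ R x ∈ K} ∩ Set.Icc (P.lo R) (P.hi R))) ≤
      ((2/3 : NNReal) : ℝ≥0∞) := by
    intro P
    rw [(P.φ_isometry R).dimH_image]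
    cases P
    · exact k1
    · exact k2
    · exact k3
    · exact k4
    · exact k5
    · exact k6
  have hsub : (K : Set ℂ) ∩ frontier R.D ⊆
      (((((Pc.br.φ R '' ({x : ℝ | Pc.br.φ R x ∈ K} ∩ Set.Icc (Pc.br.lo R) (Pc.br.hi R))) ∪
      (Pc.rt.φ R '' ({x : ℝ | Pc.rt.φ R x ∈ K} ∩ Set.Icc (Pc.rt.lo R) (Pc.rt.hi R)))) ∪
      (Pc.tr.φ R '' ({x : ℝ | Pc.tr.φ R x ∈ K} ∩ Set.Icc (Pc.tr.lo R) (Pc.tr.hi R)))) ∪
      (Pc.bl.φ R '' ({x : ℝ | Pc.bl.φ R x ∈ K} ∩ Set.Icc (Pc.bl.lo R) (Pc.bl.hi R)))) ∪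
      (Pc.lt.φ R '' ({x : ℝ | Pc.lt.φ R x ∈ K} ∩ Set.Icc (Pc.lt.lo R) (Pc.lt.hi R)))) ∪
      (Pc.tl.φ R '' ({x : ℝ | Pc.tl.φ R x ∈ K} ∩ Set.Icc (Pc.tl.lo R) (Pc.tl.hi R))) := by
    rintro z ⟨hz1, hz2⟩
    obtain ⟨P, x, hx, rfl⟩ := Set.mem_iUnion.mp (R.frontier_D hz2)
    cases P
    · exact Or.inl (Or.inl (Or.inl (Or.inl (Or.inl ⟨x, ⟨hz1, hx⟩, rfl⟩))))
    · exact Or.inl (Or.inl (Or.inl (Or.inl (Or.inr ⟨x, ⟨hz1, hx⟩, rfl⟩))))
    · exact Or.inl (Or.inl (Or.inl (Or.inr ⟨x, ⟨hz1, hx⟩, rfl⟩)))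
    · exact Or.inl (Or.inl (Or.inr ⟨x, ⟨hz1, hx⟩, rfl⟩))
    · exact Or.inl (Or.inr ⟨x, ⟨hz1, hx⟩, rfl⟩)
    · exact Or.inr ⟨x, ⟨hz1, hx⟩, rfl⟩
  refine (dimH_mono hsub).trans ?_
  simp only [dimH_union]
  exact max_le (max_le (max_le (max_le (max_le (hall _) (hall _)) (hall _)) (hall _)) (hall _))
    (hall _)

/-- The intersection with the boundary has dimension exactly `2/3`. -/
theorem ae_frontier : ∀ᵐ (K : NonemptyCompacts ℂ) ∂(μ : Measure (NonemptyCompacts ℂ)),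
    dimH ((K : Set ℂ) ∩ frontier R.D) = 2 / 3 ∧
    ∀ x : ℝ, 0 < x → dimH {y : ℝ | 0 ≤ y ∧ y < x ∧ y ≤ R.B ∧ (y : ℂ) ∈ K} = 2 / 3 := by
  have h23 : ((2/3 : NNReal) : ENNReal) = 2 / 3 := by
    rw [ENNReal.coe_div (by norm_num)]; norm_num
  filter_upwards [R.ae_frontier_le hδ hlim hμ, R.ae_le_dim hδ hlim hμ] with K h1 h2
  have hcoe : Isometry (fun y : ℝ => (y : ℂ)) := Complex.isometry_ofReal
  have hsubF : ∀ y : ℝ, 0 ≤ y → y ≤ R.B → (y : ℂ) ∈ frontier R.D := by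
    have hD : R.D = Set.Ioo (-R.A) R.B ×ℂ Set.Ioo 0 R.H := by
      ext z
      simp only [D, Complex.mem_reProdIm, Set.mem_ofPred_eq, Set.mem_Ioo]
      tauto
    intro y hy0 hyB
    have hA := R.hA
    have hB := R.hB
    have hH := R.hH
    rw [hD, Complex.frontier_reProdIm, closure_Ioo (by linarith), closure_Ioo (by linarith),
      frontier_Ioo (by linarith), frontier_Ioo (by linarith)]
    left
    rw [Complex.mem_reProdIm]
    refine ⟨⟨?_, ?_⟩, ?_⟩
    · rw [Complex.ofReal_re]; linarith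
    · rw [Complex.ofReal_re]; exact hyB
    · rw [Complex.ofReal_im]; left; rfl
  have key : ∀ x : ℝ, 0 < x →
      ((2/3 : NNReal) : ℝ≥0∞) ≤ dimH {y : ℝ | 0 ≤ y ∧ y < x ∧ y ≤ R.B ∧ (y : ℂ) ∈ K} := by
    intro x hx
    refine (h2 (min x R.B) (lt_min hx R.hB)).trans (dimH_mono ?_)
    rintro y ⟨hy1, hy2, hy3⟩
    exact ⟨hy2, hy3.trans_le (min_le_left _ _), (hy3.trans_le (min_le_right _ _)).le, hy1⟩
  have himg : ∀ x : ℝ, (fun y : ℝ => (y : ℂ)) '' {y : ℝ | 0 ≤ y ∧ y < x ∧ y ≤ R.B ∧ (y : ℂ) ∈ K} ⊆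
      (K : Set ℂ) ∩ frontier R.D := by
    rintro x _ ⟨y, ⟨hy1, _, hy3, hy4⟩, rfl⟩
    exact ⟨hy4, hsubF y hy1 hy3⟩
  have hup : ∀ x : ℝ, dimH {y : ℝ | 0 ≤ y ∧ y < x ∧ y ≤ R.B ∧ (y : ℂ) ∈ K} ≤
      dimH ((K : Set ℂ) ∩ frontier R.D) := by
    intro x
    rw [← hcoe.dimH_image]
    exact dimH_mono (himg x)
  constructor
  · rw [← h23]
    exact le_antisymm h1 ((key 1 one_pos).trans (hup 1))
  · intro x hx
    rw [← h23]
    exact le_antisymm ((hup x).trans h1) (key x hx)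

end

end Rect

end H934E
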