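import Pool.Agent.H934R2.Expl.Lower

/-!
Existence of weak subsequential limits and hitting probabilities of boundary intervals.
-/

set_option maxHeartbeats 400000

namespace H934E

open H974 H973 Finset MeasureTheory TopologicalSpace Filter Topology
open scoped ENNReal

namespace Rect

variable (R : Rect)

/-- A compact set which contains all paths. -/
def bigBox : Set ℂ := {z | |z.re| ≤ R.A + R.B + 3 ∧ |z.im| ≤ R.H + 3}

theorem isCompact_bigBox : IsCompact R.bigBox := by
  apply Metric.isCompact_of_isClosed_isBounded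
  · have c1 : Continuous (fun z : ℂ => |z.re|) := by fun_prop
    have c2 : Continuous (fun z : ℂ => |z.im|) := by fun_prop
    exact (isClosed_le c1 continuous_const).inter (isClosed_le c2 continuous_const)
  · rw [isBounded_iff_forall_norm_le]
    refine ⟨(R.A + R.B + 3) + (R.H + 3), ?_⟩
    rintro z ⟨h1, h2⟩
    exact (Complex.norm_le_abs_re_add_abs_im z).trans (add_le_add h1 h2)

/-- All vertices of the cluster are in `D_δ`, if it is large enough. -/
theorem clu_verts {δ : ℝ} (hx : R.x0 δ < 0) (hy : 0 < R.y1 δ) (ht : R.tc δ ≤ R.x1 δ)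
    (hx1 : 0 ≤ R.x1 δ) {F : Finset Edg} (hF : F ⊆ R.edges δ) {v : Vtx}
    (hv : W (R.wired δ) F v) : v ∈ R.verts δ := by
  refine reach_mem (F := (↑F ∪ R.wired δ : Set Edg)) ?_ ?_ hv
  · rintro ⟨x, y, b⟩ (he | he)
    · exact hF (Finset.mem_coe.mp he)
    · simp only [wired, Set.mem_ofPred_eq] at he
      rw [mem_ES, mem_verts', mem_verts']
      rcases he with ⟨rfl, h⟩ | ⟨rfl, h⟩ | ⟨rfl, h⟩
      · simp only [src_mk, tgt_true]; omega
      · simp only [src_mk, tgt_false]; omega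
      · simp only [src_mk, tgt_true]; omega
  · rw [mem_verts']; simp only; omega

theorem small_geom {δ : ℝ} (hδ : 0 < δ) (h1 : 4 * δ < R.L0) :
    R.x0 δ < 0 ∧ 0 < R.y1 δ ∧ R.tc δ ≤ R.x1 δ ∧ 0 ≤ R.x1 δ := by
  have hA : 4 < R.A / δ := by
    rw [lt_div_iff₀ hδ]; exact h1.trans_le R.L0_A
  have hH : 4 < R.H / δ := by
    rw [lt_div_iff₀ hδ]; exact h1.trans_le R.L0_H
  refine ⟨?_, ?_, ?_, R.x1_nonneg hδ⟩
  · unfold x0
    rw [Int.floor_neg]
    have : 4 < ⌈R.A / δ⌉ := by
      rw [Int.lt_ceil]; push_cast; exact hA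
    omega
  · unfold y1
    have : 4 < ⌈R.H / δ⌉ := by
      rw [Int.lt_ceil]; push_cast; exact hH
    omega
  · unfold tc x1
    have h2 : R.t / δ < R.B / δ := div_lt_div_of_pos_right R.ht2 hδ
    have h3 : ⌊R.t / δ⌋ < ⌈R.B / δ⌉ := by
      have a1 : (⌊R.t / δ⌋ : ℝ) ≤ R.t / δ := Int.floor_le _
      have a2 : R.B / δ ≤ (⌈R.B / δ⌉ : ℝ) := Int.le_ceil _
      have : (⌊R.t / δ⌋ : ℝ) < (⌈R.B / δ⌉ : ℝ) := by linarith
      exact_mod_cast this
    omega

theorem path_bigBox {δ : ℝ} (hδ : 0 < δ) (h1 : 4 * δ < R.L0) (h2 : δ ≤ 1) {F : Finset Edg}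
    (hF : F ⊆ R.edges δ) : R.path δ F ⊆ R.bigBox := by
  intro z hz
  obtain ⟨v, hv, hv1, hv2⟩ := R.path_near hδ hz
  obtain ⟨g1, g2, g3, g4⟩ := R.small_geom hδ h1
  have h3 := (R.mem_verts hδ).mp (R.clu_verts g1 g2 g3 g4 hF hv)
  unfold D pt at h3
  simp only [Set.mem_ofPred_eq] at h3
  obtain ⟨a1, a2, a3, a4⟩ := h3
  rw [abs_le] at hv1 hv2
  have hA := R.hA
  have hB := R.hB
  constructor
  · rw [abs_le]; constructor <;> linarith
  · rw [abs_le]; constructor <;> linarith

/-- The laws of the traces are relatively compact. -/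
theorem exists_limit {δ : ℕ → ℝ} (hδ : ∀ i, 0 < δ i) (hlim : Tendsto δ atTop (𝓝 0)) :
    ∃ φ : ℕ → ℕ, StrictMono φ ∧ ∃ μ : ProbabilityMeasure (NonemptyCompacts ℂ),
      Tendsto (fun i => R.law (hδ (φ i))) atTop (𝓝 μ) := by
  obtain ⟨N, hN⟩ := eventually_atTop.mp
    (hlim.eventually_lt_const (lt_min (div_pos R.L0_pos (by norm_num : (0:ℝ) < 4)) one_pos))
  set S : Set (ProbabilityMeasure (NonemptyCompacts ℂ)) :=
    Set.range (fun i => R.law (hδ (i + N))) with hS
  have htight : IsTightMeasureSet {((ν : ProbabilityMeasure (NonemptyCompacts ℂ)) :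
      Measure (NonemptyCompacts ℂ)) | ν ∈ S} := by
    rw [isTightMeasureSet_iff_exists_isCompact_measure_compl_le]
    intro ε _
    have hK := NonemptyCompacts.isCompact_subsets_of_isCompact R.isCompact_bigBox
    refine ⟨_, hK, ?_⟩
    rintro ν ⟨ν', ⟨i, rfl⟩, rfl⟩
    rw [R.law_apply (hδ (i + N)) hK.isClosed.measurableSet.compl]
    have h0 : Q (R.edges (δ (i + N))) (fun F => R.trace (hδ (i + N)) F ∈
        {K : NonemptyCompacts ℂ | (K : Set ℂ) ⊆ R.bigBox}ᶜ) = 0 := by
      have h1 := hN (i + N) (by omega)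
      rw [lt_min_iff] at h1
      have : Q (R.edges (δ (i + N))) (fun F => R.trace (hδ (i + N)) F ∈
        {K : NonemptyCompacts ℂ | (K : Set ℂ) ⊆ R.bigBox}ᶜ) =
          Q (R.edges (δ (i + N))) (fun _ => False) := by
        apply Pr_congr
        intro F hF
        rw [iff_false]
        intro h2
        apply h2
        exact R.path_bigBox (hδ (i + N)) (by linarith [h1.1]) h1.2.le hF
      rw [this]
      unfold Q Pr
      have : (fun F : Finset Edg => ind False) = fun _ => (0:ℝ) := by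
        funext F; exact ind_not_of (fun h => h)
      rw [this, Ex_const]
    rw [h0, ENNReal.ofReal_zero]
    exact bot_le
  have hcomp := isCompact_closure_of_isTightMeasureSet htight
  obtain ⟨μ, _, φ, hφ, hμ⟩ := hcomp.tendsto_subseq
    (x := fun i => R.law (hδ (i + N))) (fun i => subset_closure ⟨i, rfl⟩)
  exact ⟨fun i => φ i + N, fun i j h => by simpa using hφ h, μ, hμ⟩

/-- The event that `K` meets the boundary interval `[x - r, x + r]`. -/
def HI (x r : ℝ) : Set (NonemptyCompacts ℂ) :=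
  {K | (touch K ∩ Set.Icc (x - r) (x + r)).Nonempty}

/-- Closed neighbourhoods of a boundary interval. -/
def NI (x r θ : ℝ) : Set ℂ := {z | |z.re - x| ≤ r ∧ |z.im| ≤ θ}

theorem isClosed_NI (x r θ : ℝ) : IsClosed (NI x r θ) := by
  have c1 : Continuous (fun z : ℂ => |z.re - x|) := by fun_prop
  have c2 : Continuous (fun z : ℂ => |z.im|) := by fun_prop
  exact (isClosed_le c1 continuous_const).inter (isClosed_le c2 continuous_const)

theorem HI_eq (x r : ℝ) : HI x r = ⋂ n : ℕ,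
    {K : NonemptyCompacts ℂ | ((K : Set ℂ) ∩ NI x r (1 / ((n : ℝ) + 1))).Nonempty} := by
  ext K
  simp only [HI, Set.mem_ofPred_eq, Set.mem_iInter]
  constructor
  · rintro ⟨y, hy1, hy2⟩ n
    refine ⟨(y : ℂ), hy1, ?_, ?_⟩
    · simp only [Complex.ofReal_re]
      rw [abs_le]
      constructor <;> linarith [hy2.1, hy2.2]
    · simp only [Complex.ofReal_im, abs_zero]
      positivity
  · intro h
    have hc : ∀ n : ℕ, IsCompact ((K : Set ℂ) ∩ NI x r (1 / ((n : ℝ) + 1))) :=
      fun n => K.isCompact.inter_right (isClosed_NI _ _ _)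
    have hmono : ∀ n : ℕ, (K : Set ℂ) ∩ NI x r (1 / (((n + 1 : ℕ) : ℝ) + 1)) ⊆
        (K : Set ℂ) ∩ NI x r (1 / ((n : ℝ) + 1)) := by
      rintro n z ⟨h1, h2, h3⟩
      refine ⟨h1, h2, h3.trans ?_⟩
      exact Nat.one_div_le_one_div (Nat.le_succ n)
    have := IsCompact.nonempty_iInter_of_sequence_nonempty_isCompact_isClosed _ hmono h (hc 0)
      (fun n => (hc n).isClosed)
    obtain ⟨z, hz⟩ := this
    rw [Set.mem_iInter] at hz
    have him : z.im = 0 := by
      have h1 : ∀ n : ℕ, |z.im| ≤ 1 / ((n : ℝ) + 1) := fun n => (hz n).2.2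
      have h2 : |z.im| ≤ 0 := ge_of_tendsto' tendsto_one_div_add_atTop_nhds_zero_nat h1
      exact abs_eq_zero.mp (le_antisymm h2 (abs_nonneg _))
    have hz0 : z = ((z.re : ℝ) : ℂ) := by
      apply Complex.ext <;> simp [him]
    refine ⟨z.re, ?_, ?_⟩
    · show ((z.re : ℝ) : ℂ) ∈ K
      rw [← hz0]
      exact (hz 0).1
    · have := abs_le.mp (hz 0).2.1
      constructor <;> linarith

/-- Visits of boundary intervals, discrete lower bound. -/
theorem visit_interval_ge : ∃ c : ℝ, 0 < c ∧ ∀ (M : ℤ) (T : Finset Vtx) (A : Set Edg),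
    Dob M T A → ∀ k r : ℤ, 1 ≤ r → 3 * r ≤ k → 4 * k ≤ M →
    c * (th r / th k) ≤ Q (ES T) (fun F => ∃ l : ℤ, k - 3 * r ≤ l ∧ l ≤ k - r ∧
      W A F (l, 0)) := by
  obtain ⟨c, hc, h⟩ := hit_ge
  have hkp := kp_pos
  refine ⟨c * kp, by positivity, ?_⟩
  intro M T A hD k r hr hrk hM
  have h1 := h M T A hD k r hr (by omega) hM
  have hfree := hD.toFree (k := k) (R := 3 * r) hrk (by omega)
  have h2 := pr_HC (k := k) (r := r) (by omega) (RE_sub hfree.flat)
  have i1 : IncrE (ES T) (WB A k r) := by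
    rintro F G hFG _ ⟨u, hu, hW⟩
    exact ⟨u, hu, hW.mono hFG⟩
  have i2 := hmul i1 (HC_incr (ES T) k r (3 * r)) hkp.le h1 h2
  have e1 : c * (th r / th k) * kp = c * kp * (th r / th k) := by ring
  rw [e1] at i2
  refine i2.trans ?_
  apply Q_mono
  rintro F hF ⟨⟨u, hu, hW⟩, hH⟩
  obtain ⟨l, hl1, hl2, hz⟩ := hc_meet (by omega) (by omega) hH
  refine ⟨l, hl1, hl2, ?_⟩
  -- the path from `u` to the origin leaves the box of radius `3 r`
  have hA : ∀ e ∈ (↑F ∪ A : Set Edg), e ∈ RE (k - 3 * r) (k + 3 * r) (-(3 * r)) (3 * r) →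
      e ∈ F ∧ 0 ≤ e.2.1 := by
    rintro e he hE
    have hends := mem_RE_ends hE
    unfold inR at hends
    have hE2 : e ∈ ES (BX (k, 0) (3 * r)) := by
      rw [mem_ES, mem_BX, mem_BX]; simp only; omega
    rcases he with he | he
    · refine ⟨Finset.mem_coe.mp he, ?_⟩
      have := (mem_ES.mp (hF (Finset.mem_coe.mp he))).1
      exact (hfree.flat _ (mem_ES.mp hE2).1).mp this
    · exact absurd hE2 (hfree.free e he)
  obtain ⟨w, hw1, _, hw2⟩ := exitG (k := k) (R := 3 * r) (by omega) (G := (↑F ∪ A : Set Edg))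
    (fun e he hE => (hA e he hE).2) (u := u) (v := (0, 0))
    (by unfold inR at hu ⊢; omega) (Reach.symm hW) (by simp only; omega)
  have hw3 : Reach (↑F ∩ ↑(RE (k - 3 * r) (k + 3 * r) 0 (3 * r))) u w := by
    refine hw2.mono ?_
    rintro e ⟨he1, he2⟩
    refine ⟨?_, he2⟩
    have he3 : e ∈ RE (k - 3 * r) (k + 3 * r) (-(3 * r)) (3 * r) := by
      rw [Finset.mem_coe] at he2
      exact RE_subset le_rfl le_rfl (by omega) le_rfl he2
    exact Finset.mem_coe.mpr (hA e he1 he3).1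
  have hul := hz u w hu hw1 hw3
  exact Reach.trans hW (hul.mono (Set.inter_subset_left.trans Set.subset_union_left))

/-- Hitting probabilities of boundary intervals in the limit. -/
theorem HI_bounds : ∃ c C : ℝ, 0 < c ∧ 0 < C ∧ ∀ (R : Rect) {ι : Type} {L : Filter ι} [NeBot L]
    {δ : ι → ℝ} (hδ : ∀ i, 0 < δ i) (_ : Tendsto δ L (𝓝 0))
    {μ : ProbabilityMeasure (NonemptyCompacts ℂ)}
    (_ : Tendsto (fun i => R.law (hδ i)) L (𝓝 μ)) (x r : ℝ), 0 < r → r ≤ x → 8 * x ≤ R.L0 →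
    ENNReal.ofReal (c * (r / x) ^ ((1:ℝ)/3)) ≤ (μ : Measure (NonemptyCompacts ℂ)) (HI x r) ∧
    (μ : Measure (NonemptyCompacts ℂ)) (HI x r) ≤ ENNReal.ofReal (C * (r / x) ^ ((1:ℝ)/3)) := by
  obtain ⟨C, hC, hH⟩ := HU_le
  obtain ⟨c, hc, h⟩ := visit_interval_ge
  refine ⟨c / 4, max (2 * C) 16, by positivity, lt_max_of_lt_right (by norm_num), ?_⟩
  intro R ι L _ δ hδ hlim μ hμ x r hr hrx hx
  have hx0 : 0 < x := hr.trans_le hrx
  constructor
  · rw [HI_eq]
    have hmono : Antitone (fun n : ℕ =>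
        {K : NonemptyCompacts ℂ | ((K : Set ℂ) ∩ NI x r (1 / ((n : ℝ) + 1))).Nonempty}) := by
      rintro a b hab K ⟨z, hz1, hz2, hz3⟩
      exact ⟨z, hz1, hz2, hz3.trans (Nat.one_div_le_one_div hab)⟩
    have hclosed : ∀ n : ℕ, IsClosed
        {K : NonemptyCompacts ℂ | ((K : Set ℂ) ∩ NI x r (1 / ((n : ℝ) + 1))).Nonempty} :=
      fun n => NonemptyCompacts.isClosed_inter_nonempty_of_isClosed (isClosed_NI _ _ _)
    rw [hmono.measure_iInter (fun n => (hclosed n).measurableSet.nullMeasurableSet)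
      ⟨0, measure_ne_top _ _⟩]
    apply le_iInf
    intro n
    apply R.closed_ge hδ hμ (hclosed n)
    have hpos : 0 < min (r / 32) (min (1 / ((n : ℝ) + 1)) (R.L0 / 32)) := by
      have := R.L0_pos
      exact lt_min (by positivity) (lt_min (by positivity) (by positivity))
    filter_upwards [hlim.eventually_lt_const hpos] with i hi
    simp only [lt_min_iff] at hi
    obtain ⟨i1, i2, i3⟩ := hi
    have hδi := hδ i
    set k : ℤ := ⌊x / δ i⌋ with hk
    set s : ℤ := ⌊r / (4 * δ i)⌋ with hs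
    have k1 : (k : ℝ) ≤ x / δ i := Int.floor_le _
    have k2 : x / δ i < k + 1 := Int.lt_floor_add_one _
    have s1 : (s : ℝ) ≤ r / (4 * δ i) := Int.floor_le _
    have s2 : r / (4 * δ i) < s + 1 := Int.lt_floor_add_one _
    have q1 : r / (4 * δ i) = (r / δ i) / 4 := by field_simp
    rw [q1] at s1 s2
    have q2 : 32 < r / δ i := by rw [lt_div_iff₀ hδi]; linarith
    have q3 : r / δ i ≤ x / δ i := div_le_div_of_nonneg_right hrx hδi.le
    have q4 : 8 * (x / δ i) ≤ R.L0 / δ i := by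
      rw [← mul_div_assoc]; exact div_le_div_of_nonneg_right hx hδi.le
    have hs1 : 1 ≤ s := by
      have : (0:ℝ) < s := by linarith
      exact_mod_cast this
    have hsk : 3 * s ≤ k := by
      have : ((3 * s : ℤ) : ℝ) ≤ (k : ℝ) := by push_cast; linarith
      exact_mod_cast this
    have hkM : 4 * k ≤ ⌊R.L0 / δ i⌋ - 3 := by
      have a1 : R.L0 / δ i < (⌊R.L0 / δ i⌋ : ℝ) + 1 := Int.lt_floor_add_one _
      have : ((4 * k : ℤ) : ℝ) ≤ ((⌊R.L0 / δ i⌋ - 3 : ℤ) : ℝ) := by push_cast; linarith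
      exact_mod_cast this
    have hD := R.dob (δ := δ i) hδi (M := ⌊R.L0 / δ i⌋ - 3) le_rfl
    have key := h _ _ _ hD k s hs1 hsk hkM
    have e1 : c / 4 * (r / x) ^ ((1:ℝ)/3) ≤ c * (th s / th k) := by
      have hk0 : (0:ℝ) < k := by linarith
      have hs0 : (0:ℝ) < s := by linarith
      have e2 : th s / th k = ((s : ℝ) / k) ^ ((1:ℝ)/3) := by
        unfold th
        rw [Real.div_rpow hs0.le hk0.le]
      rw [e2]
      have e3 : (r / x) / 8 ≤ (s : ℝ) / k := by
        rw [le_div_iff₀ hk0]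
        have a1 : r / δ i / 8 ≤ s := by linarith
        calc (r / x) / 8 * k ≤ (r / x) / 8 * (x / δ i) :=
              mul_le_mul_of_nonneg_left k1 (by positivity)
          _ = r / δ i / 8 := by field_simp
          _ ≤ s := a1
      have e4 : ((r / x) / 8) ^ ((1:ℝ)/3) = (r / x) ^ ((1:ℝ)/3) / 2 := by
        rw [Real.div_rpow (by positivity) (by norm_num)]
        congr 1
        rw [show (8:ℝ) = 2 ^ (3:ℝ) by norm_num, ← Real.rpow_mul (by norm_num)]
        norm_num
      have e5 : (r / x) ^ ((1:ℝ)/3) / 2 ≤ ((s : ℝ) / k) ^ ((1:ℝ)/3) := by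
        rw [← e4]
        exact Real.rpow_le_rpow (by positivity) e3 (by norm_num)
      have e6 : 0 ≤ (r / x) ^ ((1:ℝ)/3) := by positivity
      nlinarith
    refine e1.trans (key.trans ?_)
    apply Q_mono
    rintro F hF ⟨l, hl1, hl2, hW⟩
    have hlx : l ≤ R.x1 (δ i) := by
      unfold x1
      have a1 : R.B / δ i ≤ (⌈R.B / δ i⌉ : ℝ) := Int.le_ceil _
      have a2 : R.L0 / δ i ≤ R.B / δ i := div_le_div_of_nonneg_right R.L0_B hδi.le
      have a3 : (l : ℝ) ≤ ((k - s : ℤ) : ℝ) := by exact_mod_cast hl2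
      push_cast at a3
      have : (l : ℝ) ≤ (⌈R.B / δ i⌉ : ℝ) - 1 := by linarith
      exact_mod_cast this
    have hmem := R.mem_path (δ := δ i) (F := F) (by omega) hlx hW
    refine ⟨_, hmem, ?_, ?_⟩
    · simp only
      have a3 : (l : ℝ) ≤ ((k - s : ℤ) : ℝ) := by exact_mod_cast hl2
      have a4 : ((k - 3 * s : ℤ) : ℝ) ≤ (l : ℝ) := by exact_mod_cast hl1
      push_cast at a3 a4
      have e7 : δ i * (l : ℝ) - x = δ i * ((l : ℝ) - x / δ i) := by field_simp
      rw [e7, abs_mul, abs_of_pos hδi]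
      have e8 : |(l : ℝ) - x / δ i| ≤ r / δ i := by
        rw [abs_le]; constructor <;> linarith
      calc δ i * |(l : ℝ) - x / δ i| ≤ δ i * (r / δ i) := mul_le_mul_of_nonneg_left e8 hδi.le
        _ = r := by field_simp
    · simp only
      rw [abs_of_pos (by positivity)]
      linarith
  · by_cases h16 : 16 * r ≤ x
    · have hsub : HI x r ⊆ HU x (2 * r) := by
        rintro K ⟨y, hy1, hy2⟩
        refine ⟨(y : ℂ), hy1, ?_, ?_⟩
        · simp only [Complex.ofReal_re]
          rw [abs_lt]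
          constructor <;> linarith [hy2.1, hy2.2]
        · simp only [Complex.ofReal_im, abs_zero]
          positivity
      refine (measure_mono hsub).trans ((hH R hδ hlim hμ x x (2 * r) hx0 le_rfl ?_ ?_
        (by positivity) (by linarith)).trans ?_)
      · have := R.L0_B; linarith
      · have := R.L0_H; linarith
      · apply ENNReal.ofReal_le_ofReal
        have e1 : (2 * r / x) ^ ((1:ℝ)/3) ≤ 2 * (r / x) ^ ((1:ℝ)/3) := by
          rw [show 2 * r / x = 2 * (r / x) by ring, Real.mul_rpow (by norm_num) (by positivity)]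
          apply mul_le_mul_of_nonneg_right _ (by positivity)
          calc (2:ℝ) ^ ((1:ℝ)/3) ≤ (2:ℝ) ^ (1:ℝ) :=
                Real.rpow_le_rpow_of_exponent_le (by norm_num) (by norm_num)
            _ = 2 := Real.rpow_one _
        calc C * (2 * r / x) ^ ((1:ℝ)/3) ≤ C * (2 * (r / x) ^ ((1:ℝ)/3)) :=
              mul_le_mul_of_nonneg_left e1 hC.le
          _ = 2 * C * (r / x) ^ ((1:ℝ)/3) := by ring
          _ ≤ _ := mul_le_mul_of_nonneg_right (le_max_left _ _) (by positivity)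
    · push Not at h16
      refine prob_le_one.trans ?_
      rw [← ENNReal.ofReal_one]
      apply ENNReal.ofReal_le_ofReal
      have e1 : (1:ℝ)/16 ≤ r / x := by
        rw [div_le_div_iff₀ (by norm_num) hx0]; linarith
      have e2 : (1:ℝ)/16 ≤ (r / x) ^ ((1:ℝ)/3) := by
        calc (1:ℝ)/16 ≤ r / x := e1
          _ = (r / x) ^ (1:ℝ) := (Real.rpow_one _).symm
          _ ≤ (r / x) ^ ((1:ℝ)/3) := by
            apply Real.rpow_le_rpow_of_exponent_ge (by positivity) _ (by norm_num)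
            rw [div_le_one hx0]; exact hrx
      calc (1:ℝ) = 16 * (1/16) := by norm_num
        _ ≤ max (2 * C) 16 * (r / x) ^ ((1:ℝ)/3) :=
          mul_le_mul (le_max_right _ _) e2 (by norm_num) (by positivity)

end Rect

end H934E
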