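import Pool.Agent.H934R2.Expl.Chart

/-!
The six pieces of the boundary of the rectangle: the path comes close to a boundary point with
small probability.
-/

set_option maxHeartbeats 1000000

namespace H934E

open H974 H973 Finset MeasureTheory TopologicalSpace Filter Topology

/-- Numerical data for a box around the boundary point with coordinate `ξ`. -/
theorem numer {ξ ρ ε δ : ℝ} (hδ : 0 < δ) (h32 : 32 * δ ≤ ε) (h8 : 8 * ε ≤ ρ) :
    ∃ k r S : ℤ, 1 ≤ r ∧ r ≤ S ∧ th r / th S ≤ 3 * (ε / ρ) ^ ((1:ℝ)/3) ∧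
      (∀ a : ℤ, |δ * a - ξ| ≤ ε + 4 * δ → k - r ≤ a ∧ a ≤ k + r) ∧
      (∀ b : ℤ, δ * b ≤ ε + 4 * δ → b ≤ r) ∧
      (S : ℝ) + 3 ≤ ρ / δ ∧ ξ / δ - 1 ≤ k ∧ (k : ℝ) ≤ ξ / δ ∧ ξ / δ + 5 ≤ k + S + 10 ∧
      (∀ η : ℝ, ρ ≤ η - ξ → (k : ℝ) + S + 3 ≤ η / δ) ∧
      (∀ η : ℝ, ρ ≤ ξ - η → η / δ + 3 ≤ (k : ℝ) - S) := by
  set k : ℤ := ⌊ξ / δ⌋ with hk
  set r : ℤ := ⌈3 * ε / δ⌉ with hr
  set S : ℤ := ⌊ρ / (2 * δ)⌋ with hS
  have hε : 0 < ε := by linarith
  have hρ : 0 < ρ := by linarith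
  have k1 : (k : ℝ) ≤ ξ / δ := Int.floor_le _
  have k2 : ξ / δ < k + 1 := Int.lt_floor_add_one _
  have r1 : 3 * ε / δ ≤ r := Int.le_ceil _
  have r2 : (r : ℝ) < 3 * ε / δ + 1 := Int.ceil_lt_add_one _
  have S1 : (S : ℝ) ≤ ρ / (2 * δ) := Int.floor_le _
  have S2 : ρ / (2 * δ) < S + 1 := Int.lt_floor_add_one _
  have q1 : 32 ≤ ε / δ := by rw [le_div_iff₀ hδ]; exact h32
  have q2 : 8 * (ε / δ) ≤ ρ / δ := by
    rw [← mul_div_assoc]; exact div_le_div_of_nonneg_right h8 hδ.le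
  have q3 : ρ / (2 * δ) = (ρ / δ) / 2 := by field_simp
  have q4 : 3 * ε / δ = 3 * (ε / δ) := by ring
  rw [q3] at S1 S2
  rw [q4] at r1 r2
  have hr1 : 1 ≤ r := by
    have : (0:ℝ) < r := by linarith
    exact_mod_cast this
  have hrS : r ≤ S := by
    have : (r : ℝ) < S := by linarith
    exact_mod_cast this.le
  refine ⟨k, r, S, hr1, hrS, ?_, ?_, ?_, by linarith, by linarith, k1, by linarith, ?_, ?_⟩
  · have hS0 : (0:ℝ) < S := by exact_mod_cast (show (0:ℤ) < S by omega)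
    have hr0 : (0:ℝ) ≤ r := by exact_mod_cast (show (0:ℤ) ≤ r by omega)
    have e1 : th r / th S = ((r : ℝ) / S) ^ ((1:ℝ)/3) := by
      unfold th
      rw [Real.div_rpow hr0 hS0.le]
    rw [e1]
    have e2 : (r : ℝ) / S ≤ 16 * (ε / ρ) := by
      rw [div_le_iff₀ hS0]
      have c1 : ρ / δ / 4 ≤ S := by linarith
      have c2 : (r : ℝ) ≤ 4 * (ε / δ) := by linarith
      calc (r : ℝ) ≤ 4 * (ε / δ) := c2
        _ = 16 * (ε / ρ) * (ρ / δ / 4) := by field_simp; norm_num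
        _ ≤ 16 * (ε / ρ) * S := mul_le_mul_of_nonneg_left c1 (by positivity)
    calc ((r : ℝ) / S) ^ ((1:ℝ)/3) ≤ (16 * (ε / ρ)) ^ ((1:ℝ)/3) :=
          Real.rpow_le_rpow (by positivity) e2 (by norm_num)
      _ = (16:ℝ) ^ ((1:ℝ)/3) * (ε / ρ) ^ ((1:ℝ)/3) := Real.mul_rpow (by norm_num) (by positivity)
      _ ≤ _ := by
          apply mul_le_mul_of_nonneg_right _ (by positivity)
          have : (16:ℝ) ^ ((1:ℝ)/3) ≤ (27:ℝ) ^ ((1:ℝ)/3) :=
            Real.rpow_le_rpow (by norm_num) (by norm_num) (by norm_num)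
          have e27 : (27:ℝ) ^ ((1:ℝ)/3) = 3 := by
            rw [show (27:ℝ) = 3 ^ (3:ℝ) by norm_num, ← Real.rpow_mul (by norm_num)]
            norm_num
          linarith
  · intro a ha
    have a1 : |(a : ℝ) - ξ / δ| ≤ ε / δ + 4 := by
      have e1 : (a : ℝ) - ξ / δ = (δ * (a : ℝ) - ξ) / δ := by field_simp
      rw [e1, abs_div, abs_of_pos hδ, div_le_iff₀ hδ]
      have : (ε / δ + 4) * δ = ε + 4 * δ := by field_simp
      linarith
    rw [abs_le] at a1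
    have b1 : ((k - r : ℤ) : ℝ) ≤ a := by push_cast; linarith
    have b2 : (a : ℝ) ≤ ((k + r : ℤ) : ℝ) := by push_cast; linarith
    exact ⟨by exact_mod_cast b1, by exact_mod_cast b2⟩
  · intro b hb
    have a2 : (b : ℝ) ≤ ε / δ + 4 := by
      have e1 : (b : ℝ) = (δ * (b : ℝ)) / δ := by field_simp
      rw [e1, div_le_iff₀ hδ]
      have : (ε / δ + 4) * δ = ε + 4 * δ := by field_simp
      linarith
    have b3 : (b : ℝ) ≤ r := by linarith
    exact_mod_cast b3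
  · intro η hη
    have : ρ / δ ≤ η / δ - ξ / δ := by
      rw [← sub_div]; exact div_le_div_of_nonneg_right hη hδ.le
    linarith
  · intro η hη
    have : ρ / δ ≤ ξ / δ - η / δ := by
      rw [← sub_div]; exact div_le_div_of_nonneg_right hη hδ.le
    linarith

/-- The open box around the point `z`. -/
def BU (z : ℂ) (ε : ℝ) : Set ℂ := {w | |w.re - z.re| < ε ∧ |w.im - z.im| < ε}

theorem isOpen_BU (z : ℂ) (ε : ℝ) : IsOpen (BU z ε) := by
  have h1 : Continuous (fun w : ℂ => |w.re - z.re|) := by fun_prop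
  have h2 : Continuous (fun w : ℂ => |w.im - z.im|) := by fun_prop
  exact (isOpen_lt h1 continuous_const).inter (isOpen_lt h2 continuous_const)

namespace Rect

variable (R : Rect)

theorem edges_eq (δ : ℝ) : R.edges δ = RE (R.x0 δ) (R.x1 δ) 0 (R.y1 δ) := by
  unfold edges
  ext e
  rw [mem_ES, mem_verts', mem_verts']
  constructor
  · rintro ⟨h1, h2⟩
    exact mem_RE_of_ends (by unfold inR; omega) (by unfold inR; omega)
  · intro h
    have := mem_RE_ends h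
    unfold inR at this
    omega

/-- Every point of the path is close to a vertex of one cluster and to a face of the other. -/
theorem path_near2 {δ : ℝ} (hδ : 0 < δ) {F : Finset Edg} {z : ℂ} (hz : z ∈ R.path δ F) :
    ∃ v f : Vtx, W (R.wired δ) F v ∧ f ∈ R.dclu δ F ∧
      (|z.re - δ * v.1| ≤ δ ∧ |z.im - δ * (v.2 + 1)| ≤ δ) ∧
      (|z.re - δ * f.1| ≤ 2 * δ ∧ |z.im - δ * (f.2 + 1)| ≤ 2 * δ) := by
  have hz' := hz
  unfold path at hz
  rw [Set.mem_iUnion₂] at hz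
  obtain ⟨⟨v, s⟩, ⟨h1, h1'⟩, h2⟩ := hz
  have hn : |z.re - δ * v.1| ≤ δ ∧ |z.im - δ * (v.2 + 1)| ≤ δ := by
    unfold cseg at h2
    rw [segment_eq_image] at h2
    obtain ⟨θ, ⟨h3, h4⟩, rfl⟩ := h2
    have ha : |if s.1 then δ / 2 else -(δ / 2)| ≤ δ := by
      split_ifs
      · rw [abs_of_pos (by positivity)]; linarith
      · rw [abs_neg, abs_of_pos (by positivity)]; linarith
    have hb : |if s.2 then δ / 2 else -(δ / 2)| ≤ δ := by
      split_ifs
      · rw [abs_of_pos (by positivity)]; linarith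
      · rw [abs_neg, abs_of_pos (by positivity)]; linarith
    unfold pt
    simp only [Complex.add_re, Complex.add_im, Complex.real_smul, Complex.mul_re, Complex.mul_im,
      Complex.ofReal_re, Complex.ofReal_im, zero_mul, sub_zero, add_zero]
    constructor
    · have e : (1 - θ) * (δ * (v.1 : ℝ) + if s.1 then δ / 2 else -(δ / 2)) + θ * (δ * (v.1 : ℝ))
          - δ * (v.1 : ℝ) = (1 - θ) * (if s.1 then δ / 2 else -(δ / 2)) := by ring
      rw [e, abs_mul, abs_of_nonneg (by linarith)]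
      calc (1 - θ) * |if s.1 then δ / 2 else -(δ / 2)| ≤ 1 * δ :=
            mul_le_mul (by linarith) ha (abs_nonneg _) (by norm_num)
        _ = δ := one_mul _
    · have e : (1 - θ) * (δ * ((v.2 : ℝ) + 1)) + θ * (δ * ((v.2 : ℝ) + 1) +
          if s.2 then δ / 2 else -(δ / 2)) - δ * ((v.2 : ℝ) + 1) =
          θ * (if s.2 then δ / 2 else -(δ / 2)) := by ring
      rw [e, abs_mul, abs_of_nonneg h3]
      calc θ * |if s.2 then δ / 2 else -(δ / 2)| ≤ 1 * δ :=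
            mul_le_mul h4 hb (abs_nonneg _) (by norm_num)
        _ = δ := one_mul _
  refine ⟨v, cface v s, h1, h1', hn, ?_, ?_⟩
  · have e1 : ((cface v s).1 : ℝ) = v.1 ∨ ((cface v s).1 : ℝ) = v.1 - 1 := by
      unfold cface
      cases s.1 <;> simp
    have := abs_le.mp hn.1
    rcases e1 with e1 | e1 <;> rw [e1, abs_le] <;> constructor <;> linarith
  · have e1 : ((cface v s).2 : ℝ) = v.2 ∨ ((cface v s).2 : ℝ) = v.2 - 1 := by
      unfold cface
      cases s.2 <;> simp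
    have := abs_le.mp hn.2
    rcases e1 with e1 | e1 <;> rw [e1, abs_le] <;> constructor <;> linarith

/-- Faces of the dual cluster are outer faces or next to an edge which is not wired. -/
theorem dclu_cases {δ : ℝ} {F : Finset Edg} {f : Vtx} (hf : f ∈ R.dclu δ F) :
    f ∈ R.outer δ ∨ ∃ e ∈ R.edges δ, e ∉ R.wired δ ∧ (f = dsrc e ∨ f = dtgt e) := by
  obtain ⟨g, hg, hr⟩ := hf
  rcases Relation.ReflTransGen.cases_tail hr with h | ⟨w, _, e, he, hc⟩
  · left; rw [h]; exact hg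
  · right
    have he2 := he.2
    rw [Set.mem_union, not_or] at he2
    refine ⟨e, Finset.mem_coe.mp he.1, he2.2, ?_⟩
    rcases hc with ⟨_, h2⟩ | ⟨h1, _⟩
    · right; exact h2.symm
    · left; exact h1.symm

/-- The geometry for small meshes. -/
theorem small_geom2 {δ : ℝ} (hδ : 0 < δ) :
    (-(R.A / δ) < R.x0 δ ∧ (R.x0 δ : ℝ) ≤ -(R.A / δ) + 1) ∧
    (R.B / δ - 1 ≤ R.x1 δ ∧ (R.x1 δ : ℝ) < R.B / δ) ∧
    (R.H / δ - 2 ≤ R.y1 δ ∧ (R.y1 δ : ℝ) < R.H / δ - 1) ∧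
    ((R.tc δ : ℝ) ≤ R.t / δ ∧ R.t / δ < R.tc δ + 1) := by
  have _ := hδ
  refine ⟨⟨?_, ?_⟩, ⟨?_, ?_⟩, ⟨?_, ?_⟩, ?_, ?_⟩
  · unfold x0; push_cast; exact Int.lt_floor_add_one _
  · unfold x0; push_cast; linarith [Int.floor_le (-(R.A / δ))]
  · unfold x1; push_cast; linarith [Int.le_ceil (R.B / δ)]
  · unfold x1; push_cast; linarith [Int.ceil_lt_add_one (R.B / δ)]
  · unfold y1; push_cast; linarith [Int.le_ceil (R.H / δ)]
  · unfold y1; push_cast; linarith [Int.ceil_lt_add_one (R.H / δ)]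
  · exact Int.floor_le _
  · exact Int.lt_floor_add_one _

/-! ### The six charts -/

theorem chart1 {δ : ℝ} {k S : ℤ} (hS : 1 ≤ S) (h1 : 1 ≤ k - S) (h2 : k + S ≤ R.x1 δ)
    (h3 : S < R.y1 δ) (h4 : R.x0 δ < 0) (h5 : R.tc δ ≤ R.x1 δ) :
    Chart k S (R.edges δ) (R.wired δ) {(0, 0)} := by
  rw [edges_eq]
  constructor
  · rintro ⟨x, y, _ | _⟩ h
    · rw [mem_RE_false] at h ⊢; omega
    · rw [mem_RE_true] at h ⊢; omega
  · rintro ⟨x, y, _ | _⟩ h hE
    · rw [mem_RE_false] at h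
      simp only [wired, Set.mem_ofPred_eq] at h ⊢
      simp at h ⊢; omega
    · rw [mem_RE_true] at h
      simp only [wired, Set.mem_ofPred_eq] at h ⊢
      simp at h ⊢; omega
  · rintro ⟨x, y, _ | _⟩ h hE
    · rw [mem_RE_false] at hE
      simp only [wired, Set.mem_ofPred_eq] at h
      simp at h; omega
    · rw [mem_RE_true] at hE
      simp only [wired, Set.mem_ofPred_eq] at h
      simp at h; omega
  · rintro o rfl
    simp only
    omega

/-- The chart of the right side. -/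
def g2 (m : ℤ) : LSym := lcomp tps (rfx m)

theorem g2_ψ (m x y : ℤ) : (g2 m).ψ (x, y) = (y, m - x) := rfl
theorem g2_φt (m x y : ℤ) : (g2 m).φ (x, y, true) = (y, m - x - 1, false) := rfl
theorem g2_φf (m x y : ℤ) : (g2 m).φ (x, y, false) = (y, m - x, true) := rfl

/-- The chart of the left side. -/
def g5 (m : ℤ) : LSym := lcomp tps (trl (-m) 0)

theorem g5_ψ (m x y : ℤ) : (g5 m).ψ (x, y) = (y + 0, x + -m) := rfl
theorem g5_φ (m x y : ℤ) (b : Bool) : (g5 m).φ (x, y, b) = (y + 0, x + -m, !b) := rfl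

theorem mem_mp_of {g : LSym} {S : Finset Edg} {e : Edg} (h : ∃ e' ∈ S, g.φ e' = e) :
    e ∈ g.mp S := by
  obtain ⟨e', h1, h2⟩ := h
  rw [LSym.mem_mp, ← h2, Equiv.symm_apply_apply]
  exact h1

theorem of_mem_mp {g : LSym} {S : Finset Edg} {e : Edg} (h : e ∈ g.mp S) :
    ∃ e' ∈ S, g.φ e' = e := by
  rw [LSym.mem_mp] at h
  exact ⟨_, h, Equiv.apply_symm_apply _ _⟩

theorem chart2 {δ : ℝ} {k S : ℤ} (hS : 1 ≤ S) (h1 : 1 ≤ k - S) (h2 : k + S < R.y1 δ)
    (h3 : S < R.x1 δ) (h4 : R.x0 δ < 0) (h5 : R.tc δ ≤ R.x1 δ) :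
    Chart k S ((g2 (R.x1 δ)).mp (R.edges δ)) ((g2 (R.x1 δ)).φ '' (R.wired δ))
      ((g2 (R.x1 δ)).ψ '' {(0, 0)}) := by
  rw [edges_eq]
  constructor
  · rintro ⟨x, y, _ | _⟩ h
    · rw [mem_RE_false] at h
      apply mem_mp_of
      refine ⟨(R.x1 δ - y - 1, x, true), ?_, ?_⟩
      · rw [mem_RE_true]; omega
      · rw [g2_φt]
        have : R.x1 δ - (R.x1 δ - y - 1) - 1 = y := by ring
        rw [this]
    · rw [mem_RE_true] at h
      apply mem_mp_of
      refine ⟨(R.x1 δ - y, x, false), ?_, ?_⟩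
      · rw [mem_RE_false]; omega
      · rw [g2_φf]; ext <;> simp
  · rintro e (h | h) hE
    · obtain ⟨⟨x, y, _ | _⟩, h6, h7⟩ := of_mem_mp h
      · rw [mem_RE_false] at h6
        rw [← h7, g2_φf]
        simp only
        omega
      · rw [mem_RE_true] at h6
        rw [← h7, g2_φt]
        simp only
        omega
    · obtain ⟨⟨x, y, _ | _⟩, h6, h7⟩ := h
      · simp only [wired, Set.mem_ofPred_eq] at h6
        rw [← h7, g2_φf]
        simp at h6 ⊢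
        omega
      · simp only [wired, Set.mem_ofPred_eq] at h6
        rw [← h7, g2_φt]
        simp at h6 ⊢
        omega
  · rintro e h hE
    obtain ⟨⟨x, y, _ | _⟩, h6, h7⟩ := h
    · simp only [wired, Set.mem_ofPred_eq] at h6
      rw [← h7, g2_φf, mem_RE_true] at hE
      simp at h6
      omega
    · simp only [wired, Set.mem_ofPred_eq] at h6
      rw [← h7, g2_φt, mem_RE_false] at hE
      simp at h6
      omega
  · rintro o ⟨o', rfl, rfl⟩
    rw [g2_ψ]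
    simp only
    omega

theorem chart3 {δ : ℝ} {k S : ℤ} (hS : 1 ≤ S) (h1 : R.tc δ ≤ k - S) (h2 : k + S ≤ R.x1 δ)
    (h3 : S < R.y1 δ) (h4 : R.x0 δ < k - S) (h5 : R.x0 δ < 0) :
    Chart k S ((rfy (R.y1 δ)).mp (R.edges δ)) ((rfy (R.y1 δ)).φ '' (R.wired δ))
      ((rfy (R.y1 δ)).ψ '' {(0, 0)}) := by
  rw [edges_eq]
  constructor
  · rintro ⟨x, y, _ | _⟩ h
    · rw [mem_RE_false] at h
      apply mem_mp_of
      refine ⟨(x, R.y1 δ - y - 1, false), ?_, ?_⟩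
      · rw [mem_RE_false]; omega
      · rw [rfy_φf]
        have : R.y1 δ - (R.y1 δ - y - 1) - 1 = y := by ring
        rw [this]
    · rw [mem_RE_true] at h
      apply mem_mp_of
      refine ⟨(x, R.y1 δ - y, true), ?_, ?_⟩
      · rw [mem_RE_true]; omega
      · rw [rfy_φt]; ext <;> simp
  · rintro e (h | h) hE
    · obtain ⟨⟨x, y, _ | _⟩, h6, h7⟩ := of_mem_mp h
      · rw [mem_RE_false] at h6
        rw [← h7, rfy_φf]
        simp only
        omega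
      · rw [mem_RE_true] at h6
        rw [← h7, rfy_φt]
        simp only
        omega
    · obtain ⟨⟨x, y, _ | _⟩, h6, h7⟩ := h
      · simp only [wired, Set.mem_ofPred_eq] at h6
        rw [← h7, rfy_φf]
        simp at h6 ⊢
        omega
      · simp only [wired, Set.mem_ofPred_eq] at h6
        rw [← h7, rfy_φt]
        simp at h6 ⊢
        omega
  · rintro e h hE
    obtain ⟨⟨x, y, _ | _⟩, h6, h7⟩ := h
    · simp only [wired, Set.mem_ofPred_eq] at h6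
      rw [← h7, rfy_φf, mem_RE_false] at hE
      simp at h6
      omega
    · simp only [wired, Set.mem_ofPred_eq] at h6
      rw [← h7, rfy_φt, mem_RE_true] at hE
      simp at h6
      omega
  · rintro o ⟨o', rfl, rfl⟩
    rw [rfy_ψ]
    simp only
    omega

/-- Random edges which are not wired. -/
noncomputable def fr (δ : ℝ) : Finset Edg := by
  classical exact (R.edges δ).filter (fun e => e ∉ R.wired δ)

theorem mem_fr {δ : ℝ} {e : Edg} : e ∈ R.fr δ ↔ e ∈ R.edges δ ∧ e ∉ R.wired δ := by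
  classical
  unfold fr
  rw [Finset.mem_filter]

theorem mem_fr_t {δ : ℝ} {x y : ℤ} : ((x, y, true) : Edg) ∈ R.fr δ ↔
    (R.x0 δ ≤ x ∧ x < R.x1 δ ∧ 0 ≤ y ∧ y ≤ R.y1 δ) ∧ ¬ (y = R.y1 δ ∧ x < R.tc δ) ∧
      ¬ (y = 0 ∧ x < 0) := by
  rw [mem_fr, edges_eq, mem_RE_true]
  simp only [wired, Set.mem_ofPred_eq]
  simp
  omega

theorem mem_fr_f {δ : ℝ} {x y : ℤ} : ((x, y, false) : Edg) ∈ R.fr δ ↔
    (R.x0 δ < x ∧ x ≤ R.x1 δ ∧ 0 ≤ y ∧ y < R.y1 δ) := by
  rw [mem_fr, edges_eq, mem_RE_false]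
  simp only [wired, Set.mem_ofPred_eq]
  simp
  omega

theorem mem_dmp_t {S : Finset Edg} {x y : ℤ} :
    ((x, y, true) : Edg) ∈ dmp S ↔ ((x + 1, y, false) : Edg) ∈ S := by
  rw [mem_dmp, dls_t]

theorem mem_dmp_f {S : Finset Edg} {x y : ℤ} :
    ((x, y, false) : Edg) ∈ dmp S ↔ ((x, y + 1, true) : Edg) ∈ S := by
  rw [mem_dmp, dls_f]

theorem outer_cases {δ : ℝ} {f : Vtx} (hf : f ∈ R.outer δ) :
    (f.2 = -1 ∧ 0 ≤ f.1 ∧ f.1 ≤ R.x1 δ) ∨ (f.1 = R.x1 δ ∧ -1 ≤ f.2 ∧ f.2 ≤ R.y1 δ) ∨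
    (f.2 = R.y1 δ ∧ R.tc δ ≤ f.1 ∧ f.1 ≤ R.x1 δ) := hf

theorem chart4 {δ : ℝ} {k S : ℤ} (hS : 1 ≤ S) (h1 : R.x0 δ < k - S) (h2 : k + S < 0)
    (h3 : S < R.y1 δ) (h4 : 0 ≤ R.x1 δ) :
    Chart k S ((trl 0 0).mp (dmp (R.fr δ))) ∅ ((trl 0 0).ψ '' (R.outer δ)) := by
  constructor
  · rintro ⟨x, y, _ | _⟩ h
    · rw [mem_RE_false] at h
      apply mem_mp_of
      refine ⟨(x, y, false), ?_, ?_⟩
      · rw [mem_dmp_f, mem_fr_t]; omega
      · rw [trl_φ]; ext <;> simp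
    · rw [mem_RE_true] at h
      apply mem_mp_of
      refine ⟨(x, y, true), ?_, ?_⟩
      · rw [mem_dmp_t, mem_fr_f]; omega
      · rw [trl_φ]; ext <;> simp
  · rintro e (h | h) hE
    · obtain ⟨⟨x, y, _ | _⟩, h6, h7⟩ := of_mem_mp h
      · rw [mem_dmp_f, mem_fr_t] at h6
        rw [← h7, trl_φ, mem_RE_false] at hE
        rw [← h7, trl_φ]
        simp only
        omega
      · rw [mem_dmp_t, mem_fr_f] at h6
        rw [← h7, trl_φ]
        simp only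
        omega
    · exact absurd h (Set.notMem_empty _)
  · intro e h
    exact absurd h (Set.notMem_empty _)
  · rintro o ⟨⟨x, y⟩, ho, rfl⟩
    have := R.outer_cases ho
    rw [trl_ψ]
    simp only at this ⊢
    omega

theorem chart5 {δ : ℝ} {k S : ℤ} (hS : 1 ≤ S) (h1 : 1 ≤ k - S) (h2 : k + S < R.y1 δ)
    (h3 : S < R.x1 δ - R.x0 δ) (h4 : 0 ≤ R.x1 δ) :
    Chart k S ((g5 (R.x0 δ)).mp (dmp (R.fr δ))) ∅ ((g5 (R.x0 δ)).ψ '' (R.outer δ)) := by
  constructor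
  · rintro ⟨x, y, _ | _⟩ h
    · rw [mem_RE_false] at h
      apply mem_mp_of
      refine ⟨(y + R.x0 δ, x, true), ?_, ?_⟩
      · rw [mem_dmp_t, mem_fr_f]; omega
      · rw [g5_φ]; ext <;> simp
    · rw [mem_RE_true] at h
      apply mem_mp_of
      refine ⟨(y + R.x0 δ, x, false), ?_, ?_⟩
      · rw [mem_dmp_f, mem_fr_t]; omega
      · rw [g5_φ]; ext <;> simp
  · rintro e (h | h) hE
    · obtain ⟨⟨x, y, _ | _⟩, h6, h7⟩ := of_mem_mp h
      · rw [mem_dmp_f, mem_fr_t] at h6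
        rw [← h7, g5_φ]
        simp only
        omega
      · rw [mem_dmp_t, mem_fr_f] at h6
        rw [← h7, g5_φ]
        simp only
        omega
    · exact absurd h (Set.notMem_empty _)
  · intro e h
    exact absurd h (Set.notMem_empty _)
  · rintro o ⟨⟨x, y⟩, ho, rfl⟩
    have := R.outer_cases ho
    rw [g5_ψ]
    simp only at this ⊢
    omega

theorem chart6 {δ : ℝ} {k S : ℤ} (hS : 1 ≤ S) (h1 : R.x0 δ < k - S) (h2 : k + S < R.tc δ)
    (h3 : S < R.y1 δ) (h4 : R.tc δ ≤ R.x1 δ) :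
    Chart k S ((rfy (R.y1 δ - 1)).mp (dmp (R.fr δ))) ∅
      ((rfy (R.y1 δ - 1)).ψ '' (R.outer δ)) := by
  constructor
  · rintro ⟨x, y, _ | _⟩ h
    · rw [mem_RE_false] at h
      apply mem_mp_of
      refine ⟨(x, R.y1 δ - 1 - y - 1, false), ?_, ?_⟩
      · rw [mem_dmp_f, mem_fr_t]; omega
      · rw [rfy_φf]
        have : R.y1 δ - 1 - (R.y1 δ - 1 - y - 1) - 1 = y := by ring
        rw [this]
    · rw [mem_RE_true] at h
      apply mem_mp_of
      refine ⟨(x, R.y1 δ - 1 - y, true), ?_, ?_⟩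
      · rw [mem_dmp_t, mem_fr_f]; omega
      · rw [rfy_φt]; ext <;> simp
  · rintro e (h | h) hE
    · obtain ⟨⟨x, y, _ | _⟩, h6, h7⟩ := of_mem_mp h
      · rw [mem_dmp_f, mem_fr_t] at h6
        rw [← h7, rfy_φf, mem_RE_false] at hE
        rw [← h7, rfy_φf]
        simp only
        omega
      · rw [mem_dmp_t, mem_fr_f] at h6
        rw [← h7, rfy_φt]
        simp only
        omega
    · exact absurd h (Set.notMem_empty _)
  · intro e h
    exact absurd h (Set.notMem_empty _)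
  · rintro o ⟨⟨x, y⟩, ho, rfl⟩
    have := R.outer_cases ho
    rw [rfy_ψ]
    simp only at this ⊢
    omega

/-- Position of the faces of the dual cluster. -/
theorem dclu_bounds {δ : ℝ} {F : Finset Edg} {f : Vtx} (hf : f ∈ R.dclu δ F)
    (h1 : R.x0 δ < 0) (h2 : R.x0 δ ≤ R.tc δ) (h3 : R.tc δ ≤ R.x1 δ) (h4 : 0 ≤ R.x1 δ)
    (h5 : 0 < R.y1 δ) :
    (0 ≤ f.2 ∨ 0 ≤ f.1) ∧ R.x0 δ ≤ f.1 ∧ (f.2 < R.y1 δ ∨ R.tc δ ≤ f.1) := by
  rcases R.dclu_cases hf with h | ⟨⟨x, y, _ | _⟩, h, h', h''⟩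
  · have := R.outer_cases h
    omega
  · have h7 := R.mem_fr_f.mp (R.mem_fr.mpr ⟨h, h'⟩)
    rcases h'' with rfl | rfl
    · rw [dsrc_false]; simp only; omega
    · rw [dtgt_mk]; simp only; omega
  · have h7 := R.mem_fr_t.mp (R.mem_fr.mpr ⟨h, h'⟩)
    rcases h'' with rfl | rfl
    · rw [dsrc_true]; simp only; omega
    · rw [dtgt_mk]; simp only; omega

end Rect

/-- The six pieces of the boundary. -/
inductive Pc
  | br | rt | tr | bl | lt | tl

/-- First end of the piece, in its own coordinate. -/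
noncomputable def Pc.lo (R : Rect) : Pc → ℝ
  | br => 0 | rt => 0 | tr => R.t | bl => -R.A | lt => 0 | tl => -R.A

/-- Second end of the piece. -/
noncomputable def Pc.hi (R : Rect) : Pc → ℝ
  | br => R.B | rt => R.H | tr => R.B | bl => 0 | lt => R.H | tl => R.t

/-- Parametrisation of the piece. -/
noncomputable def Pc.φ (R : Rect) : Pc → ℝ → ℂ
  | br => fun x => ⟨x, 0⟩ | rt => fun y => ⟨R.B, y⟩ | tr => fun x => ⟨x, R.H⟩
  | bl => fun x => ⟨x, 0⟩ | lt => fun y => ⟨-R.A, y⟩ | tl => fun x => ⟨x, R.H⟩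

theorem hit_pieces : ∃ C : ℝ, 0 < C ∧ ∀ (R : Rect) (P : Pc) (ξ ρ ε δ : ℝ) (_ : 0 < δ),
    32 * δ ≤ ε → 8 * ε ≤ ρ → ρ ≤ R.L0 → δ ≤ R.A + R.t → ρ ≤ ξ - P.lo R → ρ ≤ P.hi R - ξ →
    Q (R.edges δ) (fun F => (R.path δ F ∩ BU (P.φ R ξ) ε).Nonempty) ≤
      C * (ε / ρ) ^ ((1:ℝ)/3) := by
  obtain ⟨C0, hC0, H0⟩ := hit_chart
  obtain ⟨C1, hC1, H1⟩ := hit_sym
  obtain ⟨C2, hC2, H2⟩ := hit_dual
  refine ⟨3 * (C0 + C1 + C2), by positivity, ?_⟩
  intro R P ξ ρ ε δ hδ h32 h8 hL hAt hlo hhi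
  obtain ⟨k, r, S, n1, n2, n3, n4, n5, n6, n7, n8, n9, n10, n11⟩ := numer (ξ := ξ) hδ h32 h8
  have hε : 0 < ε := by linarith
  have hρ : 0 < ρ := by linarith
  have hpow : 0 ≤ (ε / ρ) ^ ((1:ℝ)/3) := by positivity
  -- conclusion from a bound by `C * (th r / th S)`
  have fin : ∀ C q : ℝ, 0 < C → C ≤ C0 + C1 + C2 → q ≤ C * (th r / th S) →
      q ≤ 3 * (C0 + C1 + C2) * (ε / ρ) ^ ((1:ℝ)/3) := by
    intro C q hC hCm hq
    calc q ≤ C * (th r / th S) := hq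
      _ ≤ C * (3 * (ε / ρ) ^ ((1:ℝ)/3)) := mul_le_mul_of_nonneg_left n3 hC.le
      _ = 3 * C * (ε / ρ) ^ ((1:ℝ)/3) := by ring
      _ ≤ _ := by
          apply mul_le_mul_of_nonneg_right _ hpow
          linarith
  have hAδ : ρ / δ ≤ R.A / δ := div_le_div_of_nonneg_right (hL.trans R.L0_A) hδ.le
  have hBδ : ρ / δ ≤ R.B / δ := div_le_div_of_nonneg_right (hL.trans R.L0_B) hδ.le
  have hHδ : ρ / δ ≤ R.H / δ := div_le_div_of_nonneg_right (hL.trans R.L0_H) hδ.le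
  obtain ⟨⟨a1, a2⟩, ⟨b1, b2⟩, ⟨c1, c2⟩, ⟨d1, d2⟩⟩ := R.small_geom2 hδ
  obtain ⟨g1, g2', g3, g4⟩ := R.small_geom hδ (by linarith)
  have hS1 : 1 ≤ S := n1.trans n2
  have hSr : (1:ℝ) ≤ S := by exact_mod_cast hS1
  have hatδ : -(R.A / δ) + 1 ≤ R.t / δ := by
    rw [le_div_iff₀ hδ]
    have : (-(R.A / δ) + 1) * δ = -R.A + δ := by field_simp
    linarith
  have htx : R.x0 δ ≤ R.tc δ := by
    unfold Rect.tc
    rw [Int.le_floor]
    linarith
  have hy1S : S < R.y1 δ := by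
    have : (S : ℝ) < R.y1 δ := by linarith
    exact_mod_cast this
  have hx1S : S < R.x1 δ := by
    have : (S : ℝ) < R.x1 δ := by linarith
    exact_mod_cast this
  -- real versions of the distances
  have mA : δ * (R.A / δ) = R.A := by field_simp
  have mB : δ * (R.B / δ) = R.B := by field_simp
  have mH : δ * (R.H / δ) = R.H := by field_simp
  have mt : δ * (R.t / δ) = R.t := by field_simp
  have x0δ : -R.A < δ * R.x0 δ := by
    have := mul_lt_mul_of_pos_left a1 hδ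
    linarith
  have x1δ : δ * R.x1 δ < R.B := by
    have := mul_lt_mul_of_pos_left b2 hδ
    linarith
  have y1δ : δ * R.y1 δ < R.H - δ := by
    have := mul_lt_mul_of_pos_left c2 hδ
    have e : δ * (R.H / δ - 1) = R.H - δ := by rw [mul_sub, mH, mul_one]
    linarith
  have tcδ : R.t - δ < δ * R.tc δ := by
    have := mul_lt_mul_of_pos_left d2 hδ
    have e : δ * ((R.tc δ : ℝ) + 1) = δ * R.tc δ + δ := by ring
    linarith
  cases P with
  | br =>
    simp only [Pc.lo, Pc.hi] at hlo hhi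
    have e1 := n10 R.B hhi
    have e2 := n11 0 hlo
    rw [zero_div] at e2
    have i1 : k + S ≤ R.x1 δ := by
      have : ((k + S : ℤ) : ℝ) ≤ R.x1 δ := by push_cast; linarith
      exact_mod_cast this
    have i2 : 1 ≤ k - S := by
      have : (1:ℝ) ≤ ((k - S : ℤ) : ℝ) := by push_cast; linarith
      exact_mod_cast this
    have hc := R.chart1 hS1 i2 i1 hy1S g1 g3
    refine fin C0 _ hC0 (by linarith) (le_trans (Q_mono ?_) (H0 _ _ _ k r S hc n1 n2))
    rintro F hF ⟨z, hz1, hz2, hz3⟩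
    obtain ⟨v, f, hv, hf, ⟨hv1, hv2⟩, ⟨hf1, hf2⟩⟩ := R.path_near2 hδ hz1
    have hvv := R.mem_verts'.mp (R.clu_verts g1 g2' g3 g4 hF hv)
    simp only [Pc.φ] at hz2 hz3
    rw [abs_le] at hv1 hv2
    rw [abs_lt] at hz2 hz3
    refine ⟨(0, 0), rfl, v, ⟨n4 v.1 ?_, hvv.2.1, n5 v.2 ?_⟩, hv⟩
    · rw [abs_le]; constructor <;> linarith
    · linarith
  | rt =>
    simp only [Pc.lo, Pc.hi] at hlo hhi
    have e1 := n10 R.H hhi
    have e2 := n11 0 hlo
    rw [zero_div] at e2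
    have i1 : k + S < R.y1 δ := by
      have : ((k + S : ℤ) : ℝ) < R.y1 δ := by push_cast; linarith
      exact_mod_cast this
    have i2 : 1 ≤ k - S := by
      have : (1:ℝ) ≤ ((k - S : ℤ) : ℝ) := by push_cast; linarith
      exact_mod_cast this
    have hc := R.chart2 hS1 i2 i1 hx1S g1 g3
    refine fin C1 _ hC1 (by linarith) (le_trans (Q_mono ?_) (H1 _ _ _ _ k r S hc n1 n2))
    rintro F hF ⟨z, hz1, hz2, hz3⟩
    obtain ⟨v, f, hv, hf, ⟨hv1, hv2⟩, ⟨hf1, hf2⟩⟩ := R.path_near2 hδ hz1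
    have hvv := R.mem_verts'.mp (R.clu_verts g1 g2' g3 g4 hF hv)
    simp only [Pc.φ] at hz2 hz3
    rw [abs_le] at hv1 hv2
    rw [abs_lt] at hz2 hz3
    refine ⟨(0, 0), rfl, v, ?_, hv⟩
    rw [show (Rect.g2 (R.x1 δ)).ψ v = (v.2, R.x1 δ - v.1) from rfl]
    refine ⟨n4 v.2 ?_, ?_, n5 (R.x1 δ - v.1) ?_⟩
    · rw [abs_le]; constructor <;> linarith
    · simp only; omega
    · push_cast
      rw [mul_sub]
      linarith
  | tr =>
    simp only [Pc.lo, Pc.hi] at hlo hhi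
    have e1 := n10 R.B hhi
    have e2 := n11 R.t hlo
    have i1 : k + S ≤ R.x1 δ := by
      have : ((k + S : ℤ) : ℝ) ≤ R.x1 δ := by push_cast; linarith
      exact_mod_cast this
    have i2 : R.tc δ ≤ k - S := by
      have : (R.tc δ : ℝ) ≤ ((k - S : ℤ) : ℝ) := by push_cast; linarith
      exact_mod_cast this
    have i3 : R.x0 δ < k - S := by
      have : (R.x0 δ : ℝ) < ((k - S : ℤ) : ℝ) := by push_cast; linarith
      exact_mod_cast this
    have hc := R.chart3 hS1 i2 i1 hy1S i3 g1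
    refine fin C1 _ hC1 (by linarith) (le_trans (Q_mono ?_) (H1 _ _ _ _ k r S hc n1 n2))
    rintro F hF ⟨z, hz1, hz2, hz3⟩
    obtain ⟨v, f, hv, hf, ⟨hv1, hv2⟩, ⟨hf1, hf2⟩⟩ := R.path_near2 hδ hz1
    have hvv := R.mem_verts'.mp (R.clu_verts g1 g2' g3 g4 hF hv)
    simp only [Pc.φ] at hz2 hz3
    rw [abs_le] at hv1 hv2
    rw [abs_lt] at hz2 hz3
    refine ⟨(0, 0), rfl, v, ?_, hv⟩
    rw [show (rfy (R.y1 δ)).ψ v = (v.1, R.y1 δ - v.2) from rfl]
    refine ⟨n4 v.1 ?_, ?_, n5 (R.y1 δ - v.2) ?_⟩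
    · rw [abs_le]; constructor <;> linarith
    · simp only; omega
    · push_cast
      rw [mul_sub]
      linarith
  | bl =>
    simp only [Pc.lo, Pc.hi] at hlo hhi
    have e1 := n10 0 hhi
    have e2 := n11 (-R.A) hlo
    rw [zero_div] at e1
    rw [neg_div] at e2
    have i1 : k + S < 0 := by
      have : ((k + S : ℤ) : ℝ) < 0 := by push_cast; linarith
      exact_mod_cast this
    have i3 : R.x0 δ < k - S := by
      have : (R.x0 δ : ℝ) < ((k - S : ℤ) : ℝ) := by push_cast; linarith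
      exact_mod_cast this
    have hc := R.chart4 hS1 i3 i1 hy1S g4
    refine fin C2 _ hC2 (by linarith) (le_trans (Q_mono ?_)
      (H2 _ _ _ _ _ k r S (fun e => R.mem_fr) hc n1 n2))
    rintro F hF ⟨z, hz1, hz2, hz3⟩
    obtain ⟨v, f, hv, hf, ⟨hv1, hv2⟩, ⟨hf1, hf2⟩⟩ := R.path_near2 hδ hz1
    have hff := R.dclu_bounds hf g1 htx g3 g4 g2'
    simp only [Pc.φ] at hz2 hz3
    rw [abs_le] at hf1 hf2
    rw [abs_lt] at hz2 hz3
    obtain ⟨o, ho, hof⟩ := hf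
    refine ⟨o, ho, f, ?_, hof⟩
    rw [show (trl 0 0).ψ f = (f.1 + 0, f.2 + 0) from rfl, add_zero, add_zero]
    refine ⟨n4 f.1 ?_, ?_, n5 f.2 ?_⟩
    · rw [abs_le]; constructor <;> linarith
    · simp only
      rcases hff.1 with h | h
      · exact h
      · exfalso
        have h' : (0:ℝ) ≤ f.1 := by exact_mod_cast h
        have : 0 ≤ δ * (f.1 : ℝ) := by positivity
        linarith
    · linarith
  | lt =>
    simp only [Pc.lo, Pc.hi] at hlo hhi
    have e1 := n10 R.H hhi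
    have e2 := n11 0 hlo
    rw [zero_div] at e2
    have i1 : k + S < R.y1 δ := by
      have : ((k + S : ℤ) : ℝ) < R.y1 δ := by push_cast; linarith
      exact_mod_cast this
    have i2 : 1 ≤ k - S := by
      have : (1:ℝ) ≤ ((k - S : ℤ) : ℝ) := by push_cast; linarith
      exact_mod_cast this
    have hc := R.chart5 hS1 i2 i1 (by omega) g4
    refine fin C2 _ hC2 (by linarith) (le_trans (Q_mono ?_)
      (H2 _ _ _ _ _ k r S (fun e => R.mem_fr) hc n1 n2))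
    rintro F hF ⟨z, hz1, hz2, hz3⟩
    obtain ⟨v, f, hv, hf, ⟨hv1, hv2⟩, ⟨hf1, hf2⟩⟩ := R.path_near2 hδ hz1
    have hff := R.dclu_bounds hf g1 htx g3 g4 g2'
    simp only [Pc.φ] at hz2 hz3
    rw [abs_le] at hf1 hf2
    rw [abs_lt] at hz2 hz3
    obtain ⟨o, ho, hof⟩ := hf
    refine ⟨o, ho, f, ?_, hof⟩
    rw [show (Rect.g5 (R.x0 δ)).ψ f = (f.2 + 0, f.1 + -R.x0 δ) from rfl, add_zero]
    refine ⟨n4 f.2 ?_, ?_, n5 (f.1 + -R.x0 δ) ?_⟩
    · rw [abs_le]; constructor <;> linarith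
    · simp only; omega
    · push_cast
      rw [mul_add, mul_neg]
      linarith
  | tl =>
    simp only [Pc.lo, Pc.hi] at hlo hhi
    have e1 := n10 R.t hhi
    have e2 := n11 (-R.A) hlo
    rw [neg_div] at e2
    have i1 : k + S < R.tc δ := by
      have : ((k + S : ℤ) : ℝ) < R.tc δ := by push_cast; linarith
      exact_mod_cast this
    have i3 : R.x0 δ < k - S := by
      have : (R.x0 δ : ℝ) < ((k - S : ℤ) : ℝ) := by push_cast; linarith
      exact_mod_cast this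
    have hc := R.chart6 hS1 i3 i1 hy1S g3
    refine fin C2 _ hC2 (by linarith) (le_trans (Q_mono ?_)
      (H2 _ _ _ _ _ k r S (fun e => R.mem_fr) hc n1 n2))
    rintro F hF ⟨z, hz1, hz2, hz3⟩
    obtain ⟨v, f, hv, hf, ⟨hv1, hv2⟩, ⟨hf1, hf2⟩⟩ := R.path_near2 hδ hz1
    have hff := R.dclu_bounds hf g1 htx g3 g4 g2'
    simp only [Pc.φ] at hz2 hz3
    rw [abs_le] at hf1 hf2
    rw [abs_lt] at hz2 hz3
    obtain ⟨o, ho, hof⟩ := hf
    refine ⟨o, ho, f, ?_, hof⟩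
    rw [show (rfy (R.y1 δ - 1)).ψ f = (f.1, R.y1 δ - 1 - f.2) from rfl]
    refine ⟨n4 f.1 ?_, ?_, n5 (R.y1 δ - 1 - f.2) ?_⟩
    · rw [abs_le]; constructor <;> linarith
    · simp only
      rcases hff.2.2 with h | h
      · omega
      · exfalso
        have h' : (R.tc δ : ℝ) ≤ f.1 := by exact_mod_cast h
        have := mul_le_mul_of_nonneg_left h' hδ.le
        linarith
    · push_cast
      have e3 : δ * ((R.y1 δ : ℝ) - 1 - f.2) = δ * R.y1 δ - δ - δ * f.2 := by ring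
      rw [e3]
      linarith

end H934E
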