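import Pool.Agent.H934R2.Expl.Scale

/-!
On the good event at scale `u`, the visited boundary vertices cannot be covered cheaply; and the
good events at different scales are independent.
-/

set_option maxHeartbeats 400000

namespace H934E

open H974 H973 Finset

/-- `X` is covered by finitely many intervals of lengths at least `δ` with
`∑ length ^ s < c`. -/
def Cheap (s δ c : ℝ) (X : Set ℝ) : Prop :=
  ∃ (n : ℕ) (x L : Fin n → ℝ), (∀ i, δ ≤ L i) ∧ (∀ y ∈ X, ∃ i, x i ≤ y ∧ y ≤ x i + L i) ∧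
    ∑ i, (L i) ^ s < c

theorem Cheap.mono_set {s δ c : ℝ} {X Y : Set ℝ} (h : X ⊆ Y) (hY : Cheap s δ c Y) :
    Cheap s δ c X := by
  obtain ⟨n, x, L, h1, h2, h3⟩ := hY
  exact ⟨n, x, L, h1, fun y hy => h2 y (h hy), h3⟩

theorem Cheap.mono_c {s δ c c' : ℝ} {X : Set ℝ} (h : c ≤ c') (hX : Cheap s δ c X) :
    Cheap s δ c' X := by
  obtain ⟨n, x, L, h1, h2, h3⟩ := hX
  exact ⟨n, x, L, h1, h2, h3.trans_le h⟩

open Classical in
/-- The set of `k ∈ [7 u, 9 u]` with an arm. -/
noncomputable def KK (u : ℤ) (F : Finset Edg) : Finset ℤ := (JJ u).filter (fun k => Ar k (5 * u) F)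

theorem mem_KK {u k : ℤ} {F : Finset Edg} : k ∈ KK u F ↔ k ∈ JJ u ∧ Ar k (5 * u) F := by
  classical
  unfold KK
  rw [Finset.mem_filter]

theorem NN_card (u : ℤ) (F : Finset Edg) : NN u F = ((KK u F).card : ℝ) := by
  classical
  unfold NN KK
  rw [Finset.card_filter]
  push_cast
  apply Finset.sum_congr rfl
  intro k _
  by_cases h : Ar k (5 * u) F
  · rw [ind_of h, if_pos h]
  · rw [ind_not_of h, if_neg h]

theorem EN_KK (s : ℝ) (u : ℤ) (F : Finset Edg) :
    EN s u F = ∑ k ∈ KK u F, ∑ l ∈ (KK u F).erase k, dp s k l := by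
  classical
  unfold EN
  have h1 : ∑ k ∈ JJ u, ∑ l ∈ (JJ u).erase k, dp s k l * ind (Ar k (5 * u) F ∧ Ar l (5 * u) F) =
      ∑ k ∈ JJ u, (if Ar k (5 * u) F then ∑ l ∈ (KK u F).erase k, dp s k l else 0) := by
    apply Finset.sum_congr rfl
    intro k _
    split_ifs with hk
    · have e1 : (KK u F).erase k = ((JJ u).erase k).filter (fun l => Ar l (5 * u) F) := by
        ext l
        unfold KK
        simp only [Finset.mem_erase, Finset.mem_filter]
        tauto
      rw [e1, Finset.sum_filter]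
      apply Finset.sum_congr rfl
      intro l _
      by_cases hl : Ar l (5 * u) F
      · rw [ind_of ⟨hk, hl⟩, if_pos hl, mul_one]
      · rw [ind_not_of (fun h => hl h.2), if_neg hl, mul_zero]
    · apply Finset.sum_eq_zero
      intro l _
      rw [ind_not_of (fun h => hk h.1), mul_zero]
  rw [h1, ← Finset.sum_filter]
  rfl

/-- Mass distribution principle for finite sets. -/
theorem content_lower {s a b U : ℝ} (hs : 0 ≤ s) (hs1 : s ≤ 2/3) (ha : 0 < a) (hb : 0 < b)
    (hU : 1 ≤ U) {K : Finset ℤ} (h1 : a * U ^ ((2:ℝ)/3) ≤ K.card)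
    (h2 : ∑ k ∈ K, ∑ l ∈ K.erase k, dp s k l ≤ b * U ^ (4/3 - s)) :
    ¬ Cheap s 1 (a / 2 / (1 + 2 * b / a) * U ^ s) {y : ℝ | ∃ k ∈ K, y = (k : ℝ)} := by
  classical
  rintro ⟨n, x, L, hL, hcov, hsum⟩
  have hU0 : 0 < U := by linarith
  set pot : ℤ → ℝ := fun k => ∑ l ∈ K.erase k, dp s k l with hpot
  set τ : ℝ := 2 * b / a * U ^ (2/3 - s) with hτ
  have hUs : 0 < U ^ (2/3 - s) := Real.rpow_pos_of_pos hU0 _
  have hUs1 : 1 ≤ U ^ (2/3 - s) := Real.one_le_rpow hU (by linarith)
  have hτ0 : 0 < τ := by positivity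
  have hU23 : 0 < U ^ ((2:ℝ)/3) := Real.rpow_pos_of_pos hU0 _
  set bad := K.filter (fun k => τ < pot k) with hbad
  set good := K.filter (fun k => ¬ τ < pot k) with hgood
  have hcard : (good.card : ℝ) + bad.card = K.card := by
    have := Finset.card_filter_add_card_filter_not (s := K) (fun k => τ < pot k)
    rw [← this]
    push_cast
    ring
  have hbad1 : τ * bad.card ≤ b * U ^ (4/3 - s) := by
    calc τ * bad.card = ∑ _k ∈ bad, τ := by rw [Finset.sum_const, nsmul_eq_mul]; ring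
      _ ≤ ∑ k ∈ bad, pot k := Finset.sum_le_sum (fun k hk => (Finset.mem_filter.mp hk).2.le)
      _ ≤ ∑ k ∈ K, pot k := Finset.sum_le_sum_of_subset_of_nonneg (Finset.filter_subset _ _)
          (fun k _ _ => Finset.sum_nonneg (fun l _ => dp_nonneg _ _ _))
      _ ≤ _ := h2
  have hbad2 : (bad.card : ℝ) ≤ a / 2 * U ^ ((2:ℝ)/3) := by
    have e1 : b * U ^ (4/3 - s) = τ * (a / 2 * U ^ ((2:ℝ)/3)) := by
      have : U ^ (4/3 - s) = U ^ (2/3 - s) * U ^ ((2:ℝ)/3) := by
        rw [← Real.rpow_add hU0]; congr 1; ring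
      rw [this, hτ]
      field_simp
    rw [e1] at hbad1
    exact le_of_mul_le_mul_left hbad1 hτ0
  have hgood1 : a / 2 * U ^ ((2:ℝ)/3) ≤ good.card := by linarith
  -- each interval contains few good points
  have hint : ∀ i : Fin n, ((good.filter (fun k : ℤ => x i ≤ (k : ℝ) ∧ (k : ℝ) ≤ x i + L i)).card : ℝ) ≤
      (1 + τ) * (L i) ^ s := by
    intro i
    have hLi := hL i
    have hL0 : 0 < L i := by linarith
    have hLs : 0 < (L i) ^ s := Real.rpow_pos_of_pos hL0 _
    have hLs1 : 1 ≤ (L i) ^ s := Real.one_le_rpow hLi hs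
    set G := good.filter (fun k : ℤ => x i ≤ (k : ℝ) ∧ (k : ℝ) ≤ x i + L i) with hG
    rcases G.eq_empty_or_nonempty with h0 | ⟨k, hk⟩
    · rw [h0, Finset.card_empty, Nat.cast_zero]; positivity
    · have hkG := hk
      rw [hG, Finset.mem_filter, hgood, Finset.mem_filter] at hk
      obtain ⟨⟨hkK, hkp⟩, hk1, hk2⟩ := hk
      push Not at hkp
      have h3 : ((G.erase k).card : ℝ) * (L i) ^ (-s) ≤ pot k := by
        calc ((G.erase k).card : ℝ) * (L i) ^ (-s) = ∑ _l ∈ G.erase k, (L i) ^ (-s) := by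
              rw [Finset.sum_const, nsmul_eq_mul]
          _ ≤ ∑ l ∈ G.erase k, dp s k l := by
              apply Finset.sum_le_sum
              intro l hl
              rw [Finset.mem_erase, hG, Finset.mem_filter] at hl
              unfold dp
              have h4 : (0:ℝ) < |(k : ℝ) - l| := by
                rw [abs_pos, sub_ne_zero]
                intro h
                exact hl.1 (by exact_mod_cast h.symm)
              apply Real.rpow_le_rpow_of_nonpos h4 _ (by linarith)
              rw [abs_le]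
              constructor <;> linarith [hl.2.2.1, hl.2.2.2]
          _ ≤ pot k := by
              apply Finset.sum_le_sum_of_subset_of_nonneg
              · apply Finset.erase_subset_erase
                exact (Finset.filter_subset _ _).trans (Finset.filter_subset _ _)
              · exact fun l _ _ => dp_nonneg _ _ _
      have h5 : (G.card : ℝ) = (G.erase k).card + 1 := by
        rw [← Finset.card_erase_add_one hkG]; push_cast; ring
      rw [h5]
      have h6 : ((G.erase k).card : ℝ) ≤ τ * (L i) ^ s := by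
        have h7 := h3.trans hkp
        rw [Real.rpow_neg hL0.le] at h7
        rw [← div_eq_mul_inv, div_le_iff₀ hLs] at h7
        exact h7
      nlinarith
  have htot : (good.card : ℝ) ≤ ∑ i, (1 + τ) * (L i) ^ s := by
    have h3 : good ⊆ Finset.univ.biUnion
        (fun i : Fin n => good.filter (fun k : ℤ => x i ≤ (k : ℝ) ∧ (k : ℝ) ≤ x i + L i)) := by
      intro k hk
      have hkK : k ∈ K := (Finset.mem_filter.mp hk).1
      obtain ⟨i, hi1, hi2⟩ := hcov (k : ℝ) ⟨k, hkK, rfl⟩
      rw [Finset.mem_biUnion]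
      exact ⟨i, Finset.mem_univ _, Finset.mem_filter.mpr ⟨hk, hi1, hi2⟩⟩
    calc (good.card : ℝ) ≤ ((Finset.univ.biUnion
          (fun i : Fin n => good.filter (fun k : ℤ => x i ≤ (k : ℝ) ∧ (k : ℝ) ≤ x i + L i))).card : ℝ) := by
          exact_mod_cast Finset.card_le_card h3
      _ ≤ ((∑ i : Fin n, (good.filter (fun k : ℤ => x i ≤ (k : ℝ) ∧ (k : ℝ) ≤ x i + L i)).card : ℕ) : ℝ) := by
          exact_mod_cast Finset.card_biUnion_le
      _ = ∑ i : Fin n, ((good.filter (fun k : ℤ => x i ≤ (k : ℝ) ∧ (k : ℝ) ≤ x i + L i)).card : ℝ) := by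
          push_cast; rfl
      _ ≤ _ := Finset.sum_le_sum (fun i _ => hint i)
  rw [← Finset.mul_sum] at htot
  have h8 : 1 + τ ≤ (1 + 2 * b / a) * U ^ (2/3 - s) := by
    rw [hτ]; nlinarith
  have hS0 : 0 ≤ ∑ i, (L i) ^ s :=
    Finset.sum_nonneg (fun i _ => Real.rpow_nonneg (by linarith [hL i]) _)
  have h9 : a / 2 * U ^ ((2:ℝ)/3) ≤ (1 + 2 * b / a) * U ^ (2/3 - s) * ∑ i, (L i) ^ s :=
    hgood1.trans (htot.trans (mul_le_mul_of_nonneg_right h8 hS0))
  have h10 : (1 + 2 * b / a) * U ^ (2/3 - s) * ∑ i, (L i) ^ s <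
      (1 + 2 * b / a) * U ^ (2/3 - s) * (a / 2 / (1 + 2 * b / a) * U ^ s) :=
    mul_lt_mul_of_pos_left hsum (by positivity)
  have h11 : (1 + 2 * b / a) * U ^ (2/3 - s) * (a / 2 / (1 + 2 * b / a) * U ^ s) =
      a / 2 * U ^ ((2:ℝ)/3) := by
    have e1 : U ^ ((2:ℝ)/3) = U ^ (2/3 - s) * U ^ s := by
      rw [← Real.rpow_add hU0]; congr 1; ring
    rw [e1]
    have : (0:ℝ) < 1 + 2 * b / a := by positivity
    field_simp
  rw [h11] at h10
  linarith

/-- Positions of the visited boundary vertices `(k, 0)` with `0 ≤ k ≤ m`. -/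
def Vis (A : Set Edg) (m : ℤ) (F : Finset Edg) : Set ℝ :=
  {y : ℝ | ∃ k : ℤ, 0 ≤ k ∧ k ≤ m ∧ y = (k : ℝ) ∧ W A F (k, 0)}

/-- On the good event, the visited vertices cannot be covered cheaply. -/
theorem Gd_content {a b s : ℝ} (hs : 0 ≤ s) (hs1 : s ≤ 2/3) (ha : 0 < a) (hb : 0 < b) {u M m : ℤ}
    {T : Finset Vtx} {A : Set Edg} (h : Dob M T A) (hu : 1 ≤ u) (hM : 30 * u ≤ M)
    (hm : 9 * u ≤ m) {F : Finset Edg} (hG : Gd a b s u (F ∩ SU u)) :
    ¬ Cheap s 1 (a / 2 / (1 + 2 * b / a) * (u : ℝ) ^ s) (Vis A m F) := by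
  obtain ⟨⟨h1, h2⟩, h3⟩ := hG
  rw [NN_card] at h1
  rw [EN_KK] at h3
  have h4 := content_lower (U := (u : ℝ)) hs hs1 ha hb (by exact_mod_cast hu) h1 h3
  intro hc
  apply h4
  apply hc.mono_set
  rintro y ⟨k, hk, rfl⟩
  rw [mem_KK] at hk
  have hk' := mem_JJ.mp hk.1
  refine ⟨k, by omega, by omega, rfl, ?_⟩
  exact cr_W h hu hM (h2.mono Finset.inter_subset_left) hk.1 (hk.2.mono Finset.inter_subset_left)

/-- On the good event, there are many visited vertices. -/
theorem Gd_count {a b s : ℝ} {u M m : ℤ}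
    {T : Finset Vtx} {A : Set Edg} (h : Dob M T A) (hu : 1 ≤ u) (hM : 30 * u ≤ M)
    (hm : 9 * u ≤ m) {F : Finset Edg} (hG : Gd a b s u (F ∩ SU u)) :
    a * (u : ℝ) ^ ((2:ℝ)/3) ≤ ∑ k ∈ Finset.Icc 0 m, ind (W A F (k, 0)) := by
  obtain ⟨⟨h1, h2⟩, _⟩ := hG
  refine h1.trans ?_
  unfold NN
  calc ∑ k ∈ JJ u, ind (Ar k (5 * u) (F ∩ SU u)) ≤ ∑ k ∈ JJ u, ind (W A F (k, 0)) := by
        apply Finset.sum_le_sum
        intro k hk
        apply ind_mono
        intro h5
        exact cr_W h hu hM (h2.mono Finset.inter_subset_left) hk (h5.mono Finset.inter_subset_left)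
    _ ≤ _ := by
        apply Finset.sum_le_sum_of_subset_of_nonneg
        · intro k hk
          rw [mem_JJ] at hk
          rw [Finset.mem_Icc]
          omega
        · exact fun _ _ _ => ind_nonneg _

/-! ### Independence of scales -/

/-- The scales. -/
def us (u : ℤ) (j : ℕ) : ℤ := 16 ^ j * u

theorem us_succ (u : ℤ) (j : ℕ) : us u (j + 1) = 16 * us u j := by unfold us; ring

theorem us_pos {u : ℤ} (hu : 1 ≤ u) (j : ℕ) : 1 ≤ us u j := by
  unfold us
  have : (1:ℤ) ≤ 16 ^ j := one_le_pow₀ (by norm_num)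
  nlinarith

theorem us_mono {u : ℤ} (hu : 1 ≤ u) {i j : ℕ} (h : i ≤ j) : us u i ≤ us u j := by
  unfold us
  have : (16:ℤ) ^ i ≤ 16 ^ j := pow_le_pow_right₀ (by norm_num) h
  nlinarith

theorem SU_sub {u : ℤ} {R : ℤ} (h : 30 * u ≤ R) : SU u ⊆ ES (HK 0 R) := by
  apply ES_mono
  intro y hy
  rw [mem_HA] at hy
  rw [mem_HK]
  omega

theorem SU_disj {u R : ℤ} (h : R < 2 * u) : Disjoint (ES (HK 0 R)) (SU u) := by
  rw [Finset.disjoint_left]
  intro e h1 h2
  unfold SU at h2
  rw [mem_ES, mem_HK] at h1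
  rw [mem_ES, mem_HA] at h2
  omega

/-- None of the scales `0, …, J` is good. -/
def NG (a b s : ℝ) (u : ℤ) (J : ℕ) (F : Finset Edg) : Prop :=
  ∀ j ≤ J, ¬ Gd a b s (us u j) (F ∩ SU (us u j))

theorem pr_NG {a b s p : ℝ} (hp : p ≤ 1)
    (h : ∀ u : ℤ, 1 ≤ u → ∀ S : Finset Edg, SU u ⊆ S → p ≤ Q S (Gd a b s u)) {u : ℤ} (hu : 1 ≤ u)
    (J : ℕ) : ∀ S : Finset Edg, ES (HK 0 (30 * us u J)) ⊆ S →
      Q S (NG a b s u J) ≤ (1 - p) ^ (J + 1) := by
  have one : ∀ j : ℕ, Q (SU (us u j)) (fun F => ¬ Gd a b s (us u j) F) ≤ 1 - p := by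
    intro j
    unfold Q
    rw [Pr_not]
    have := h (us u j) (us_pos hu j) (SU (us u j)) (Finset.Subset.refl _)
    unfold Q at this
    linarith
  induction J with
  | zero =>
    intro S hS
    have h1 : Q S (NG a b s u 0) = Q (SU (us u 0)) (fun F => ¬ Gd a b s (us u 0) F) := by
      have := Pr_restrict (S := S) (S' := SU (us u 0)) ((SU_sub le_rfl).trans hS)
        (fun F => ¬ Gd a b s (us u 0) F)
      unfold Q
      rw [← this]
      apply Pr_congr
      intro F _
      unfold NG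
      constructor
      · intro h2; exact h2 0 le_rfl
      · intro h2 j hj
        have : j = 0 := by omega
        subst this
        exact h2
    rw [h1]
    simpa using one 0
  | succ J ih =>
    intro S hS
    have hdis : Disjoint (ES (HK 0 (30 * us u J))) (SU (us u (J + 1))) := by
      apply SU_disj
      rw [us_succ]
      have := us_pos hu J
      omega
    have hs1 : ES (HK 0 (30 * us u J)) ⊆ S := by
      refine Finset.Subset.trans ?_ hS
      apply ES_mono
      intro y hy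
      rw [mem_HK] at hy ⊢
      rw [us_succ]
      have := us_pos hu J
      omega
    have hs2 : SU (us u (J + 1)) ⊆ S := (SU_sub le_rfl).trans hS
    have h1 : Q S (NG a b s u (J + 1)) = Q (ES (HK 0 (30 * us u J))) (NG a b s u J) *
        Q (SU (us u (J + 1))) (fun F => ¬ Gd a b s (us u (J + 1)) F) := by
      have := Pr_indep' (U := S) hs1 hs2 hdis (NG a b s u J)
        (fun F => ¬ Gd a b s (us u (J + 1)) F)
      unfold Q
      rw [← this]
      apply Pr_congr
      intro F _
      unfold NG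
      constructor
      · intro h2
        refine ⟨?_, h2 (J + 1) le_rfl⟩
        intro j hj
        have h3 := h2 j (by omega)
        have e1 : F ∩ ES (HK 0 (30 * us u J)) ∩ SU (us u j) = F ∩ SU (us u j) := by
          rw [Finset.inter_assoc, Finset.inter_eq_right.mpr (SU_sub (by
            have := us_mono hu hj
            omega))]
        rw [e1]
        exact h3
      · rintro ⟨h2, h3⟩ j hj
        rcases Nat.lt_or_ge J j with h4 | h4
        · have : j = J + 1 := by omega
          subst this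
          exact h3
        · have h5 := h2 j h4
          have e1 : F ∩ ES (HK 0 (30 * us u J)) ∩ SU (us u j) = F ∩ SU (us u j) := by
            rw [Finset.inter_assoc, Finset.inter_eq_right.mpr (SU_sub (by
              have := us_mono hu h4
              omega))]
          rw [e1] at h5
          exact h5
    rw [h1, pow_succ]
    exact mul_le_mul (ih _ (Finset.Subset.refl _)) (one (J + 1)) (Q_nonneg _ _)
      (pow_nonneg (by linarith) _)

end H934E
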