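import Pool.Agent.H934R2.Expl.Mom

/-!
The good event at one scale.
-/

set_option maxHeartbeats 400000

namespace H934E

open H974 H973 Finset

/-- Crossings which connect the arms from `[7 u, 9 u]` to the wired half-line. -/
def Cr (u : ℤ) (F : Finset Edg) : Prop :=
  HC (8 * u) u (3 * u) F ∧ TBc (7 * u) (9 * u) 0 (30 * u) F ∧
    LRc (-(30 * u)) (30 * u) (10 * u) (30 * u) F ∧ TBc (-(30 * u)) (-(10 * u)) 0 (30 * u) F

theorem Cr.mono {u : ℤ} {F G : Finset Edg} (h : F ⊆ G) (hF : Cr u F) : Cr u G :=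
  ⟨hF.1.mono h, hF.2.1.mono h, hF.2.2.1.mono h, hF.2.2.2.mono h⟩

/-- On the crossing event, all arms from `[7 u, 9 u]` are connected to the wired half-line. -/
theorem cr_W {u M : ℤ} {T : Finset Vtx} {A : Set Edg} (h : Dob M T A) (hu : 1 ≤ u)
    (hM : 30 * u ≤ M) {F : Finset Edg} (hC : Cr u F) {k : ℤ} (hk : k ∈ JJ u)
    (hA : Ar k (5 * u) F) : W A F (k, 0) := by
  obtain ⟨c1, ⟨x, x', hx, hx', hP⟩, ⟨t, t', ht, ht', hT⟩, ⟨l, l', hl, hl', hL⟩⟩ := hC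
  rw [mem_JJ] at hk
  obtain ⟨l1, _, _, hz⟩ := hc_meet (by omega) (by omega) c1
  -- the arm meets the half-circuit
  obtain ⟨y, hy, hy2⟩ := hA
  obtain ⟨w, hw1, _, hw2⟩ := exitG (k := 8 * u) (R := 3 * u) (by omega)
    (G := ↑F ∩ ↑(RE (k - 5 * u) (k + 5 * u) 0 (5 * u)))
    (fun e he _ => RE_nonneg (Finset.mem_coe.mp he.2))
    (u := (k, 0)) (v := y) (by unfold inR; simp only; omega) hy2 (by omega)
  have m1 := hz (k, 0) w (by unfold inR; simp only; omega) hw1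
    (hw2.mono (by rintro e ⟨⟨he1, _⟩, he2⟩; exact ⟨he1, he2⟩))
  -- the vertical crossing meets the half-circuit
  have hP' := hP.mono (Set.inter_subset_inter_right (↑F)
    (by exact_mod_cast TBE_subset_RE : (↑(TBE (7 * u) (9 * u) 0 (30 * u)) : Set Edg) ⊆ _))
  have hT' := hT.mono (Set.inter_subset_inter_right (↑F)
    (by exact_mod_cast LRE_subset_RE :
      (↑(LRE (-(30 * u)) (30 * u) (10 * u) (30 * u)) : Set Edg) ⊆ _))
  have hL' := hL.mono (Set.inter_subset_inter_right (↑F)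
    (by exact_mod_cast TBE_subset_RE :
      (↑(TBE (-(30 * u)) (-(10 * u)) 0 (30 * u)) : Set Edg) ⊆ _))
  obtain ⟨w', hw1', _, hw2'⟩ := exitG (k := 8 * u) (R := 3 * u) (by omega)
    (G := ↑F ∩ ↑(RE (7 * u) (9 * u) 0 (30 * u)))
    (fun e he _ => RE_nonneg (Finset.mem_coe.mp he.2))
    (u := (x, 0)) (v := (x', 30 * u)) (by unfold inR; simp only; omega) hP'
    (by simp only; omega)
  have m2 := hz (x, 0) w' (by unfold inR; simp only; omega) hw1'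
    (hw2'.mono (by rintro e ⟨⟨he1, _⟩, he2⟩; exact ⟨he1, he2⟩))
  have m3 : Reach (↑F ∩ ↑(RE (-(30 * u)) (30 * u) 0 (30 * u))) (-(30 * u), t) (x, 0) :=
    cross_meet (a := 7 * u) (b := 9 * u) (c := 10 * u) (d := 30 * u) (by omega) (by omega)
      (by omega) (by omega) (by omega) le_rfl hT' (by simp only; omega) (by simp only; omega) hP'
      (by simp only; omega) le_rfl
  have m4 : Reach (↑F ∩ ↑(RE (-(30 * u)) (30 * u) 0 (30 * u))) (-(30 * u), t) (l, 0) :=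
    cross_meet (a := -(30 * u)) (b := -(10 * u)) (c := 10 * u) (d := 30 * u) le_rfl (by omega)
      (by omega) (by omega) (by omega) le_rfl hT' le_rfl (by simp only; omega) hL'
      (by simp only; omega) le_rfl
  have m5 := h.line (l := l) (by omega) (by omega)
  have s1 : ∀ X : Set Edg, (↑F : Set Edg) ∩ X ⊆ ↑F ∪ A :=
    fun X => Set.inter_subset_left.trans Set.subset_union_left
  exact (m5.mono Set.subset_union_right).trans ((m4.symm.mono (s1 _)).trans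
    ((m3.mono (s1 _)).trans ((m2.mono (s1 _)).trans (m1.symm.mono (s1 _)))))

/-- The half-annulus used by the event at scale `u`. -/
noncomputable def HA (u : ℤ) : Finset Vtx :=
  (HK 0 (30 * u)).filter (fun y => y.1 ≤ -(2 * u) ∨ 2 * u ≤ y.1 ∨ 2 * u ≤ y.2)

theorem mem_HA {u : ℤ} {y : Vtx} : y ∈ HA u ↔
    ((-(30 * u) ≤ y.1 ∧ y.1 ≤ 30 * u) ∧ (0 ≤ y.2 ∧ y.2 ≤ 30 * u)) ∧
      (y.1 ≤ -(2 * u) ∨ 2 * u ≤ y.1 ∨ 2 * u ≤ y.2) := by
  unfold HA
  rw [Finset.mem_filter, mem_HK]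
  simp only [zero_sub, zero_add]

/-- Edges of the half-annulus. -/
noncomputable def SU (u : ℤ) : Finset Edg := ES (HA u)

theorem RE_SU {u a b c d : ℤ} (h : ∀ x y : ℤ, a ≤ x → x ≤ b → c ≤ y → y ≤ d →
    ((x, y) : Vtx) ∈ HA u) : RE a b c d ⊆ SU u := RE_sub_ES h

theorem SU_arms {u : ℤ} (hu : 1 ≤ u) : RE (2 * u) (14 * u) 0 (5 * u) ⊆ SU u :=
  RE_SU (fun x y h1 h2 h3 h4 => by rw [mem_HA]; simp only; omega)

/-- Probability of the crossings. -/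
noncomputable def kc : ℝ := kp * (dlt * ((1/2 : ℝ)^47 * (1/2 : ℝ)^47))

theorem kc_pos : 0 < kc := mul_pos kp_pos (mul_pos dlt_pos (by positivity))

theorem pr_Cr {u : ℤ} (hu : 1 ≤ u) {S : Finset Edg} (hS : SU u ⊆ S) : kc ≤ Q S (Cr u) := by
  have s1 : RE (8 * u - 3 * u) (8 * u + 3 * u) 0 (3 * u) ⊆ S :=
    (RE_SU (fun x y h1 h2 h3 h4 => by rw [mem_HA]; simp only; omega)).trans hS
  have s2 : TBE (7 * u) (9 * u) 0 (30 * u) ⊆ S :=
    TBE_subset_RE.trans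
      ((RE_SU (fun x y h1 h2 h3 h4 => by rw [mem_HA]; simp only; omega)).trans hS)
  have s3 : LRE (-(30 * u)) (30 * u) (10 * u) (30 * u) ⊆ S :=
    LRE_subset_RE.trans
      ((RE_SU (fun x y h1 h2 h3 h4 => by rw [mem_HA]; simp only; omega)).trans hS)
  have s4 : TBE (-(30 * u)) (-(10 * u)) 0 (30 * u) ⊆ S :=
    TBE_subset_RE.trans
      ((RE_SU (fun x y h1 h2 h3 h4 => by rw [mem_HA]; simp only; omega)).trans hS)
  have a1 := pr_HC (k := 8 * u) (r := u) (by omega) s1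
  have a2 : dlt ≤ Q S (TBc (7 * u) (9 * u) 0 (30 * u)) := by
    unfold Q; rw [pr_TBc (1/2) s2]; exact rswL (m := u) (by omega) (by omega) (by omega) (by omega)
  have a3 : (1/2 : ℝ)^47 ≤ Q S (LRc (-(30 * u)) (30 * u) (10 * u) (30 * u)) := by
    unfold Q; rw [pr_LRc (1/2) s3]
    exact rsw (n := 10 * u) (by omega) (by omega) (by omega) (by omega)
  have a4 : (1/2 : ℝ)^47 ≤ Q S (TBc (-(30 * u)) (-(10 * u)) 0 (30 * u)) := by
    unfold Q; rw [pr_TBc (1/2) s4]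
    exact rsw (n := 10 * u) (by omega) (by omega) (by omega) (by omega)
  have i1 := hmul (LRc_incr S _ _ _ _) (TBc_incr S _ _ _ _) (by positivity) a3 a4
  have c1 : IncrE S (fun F => LRc (-(30 * u)) (30 * u) (10 * u) (30 * u) F ∧
      TBc (-(30 * u)) (-(10 * u)) 0 (30 * u) F) :=
    fun F G hFG _ hF => ⟨hF.1.mono hFG, hF.2.mono hFG⟩
  have i2 := hmul (TBc_incr S (7 * u) (9 * u) 0 (30 * u)) c1 (by positivity) a2 i1
  have c2 : IncrE S (fun F => TBc (7 * u) (9 * u) 0 (30 * u) F ∧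
      (LRc (-(30 * u)) (30 * u) (10 * u) (30 * u) F ∧
      TBc (-(30 * u)) (-(10 * u)) 0 (30 * u) F)) :=
    fun F G hFG _ hF => ⟨hF.1.mono hFG, hF.2.1.mono hFG, hF.2.2.mono hFG⟩
  exact hmul (HC_incr S _ _ _) c2 (by have := dlt_pos; positivity) a1 i2

/-- The good event at scale `u`. -/
def Gd (a b s : ℝ) (u : ℤ) (F : Finset Edg) : Prop :=
  (a * (u : ℝ) ^ ((2:ℝ)/3) ≤ NN u F ∧ Cr u F) ∧ EN s u F ≤ b * (u : ℝ) ^ (4/3 - s)

theorem NN_mono {u : ℤ} {F G : Finset Edg} (h : F ⊆ G) : NN u F ≤ NN u G :=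
  Finset.sum_le_sum (fun _ _ => ind_mono (fun h1 => h1.mono h))

theorem pr_NN : ∃ a p : ℝ, 0 < a ∧ 0 < p ∧ ∀ u : ℤ, 1 ≤ u → ∀ S : Finset Edg, SU u ⊆ S →
    p ≤ Q S (fun F => a * (u : ℝ) ^ ((2:ℝ)/3) ≤ NN u F) := by
  obtain ⟨c, C, hc, hC, h⟩ := pa_bounds
  obtain ⟨C0, hC0, h0⟩ := E_EN (s := 0) le_rfl (by norm_num)
  refine ⟨c / 5, (2 * c / 5) ^ 2 / (4 * (3 * C + C0)), by positivity, by positivity, ?_⟩
  intro u hu S hS
  have hu1 : (1:ℝ) ≤ u := by exact_mod_cast hu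
  have hu0 : (0:ℝ) < u := by linarith
  have ht := th_pos hu
  have hS' := (SU_arms hu).trans hS
  have e1 := E_NN hu hS'
  have e2 := h0 u hu S hS'
  rw [sub_zero] at e2
  have hU : (u : ℝ) ^ ((2:ℝ)/3) * th u = u := by
    unfold th
    rw [← Real.rpow_add hu0]
    norm_num
  have hU2 : (u : ℝ) ^ ((2:ℝ)/3) * (u : ℝ) ^ ((2:ℝ)/3) = (u : ℝ) ^ ((4:ℝ)/3) := by
    rw [← Real.rpow_add hu0]; norm_num
  have hUp : 0 < (u : ℝ) ^ ((2:ℝ)/3) := Real.rpow_pos_of_pos hu0 _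
  have hU1 : 1 ≤ (u : ℝ) ^ ((2:ℝ)/3) := Real.one_le_rpow hu1 (by norm_num)
  have t5 := th_mul (c := 5) (n := u) (by norm_num) (by omega)
  push_cast at t5
  have t6 : th u ≤ th (5 * u) := th_mono (by omega) (by omega)
  have t7 := th_pos (n := 5 * u) (by omega)
  have b1 := (h (5 * u) (by omega)).1
  have b2 := (h (5 * u) (by omega)).2
  change c ≤ th (5 * u) * pa (5 * u) at b1
  change th (5 * u) * pa (5 * u) ≤ C at b2
  have hp := pa_nonneg (5 * u)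
  -- lower bound for the mean
  have l1 : 2 * c / 5 * (u : ℝ) ^ ((2:ℝ)/3) ≤ EE S (NN u) := by
    rw [e1]
    have i1 : c ≤ 5 * th u * pa (5 * u) := b1.trans (mul_le_mul_of_nonneg_right t5 hp)
    have i2 : 2 * c / 5 * (u : ℝ) ^ ((2:ℝ)/3) ≤
        2 * (5 * th u * pa (5 * u)) / 5 * (u : ℝ) ^ ((2:ℝ)/3) := by
      apply mul_le_mul_of_nonneg_right _ hUp.le
      linarith
    have i3 : 2 * (5 * th u * pa (5 * u)) / 5 * (u : ℝ) ^ ((2:ℝ)/3) = 2 * u * pa (5 * u) := by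
      rw [show 2 * (5 * th u * pa (5 * u)) / 5 * (u : ℝ) ^ ((2:ℝ)/3) =
        2 * ((u : ℝ) ^ ((2:ℝ)/3) * th u) * pa (5 * u) by ring, hU]
    rw [i3] at i2
    nlinarith
  -- upper bound for the second moment
  have l2 : EE S (fun F => NN u F * NN u F) ≤ (3 * C + C0) * (u : ℝ) ^ ((4:ℝ)/3) := by
    have i1 : EE S (fun F => NN u F * NN u F) = EE S (NN u) + EE S (EN 0 u) := by
      unfold EE
      rw [← Ex_add]
      apply Ex_congr
      intro F _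
      exact NN_sq u F
    rw [i1, e1]
    have i2 : th u * pa (5 * u) ≤ C := (mul_le_mul_of_nonneg_right t6 hp).trans b2
    have i3 : (2 * (u : ℝ) + 1) * pa (5 * u) ≤ 3 * C * (u : ℝ) ^ ((2:ℝ)/3) := by
      calc (2 * (u : ℝ) + 1) * pa (5 * u) ≤ (3 * u) * pa (5 * u) :=
            mul_le_mul_of_nonneg_right (by linarith) hp
        _ = 3 * ((u : ℝ) ^ ((2:ℝ)/3) * (th u * pa (5 * u))) := by
            nth_rewrite 1 [← hU]; ring
        _ ≤ 3 * ((u : ℝ) ^ ((2:ℝ)/3) * C) := by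
            apply mul_le_mul_of_nonneg_left _ (by norm_num)
            exact mul_le_mul_of_nonneg_left i2 hUp.le
        _ = _ := by ring
    have i4 : (u : ℝ) ^ ((2:ℝ)/3) ≤ (u : ℝ) ^ ((4:ℝ)/3) := by
      rw [← hU2]; nlinarith
    nlinarith
  have k := paley (S := S) (f := NN u) (fun F _ => NN_nonneg u F)
    (m := 2 * c / 5 * (u : ℝ) ^ ((2:ℝ)/3)) (V := (3 * C + C0) * (u : ℝ) ^ ((4:ℝ)/3))
    (by positivity) (by positivity) l1 l2
  have e3 : (2 * c / 5 * (u : ℝ) ^ ((2:ℝ)/3)) ^ 2 / (4 * ((3 * C + C0) * (u : ℝ) ^ ((4:ℝ)/3))) =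
      (2 * c / 5) ^ 2 / (4 * (3 * C + C0)) := by
    rw [← hU2]
    field_simp
  rw [e3] at k
  refine k.trans (le_of_eq ?_)
  apply Pr_congr
  intro F _
  have e4 : 2 * c / 5 * (u : ℝ) ^ ((2:ℝ)/3) / 2 = c / 5 * (u : ℝ) ^ ((2:ℝ)/3) := by ring
  rw [e4]

/-- The good event has probability bounded below. -/
theorem pr_Gd : ∃ a p : ℝ, 0 < a ∧ 0 < p ∧ ∀ s : ℝ, 0 ≤ s → s < 2/3 → ∃ b : ℝ, 0 < b ∧
    ∀ u : ℤ, 1 ≤ u → ∀ S : Finset Edg, SU u ⊆ S → p ≤ Q S (Gd a b s u) := by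
  obtain ⟨a, p, ha, hp, h⟩ := pr_NN
  have hk := kc_pos
  refine ⟨a, p * kc / 2, ha, by positivity, ?_⟩
  intro s hs hs1
  obtain ⟨C, hC, hE⟩ := E_EN hs hs1
  refine ⟨2 * C / (p * kc), by positivity, ?_⟩
  intro u hu S hS
  have hu1 : (1:ℝ) ≤ u := by exact_mod_cast hu
  have hu0 : (0:ℝ) < u := by linarith
  have hU : 0 < (u : ℝ) ^ (4/3 - s) := Real.rpow_pos_of_pos hu0 _
  have i1 := hmul (S := S) (A := fun F => a * (u : ℝ) ^ ((2:ℝ)/3) ≤ NN u F) (B := Cr u)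
    (fun F G hFG _ hF => le_trans hF (NN_mono hFG)) (fun F G hFG _ hF => hF.mono hFG) hk.le
    (h u hu S hS) (pr_Cr hu hS)
  have i2 := markov (S := S) (f := EN s u) (fun F _ => EN_nonneg s u F)
    (t := 2 * C / (p * kc) * (u : ℝ) ^ (4/3 - s)) (by positivity)
  have i3 : EE S (EN s u) / (2 * C / (p * kc) * (u : ℝ) ^ (4/3 - s)) ≤ p * kc / 2 := by
    rw [div_le_iff₀ (by positivity)]
    refine (hE u hu S ((SU_arms hu).trans hS)).trans (le_of_eq ?_)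
    field_simp
  have i4 : Q S (fun F => (a * (u : ℝ) ^ ((2:ℝ)/3) ≤ NN u F) ∧ Cr u F) ≤
      Q S (Gd a (2 * C / (p * kc)) s u) +
      Q S (fun F => 2 * C / (p * kc) * (u : ℝ) ^ (4/3 - s) ≤ EN s u F) := by
    refine le_trans ?_ (Pr_or_le okhalf S (Gd a (2 * C / (p * kc)) s u) _)
    apply Q_mono
    intro F _ hF
    by_cases h5 : EN s u F ≤ 2 * C / (p * kc) * (u : ℝ) ^ (4/3 - s)
    · exact Or.inl ⟨hF, h5⟩
    · exact Or.inr (le_of_not_ge h5)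
  linarith

end H934E
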