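import Pool.Agent.H934R2.Expl.Box

/-!
Dobrushin domains with a flat boundary near the end point `(0, 0)`, and visits of boundary
vertices by the wired cluster.
-/

set_option maxHeartbeats 400000

namespace H934E

open H974 H973 Finset

/-- The wired cluster: everything connected to `(0, 0)` by edges of `F` and of the wired arc. -/
def W (A : Set Edg) (F : Finset Edg) (v : Vtx) : Prop := Reach (↑F ∪ A) (0, 0) v

theorem W.mono {A : Set Edg} {F G : Finset Edg} (h : F ⊆ G) {v : Vtx} (hF : W A F v) :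
    W A G v := Reach.mono (Set.union_subset_union_left _ (by exact_mod_cast h)) hF

theorem W_incr (S : Finset Edg) (A : Set Edg) (v : Vtx) : IncrE S (fun F => W A F v) :=
  fun _ _ h _ hF => W.mono h hF

/-- `T` is flat around `(k, 0)` up to distance `R` and there are no wired edges there. -/
structure Free (k R : ℤ) (T : Finset Vtx) (A : Set Edg) : Prop where
  flat : ∀ v ∈ BX (k, 0) R, (v ∈ T ↔ 0 ≤ v.2)
  free : ∀ e ∈ A, e ∉ ES (BX (k, 0) R)

/-- `T` is flat around `(0, 0)` up to distance `M`, and the wired edges there are the edges of the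
negative half-line. -/
structure Dob (M : ℤ) (T : Finset Vtx) (A : Set Edg) : Prop where
  flat : ∀ v ∈ BX (0, 0) M, (v ∈ T ↔ 0 ≤ v.2)
  wired : ∀ x : ℤ, -M ≤ x → x < 0 → ((x, 0, true) : Edg) ∈ A
  free : ∀ e ∈ A, e ∈ ES (BX (0, 0) M) → e.2.1 = 0 ∧ e.2.2 = true ∧ e.1 < 0

theorem RE_sub {k R : ℤ} {T : Finset Vtx} (hT : ∀ v ∈ BX (k, 0) R, (v ∈ T ↔ 0 ≤ v.2)) :
    RE (k - R) (k + R) 0 R ⊆ ES T := by
  apply RE_sub_ES
  intro x y h1 h2 h3 h4
  exact (hT (x, y) (by rw [mem_BX]; simp only; omega)).mpr h3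

theorem Dob.toFree {M : ℤ} {T : Finset Vtx} {A : Set Edg} (h : Dob M T A) {k R : ℤ}
    (hR : R ≤ k) (hk : k + R ≤ M) : Free k R T A := by
  constructor
  · intro v hv
    apply h.flat
    rw [mem_BX] at hv ⊢
    simp only at hv ⊢
    omega
  · intro e he hE
    have hE2 : e ∈ ES (BX (0, 0) M) := by
      rw [mem_ES, mem_BX, mem_BX] at hE ⊢
      simp only at hE ⊢
      omega
    obtain ⟨h1, h2, h3⟩ := h.free e he hE2
    rw [mem_ES, mem_BX] at hE
    have : (src e).1 = e.1 := rfl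
    simp only at hE
    omega

/-- The wired cluster reaches the half-box of radius `r` around `(k, 0)`. -/
def WB (A : Set Edg) (k r : ℤ) (F : Finset Edg) : Prop :=
  ∃ u : Vtx, inR (k - r) (k + r) 0 r u ∧ W A F u

theorem WB_BAr {k r R : ℤ} {T : Finset Vtx} {A : Set Edg} (h : Free k R T A) (hR : 1 ≤ R)
    (hr : r ≤ R) (hk : R ≤ k) {F : Finset Edg} (hF : F ⊆ ES T) (hW : WB A k r F) :
    BAr k r R F := by
  obtain ⟨u, hu, hr'⟩ := hW
  have hA : ∀ e ∈ (↑F ∪ A : Set Edg), e ∈ RE (k - R) (k + R) (-R) R → e ∈ F ∧ 0 ≤ e.2.1 := by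
    rintro e he hE
    have hends := mem_RE_ends hE
    unfold inR at hends
    have hE2 : e ∈ ES (BX (k, 0) R) := by
      rw [mem_ES, mem_BX, mem_BX]; simp only; omega
    rcases he with he | he
    · refine ⟨Finset.mem_coe.mp he, ?_⟩
      have := (mem_ES.mp (hF (Finset.mem_coe.mp he))).1
      have h2 := (h.flat _ (mem_ES.mp hE2).1).mp this
      exact h2
    · exact absurd hE2 (h.free e he)
  obtain ⟨w, hw1, _, hw2⟩ := exitG (k := k) hR (G := (↑F ∪ A : Set Edg))
    (fun e he hE => (hA e he hE).2) (u := u) (v := (0, 0)) (by unfold inR at hu ⊢; omega)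
    (Reach.symm hr') (by simp only; omega)
  refine ⟨u, w, hu, hw1, hw2.mono ?_⟩
  rintro e ⟨he1, he2⟩
  refine ⟨?_, he2⟩
  have he3 : e ∈ RE (k - R) (k + R) (-R) R := by
    rw [Finset.mem_coe] at he2
    exact RE_subset le_rfl le_rfl (by omega) le_rfl he2
  exact Finset.mem_coe.mpr (hA e he1 he3).1

theorem W_Ar {k R : ℤ} {T : Finset Vtx} {A : Set Edg} (h : Free k R T A) (hR : 1 ≤ R)
    (hk : R ≤ k) {F : Finset Edg} (hF : F ⊆ ES T) (hW : W A F (k, 0)) : Ar k R F := by
  have hA : ∀ e ∈ (↑F ∪ A : Set Edg), e ∈ RE (k - R) (k + R) (-R) R → e ∈ F ∧ 0 ≤ e.2.1 := by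
    rintro e he hE
    have hends := mem_RE_ends hE
    unfold inR at hends
    have hE2 : e ∈ ES (BX (k, 0) R) := by
      rw [mem_ES, mem_BX, mem_BX]; simp only; omega
    rcases he with he | he
    · refine ⟨Finset.mem_coe.mp he, ?_⟩
      have := (mem_ES.mp (hF (Finset.mem_coe.mp he))).1
      have h2 := (h.flat _ (mem_ES.mp hE2).1).mp this
      exact h2
    · exact absurd hE2 (h.free e he)
  obtain ⟨w, hw1, _, hw2⟩ := exitG (k := k) hR (G := (↑F ∪ A : Set Edg))
    (fun e he hE => (hA e he hE).2) (u := (k, 0)) (v := (0, 0))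
    (by unfold inR; simp only; omega) (Reach.symm hW) (by simp only; omega)
  refine ⟨w, hw1, hw2.mono ?_⟩
  rintro e ⟨he1, he2⟩
  refine ⟨?_, he2⟩
  have he3 : e ∈ RE (k - R) (k + R) (-R) R := by
    rw [Finset.mem_coe] at he2
    exact RE_subset le_rfl le_rfl (by omega) le_rfl he2
  exact Finset.mem_coe.mpr (hA e he1 he3).1

/-- The wired half-line. -/
theorem wired_line {M : ℤ} {A : Set Edg} (h : ∀ x : ℤ, -M ≤ x → x < 0 → ((x, 0, true) : Edg) ∈ A)
    (n : ℕ) (hn : (n : ℤ) ≤ M) : Reach A (-(n : ℤ), 0) (0, 0) := by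
  induction n with
  | zero => exact Reach.refl _ _
  | succ n ih =>
    push_cast at hn ⊢
    refine Reach.trans (Adj.reach ⟨(-(n + 1 : ℤ), 0, true), h _ (by omega) (by omega),
      Or.inl ⟨rfl, ?_⟩⟩) (ih (by omega))
    rw [tgt_true]
    ext
    · simp only; ring
    · rfl

theorem Dob.line {M : ℤ} {T : Finset Vtx} {A : Set Edg} (h : Dob M T A) {l : ℤ} (h1 : -M ≤ l)
    (h2 : l ≤ 0) : Reach A (0, 0) (l, 0) := by
  obtain ⟨n, hn⟩ := Int.eq_ofNat_of_zero_le (show 0 ≤ -l by omega)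
  have e : l = -(n : ℤ) := by omega
  rw [e]
  exact (wired_line h.wired n (by omega)).symm

/-- Lower gluing: an arm and a half-circuit ending at the wired half-line. -/
theorem ar_W {k M : ℤ} {T : Finset Vtx} {A : Set Edg} (h : Dob M T A) (hk : 1 ≤ k)
    (hM : 4 * k ≤ M) {F : Finset Edg} (h1 : Ar k (3 * k) F) (h2 : HC k k (3 * k) F) :
    W A F (k, 0) := by
  obtain ⟨l, hl1, hl2, hz⟩ := hc_meet (by omega) (by omega) h2
  obtain ⟨y, hy, hy2⟩ := h1
  have m1 := hz (k, 0) y (by unfold inR; simp only; omega) hy hy2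
  have m2 := h.line (l := l) (by omega) (by omega)
  exact (m2.mono Set.subset_union_right).trans
    (m1.symm.mono (Set.inter_subset_left.trans Set.subset_union_left))

/-- A boundary vertex at distance `k` from the end point is visited with probability of order
`k ^ (-1 / 3)`. -/
theorem visit_bounds : ∃ c C : ℝ, 0 < c ∧ 0 < C ∧ ∀ (M : ℤ) (T : Finset Vtx) (A : Set Edg),
    Dob M T A → ∀ k : ℤ, 1 ≤ k → 4 * k ≤ M →
    c ≤ th k * Q (ES T) (fun F => W A F (k, 0)) ∧
    th k * Q (ES T) (fun F => W A F (k, 0)) ≤ C := by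
  obtain ⟨c, C, hc, hC, h⟩ := pa_bounds
  have hkp := kp_pos
  refine ⟨kp * c / 3, C, by positivity, hC, ?_⟩
  intro M T A hD k hk hM
  have ht := th_pos hk
  have hS : RE (k - 3 * k) (k + 3 * k) 0 (3 * k) ⊆ ES T := by
    have h0 : RE (0 - M) (0 + M) 0 M ⊆ ES T := RE_sub hD.flat
    exact (RE_subset (by omega) (by omega) le_rfl (by omega)).trans h0
  constructor
  · have e1 := pr_Ar (k := k) (n := 3 * k) (by omega) hS
    have e2 := pr_HC (k := k) (r := k) (by omega) hS
    have i1 := hmul (Ar_incr (ES T) k (3 * k)) (HC_incr (ES T) k k (3 * k)) hkp.le e1.ge e2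
    have i2 : Q (ES T) (fun F => Ar k (3 * k) F ∧ HC k k (3 * k) F) ≤
        Q (ES T) (fun F => W A F (k, 0)) :=
      Q_mono (fun F _ hF => ar_W hD hk hM hF.1 hF.2)
    have b1 := (h (3 * k) (by omega)).1
    change c ≤ th (3 * k) * pa (3 * k) at b1
    have t3 := th_mul (c := 3) (n := k) (by norm_num) (by omega)
    push_cast at t3
    have i3 := i1.trans i2
    have hp := pa_nonneg (3 * k)
    have i4 : c ≤ 3 * th k * pa (3 * k) := b1.trans (mul_le_mul_of_nonneg_right t3 hp)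
    calc kp * c / 3 ≤ kp * (3 * th k * pa (3 * k)) / 3 := by
          apply div_le_div_of_nonneg_right _ (by norm_num)
          exact mul_le_mul_of_nonneg_left i4 hkp.le
      _ = th k * (pa (3 * k) * kp) := by ring
      _ ≤ _ := mul_le_mul_of_nonneg_left i3 ht.le
  · have hF := hD.toFree (k := k) (R := k) le_rfl (by omega)
    have i1 : Q (ES T) (fun F => W A F (k, 0)) ≤ Q (ES T) (Ar k k) :=
      Q_mono (fun F hF' hF2 => W_Ar hF hk le_rfl hF' hF2)
    have e1 := pr_Ar (k := k) (n := k) hk (RE_sub hF.flat)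
    rw [e1] at i1
    have b2 := (h k hk).2
    change th k * pa k ≤ C at b2
    exact (mul_le_mul_of_nonneg_left i1 ht.le).trans b2

/-- Boxes are reached with probability at most `C (r / R) ^ (1 / 3)`. -/
theorem hit_le : ∃ C : ℝ, 0 < C ∧ ∀ (T : Finset Vtx) (A : Set Edg) (k r R : ℤ),
    Free k R T A → 1 ≤ r → r ≤ R → R ≤ k → Q (ES T) (WB A k r) ≤ C * (th r / th R) := by
  obtain ⟨C, hC, h⟩ := BAr_le
  refine ⟨C, hC, ?_⟩
  intro T A k r R hF hr hrR hR
  refine le_trans ?_ (h k r R hr hrR (ES T) (RE_sub hF.flat))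
  exact Q_mono (fun F hF' hF2 => WB_BAr hF (by omega) hrR hR hF' hF2)

/-- Boxes are reached with probability at least `c (r / k) ^ (1 / 3)`. -/
theorem hit_ge : ∃ c : ℝ, 0 < c ∧ ∀ (M : ℤ) (T : Finset Vtx) (A : Set Edg),
    Dob M T A → ∀ k r : ℤ, 1 ≤ r → r ≤ k → 4 * k ≤ M →
    c * (th r / th k) ≤ Q (ES T) (WB A k r) := by
  obtain ⟨c, C, hc, hC, h⟩ := pa_bounds
  obtain ⟨c', C', hc', hC', h'⟩ := visit_bounds
  refine ⟨c' / C, by positivity, ?_⟩
  intro M T A hD k r hr hrk hM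
  have ht := th_pos (hr.trans hrk)
  have htr := th_pos hr
  have hF := hD.toFree (k := k) (R := r) hrk (by omega)
  have b1 := (h' M T A hD k (hr.trans hrk) hM).1
  have b2 := (h r hr).2
  change th r * pa r ≤ C at b2
  have hS : RE (k - r) (k + r) 0 r ⊆ ES T := RE_sub hF.flat
  set S1 := RE (k - r) (k + r) 0 r with hS1
  set E2 : Finset Edg → Prop := fun G => ∃ w ∈ HK k r, Reach (↑G ∪ (A \ ↑(ES (HK k r)))) w (0, 0)
    with hE2
  have key : Q (ES T) (fun F => W A F (k, 0)) ≤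
      Q (ES T) (fun F => Ar k r (F ∩ S1) ∧ E2 (F ∩ (ES T \ S1))) := by
    apply Q_mono
    intro F hF' hW
    refine ⟨(Ar_local (Finset.Subset.refl _)).mp (W_Ar hF hr hrk hF' hW), ?_⟩
    obtain ⟨w, hw, hw2⟩ := last_exit (G := (↑F ∪ A : Set Edg)) (B := HK k r) (u := (k, 0))
      (v := (0, 0)) (by rw [mem_HK]; simp only; omega) (Reach.symm hW)
    refine ⟨w, hw, hw2.mono ?_⟩
    rintro e ⟨he1 | he1, he2⟩
    · left
      rw [Finset.mem_coe] at he1 he2 ⊢
      rw [Finset.mem_inter, Finset.mem_sdiff]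
      refine ⟨he1, hF' he1, ?_⟩
      rw [ES_HK] at he2
      exact he2
    · exact Or.inr ⟨he1, he2⟩
  rw [show Q (ES T) (fun F => Ar k r (F ∩ S1) ∧ E2 (F ∩ (ES T \ S1))) =
      Q S1 (Ar k r) * Q (ES T \ S1) E2 from
      Pr_indep' hS Finset.sdiff_subset Finset.disjoint_sdiff _ _] at key
  rw [pr_Ar hr (Finset.Subset.refl _)] at key
  have e3 : Q (ES T \ S1) E2 ≤ Q (ES T) (WB A k r) := by
    have := Pr_restrict (S := ES T) (S' := ES T \ S1) Finset.sdiff_subset E2
    unfold Q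
    rw [← this]
    apply Pr_mono okhalf
    rintro F _ ⟨w, hw, hw2⟩
    rw [mem_HK] at hw
    refine ⟨w, hw, Reach.symm (hw2.mono ?_)⟩
    rintro e (he | he)
    · left
      rw [Finset.mem_coe] at he ⊢
      exact (Finset.mem_inter.mp he).1
    · exact Or.inr he.1
  have hp := pa_nonneg r
  have k1 : c' ≤ th k * (pa r * Q (ES T) (WB A k r)) :=
    b1.trans (mul_le_mul_of_nonneg_left (key.trans (mul_le_mul_of_nonneg_left e3 hp)) ht.le)
  have hQ := Q_nonneg (ES T) (WB A k r)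
  have k2 : c' * th r ≤ th k * (C * Q (ES T) (WB A k r)) := by
    calc c' * th r ≤ (th k * (pa r * Q (ES T) (WB A k r))) * th r :=
          mul_le_mul_of_nonneg_right k1 htr.le
      _ = th k * ((th r * pa r) * Q (ES T) (WB A k r)) := by ring
      _ ≤ _ := mul_le_mul_of_nonneg_left (mul_le_mul_of_nonneg_right b2 hQ) ht.le
  rw [div_mul_div_comm, div_le_iff₀ (by positivity)]
  linarith

end H934E
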