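import Pool.Agent.H934R2.Expl.Two

/-!
Moments of the number of arms from an interval, and of their energy.
-/

set_option maxHeartbeats 400000

namespace H934E

open H974 H973 Finset

/-! ### Sums of powers -/

theorem sum_rpow {a : ℝ} (ha : 0 ≤ a) (ha1 : a < 1) (D : ℕ) :
    ∑ d ∈ Finset.range D, ((d : ℝ) + 1) ^ (-a) ≤ (D : ℝ) ^ (1 - a) / (1 - a) := by
  have h1a : 0 < 1 - a := by linarith
  induction D with
  | zero =>
    simp only [Finset.range_zero, Finset.sum_empty, Nat.cast_zero]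
    rw [Real.zero_rpow h1a.ne']
    simp
  | succ D ih =>
    rw [Finset.sum_range_succ]
    have hD : (0:ℝ) < (D : ℝ) + 1 := by positivity
    have hb := rpow_one_add_le_one_add_mul_self (s := -(1 / ((D : ℝ) + 1))) (p := 1 - a)
      (by
        rw [neg_le_neg_iff, div_le_one hD]
        linarith [Nat.cast_nonneg (α := ℝ) D]) h1a.le (by linarith)
    have e1 : (1 : ℝ) + -(1 / ((D : ℝ) + 1)) = (D : ℝ) / ((D : ℝ) + 1) := by field_simp; ring
    rw [e1, Real.div_rpow (Nat.cast_nonneg _) hD.le] at hb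
    have hP : (0:ℝ) < ((D : ℝ) + 1) ^ (1 - a) := Real.rpow_pos_of_pos hD _
    rw [div_le_iff₀ hP] at hb
    have e2 : ((D : ℝ) + 1) ^ (-a) * ((D : ℝ) + 1) = ((D : ℝ) + 1) ^ (1 - a) := by
      rw [← Real.rpow_add_one hD.ne']
      congr 1; ring
    have e3 : ((D : ℝ) + 1) ^ (-a) = ((D : ℝ) + 1) ^ (1 - a) / ((D : ℝ) + 1) := by
      rw [← e2]; field_simp
    push_cast
    rw [e3]
    have e4 : (1 + (1 - a) * -(1 / ((D : ℝ) + 1))) * ((D : ℝ) + 1) ^ (1 - a) =
        ((D : ℝ) + 1) ^ (1 - a) - (1 - a) * (((D : ℝ) + 1) ^ (1 - a) / ((D : ℝ) + 1)) := by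
      field_simp
      ring
    rw [e4] at hb
    have h5 : (D : ℝ) ^ (1 - a) / (1 - a) ≤ (((D : ℝ) + 1) ^ (1 - a) -
        (1 - a) * (((D : ℝ) + 1) ^ (1 - a) / ((D : ℝ) + 1))) / (1 - a) :=
      div_le_div_of_nonneg_right hb h1a.le
    have h6 : (((D : ℝ) + 1) ^ (1 - a) -
        (1 - a) * (((D : ℝ) + 1) ^ (1 - a) / ((D : ℝ) + 1))) / (1 - a) =
        ((D : ℝ) + 1) ^ (1 - a) / (1 - a) - ((D : ℝ) + 1) ^ (1 - a) / ((D : ℝ) + 1) := by
      field_simp
    rw [h6] at h5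
    linarith

/-- Power of the distance of two different integers. -/
noncomputable def dp (a : ℝ) (k l : ℤ) : ℝ := |((k : ℝ) - l)| ^ (-a)

theorem dp_nonneg (a : ℝ) (k l : ℤ) : 0 ≤ dp a k l := Real.rpow_nonneg (abs_nonneg _) _

theorem dp_comm (a : ℝ) (k l : ℤ) : dp a k l = dp a l k := by
  unfold dp; rw [abs_sub_comm]

theorem sum_dp {a : ℝ} (ha : 0 ≤ a) (ha1 : a < 1) {u k : ℤ} {J : Finset ℤ} (hu : 0 ≤ u)
    (hJ : ∀ l ∈ J, |k - l| ≤ u) :
    ∑ l ∈ J.erase k, dp a k l ≤ 2 * ((u : ℝ) ^ (1 - a) / (1 - a)) := by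
  obtain ⟨n, rfl⟩ := Int.eq_ofNat_of_zero_le hu
  have h1 := sum_rpow ha ha1 n
  have hsub : J.erase k ⊆ (Finset.range n).image (fun d : ℕ => k + (d : ℤ) + 1) ∪
      (Finset.range n).image (fun d : ℕ => k - (d : ℤ) - 1) := by
    intro l hl
    rw [Finset.mem_erase] at hl
    have h2 := abs_le.mp (hJ l hl.2)
    rw [Finset.mem_union, Finset.mem_image, Finset.mem_image]
    rcases lt_or_gt_of_ne hl.1 with h3 | h3
    · right
      refine ⟨(k - l - 1).toNat, ?_, ?_⟩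
      · rw [Finset.mem_range]; omega
      · omega
    · left
      refine ⟨(l - k - 1).toNat, ?_, ?_⟩
      · rw [Finset.mem_range]; omega
      · omega
  have h2 : ∑ l ∈ J.erase k, dp a k l ≤
      ∑ l ∈ (Finset.range n).image (fun d : ℕ => k + (d : ℤ) + 1) ∪
      (Finset.range n).image (fun d : ℕ => k - (d : ℤ) - 1), dp a k l :=
    Finset.sum_le_sum_of_subset_of_nonneg hsub (fun _ _ _ => dp_nonneg _ _ _)
  have h3 : ∑ l ∈ (Finset.range n).image (fun d : ℕ => k + (d : ℤ) + 1) ∪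
      (Finset.range n).image (fun d : ℕ => k - (d : ℤ) - 1), dp a k l ≤
      ∑ l ∈ (Finset.range n).image (fun d : ℕ => k + (d : ℤ) + 1), dp a k l +
      ∑ l ∈ (Finset.range n).image (fun d : ℕ => k - (d : ℤ) - 1), dp a k l := by
    rw [← Finset.sum_union_inter]
    have : 0 ≤ ∑ l ∈ (Finset.range n).image (fun d : ℕ => k + (d : ℤ) + 1) ∩
      (Finset.range n).image (fun d : ℕ => k - (d : ℤ) - 1), dp a k l :=
      Finset.sum_nonneg (fun _ _ => dp_nonneg _ _ _)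
    linarith
  have h4 : ∑ l ∈ (Finset.range n).image (fun d : ℕ => k + (d : ℤ) + 1), dp a k l =
      ∑ d ∈ Finset.range n, ((d : ℝ) + 1) ^ (-a) := by
    rw [Finset.sum_image (by intro x _ y _ h; simp only at h; omega)]
    apply Finset.sum_congr rfl
    intro d _
    unfold dp
    congr 1
    push_cast
    rw [abs_sub_comm]
    have : (k : ℝ) + d + 1 - k = d + 1 := by ring
    rw [this, abs_of_nonneg (by positivity)]
  have h5 : ∑ l ∈ (Finset.range n).image (fun d : ℕ => k - (d : ℤ) - 1), dp a k l =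
      ∑ d ∈ Finset.range n, ((d : ℝ) + 1) ^ (-a) := by
    rw [Finset.sum_image (by intro x _ y _ h; simp only at h; omega)]
    apply Finset.sum_congr rfl
    intro d _
    unfold dp
    congr 1
    push_cast
    have : (k : ℝ) - (k - d - 1) = d + 1 := by ring
    rw [this, abs_of_nonneg (by positivity)]
  rw [h4, h5] at h3
  push_cast
  linarith

/-! ### Inequalities for expectations -/

noncomputable abbrev EE (S : Finset Edg) (f : Finset Edg → ℝ) : ℝ := Ex (fun _ => (1/2 : ℝ)) S f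

theorem markov {S : Finset Edg} {f : Finset Edg → ℝ} (hf : ∀ F, F ⊆ S → 0 ≤ f F) {t : ℝ}
    (ht : 0 < t) : Q S (fun F => t ≤ f F) ≤ EE S f / t := by
  rw [le_div_iff₀ ht, mul_comm]
  unfold Q Pr EE
  rw [← Ex_mul_left]
  apply Ex_mono okhalf
  intro F hF
  by_cases h : t ≤ f F
  · rw [ind_of h]; linarith
  · rw [ind_not_of h, mul_zero]; exact hf F hF

theorem paley {S : Finset Edg} {f : Finset Edg → ℝ} (hf : ∀ F, F ⊆ S → 0 ≤ f F) {m V : ℝ}
    (hm : 0 < m) (hV : 0 < V) (h1 : m ≤ EE S f) (h2 : EE S (fun F => f F * f F) ≤ V) :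
    m ^ 2 / (4 * V) ≤ Q S (fun F => m / 2 ≤ f F) := by
  have key : EE S f ≤ EE S (fun F => m / 2 + (m / (4 * V) * (f F * f F) +
      V / m * ind (m / 2 ≤ f F))) := by
    apply Ex_mono okhalf
    intro F hF
    have h0 := hf F hF
    by_cases h : m / 2 ≤ f F
    · rw [ind_of h, mul_one]
      have : f F ≤ m / (4 * V) * (f F * f F) + V / m := by
        have e : m / (4 * V) * (f F * f F) + V / m - f F = (m * f F - 2 * V) ^ 2 / (4 * V * m) := by
          field_simp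
          ring
        have : 0 ≤ (m * f F - 2 * V) ^ 2 / (4 * V * m) := by positivity
        linarith
      linarith
    · rw [ind_not_of h, mul_zero]
      push Not at h
      have : 0 ≤ m / (4 * V) * (f F * f F) := by positivity
      linarith
  have e1 : EE S (fun F => m / 2 + (m / (4 * V) * (f F * f F) + V / m * ind (m / 2 ≤ f F))) =
      m / 2 + (m / (4 * V) * EE S (fun F => f F * f F) +
        V / m * Q S (fun F => m / 2 ≤ f F)) := by
    unfold EE Q Pr
    rw [Ex_add, Ex_const, Ex_add, Ex_mul_left, Ex_mul_left]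
  rw [e1] at key
  have h3 : m / (4 * V) * EE S (fun F => f F * f F) ≤ m / 4 := by
    calc _ ≤ m / (4 * V) * V := mul_le_mul_of_nonneg_left h2 (by positivity)
      _ = m / 4 := by field_simp
  have h4 : m / 4 ≤ V / m * Q S (fun F => m / 2 ≤ f F) := by linarith
  rw [div_le_iff₀ (by positivity)]
  have h5 : m / 4 * m ≤ V / m * Q S (fun F => m / 2 ≤ f F) * m :=
    mul_le_mul_of_nonneg_right h4 hm.le
  have h6 : V / m * Q S (fun F => m / 2 ≤ f F) * m = V * Q S (fun F => m / 2 ≤ f F) := by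
    field_simp
  rw [h6] at h5
  nlinarith

/-! ### Number of arms and energy -/

/-- The interval `[7 u, 9 u]`. -/
noncomputable def JJ (u : ℤ) : Finset ℤ := Finset.Icc (7 * u) (9 * u)

theorem mem_JJ {u k : ℤ} : k ∈ JJ u ↔ 7 * u ≤ k ∧ k ≤ 9 * u := by
  unfold JJ; rw [Finset.mem_Icc]

/-- Number of arms. -/
noncomputable def NN (u : ℤ) (F : Finset Edg) : ℝ := ∑ k ∈ JJ u, ind (Ar k (5 * u) F)

/-- Energy. -/
noncomputable def EN (s : ℝ) (u : ℤ) (F : Finset Edg) : ℝ :=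
  ∑ k ∈ JJ u, ∑ l ∈ (JJ u).erase k, dp s k l * ind (Ar k (5 * u) F ∧ Ar l (5 * u) F)

theorem NN_nonneg (u : ℤ) (F : Finset Edg) : 0 ≤ NN u F :=
  Finset.sum_nonneg (fun _ _ => ind_nonneg _)

theorem EN_nonneg (s : ℝ) (u : ℤ) (F : Finset Edg) : 0 ≤ EN s u F :=
  Finset.sum_nonneg (fun _ _ => Finset.sum_nonneg
    (fun _ _ => mul_nonneg (dp_nonneg _ _ _) (ind_nonneg _)))

theorem NN_sq (u : ℤ) (F : Finset Edg) : NN u F * NN u F = NN u F + EN 0 u F := by
  unfold NN EN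
  rw [Finset.sum_mul_sum, ← Finset.sum_add_distrib]
  apply Finset.sum_congr rfl
  intro k hk
  rw [← Finset.add_sum_erase _ _ hk, ind_sq]
  congr 1
  apply Finset.sum_congr rfl
  intro l _
  unfold dp
  rw [neg_zero, Real.rpow_zero, one_mul, ind_and]

theorem JJ_card {u : ℤ} (hu : 0 ≤ u) : ((JJ u).card : ℝ) = 2 * u + 1 := by
  unfold JJ
  rw [Int.card_Icc]
  have : ((9 * u + 1 - 7 * u).toNat : ℤ) = 2 * u + 1 := by omega
  have h2 : (((9 * u + 1 - 7 * u).toNat : ℤ) : ℝ) = ((2 * u + 1 : ℤ) : ℝ) := by rw [this]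
  push_cast at h2
  exact h2

theorem JJ_sub {u : ℤ} {S : Finset Edg} (hS : RE (2 * u) (14 * u) 0 (5 * u) ⊆ S) {k : ℤ}
    (hk : k ∈ JJ u) : RE (k - 5 * u) (k + 5 * u) 0 (5 * u) ⊆ S := by
  rw [mem_JJ] at hk
  exact (RE_subset (by omega) (by omega) le_rfl le_rfl).trans hS

theorem E_NN {u : ℤ} (hu : 1 ≤ u) {S : Finset Edg} (hS : RE (2 * u) (14 * u) 0 (5 * u) ⊆ S) :
    EE S (NN u) = (2 * u + 1) * pa (5 * u) := by
  have e1 : EE S (NN u) = ∑ k ∈ JJ u, Q S (Ar k (5 * u)) := by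
    unfold EE NN
    rw [Ex_sum]
    rfl
  rw [e1, Finset.sum_congr rfl (fun k hk => pr_Ar (by omega) (JJ_sub hS hk)), Finset.sum_const,
    nsmul_eq_mul, JJ_card (by omega)]

/-- Two-point estimate, symmetric form. -/
theorem two_point' : ∃ C : ℝ, 0 < C ∧ ∀ u : ℤ, 1 ≤ u → ∀ S : Finset Edg,
    RE (2 * u) (14 * u) 0 (5 * u) ⊆ S → ∀ k ∈ JJ u, ∀ l ∈ JJ u, k ≠ l →
    Q S (fun F => Ar k (5 * u) F ∧ Ar l (5 * u) F) ≤ C / th u * dp (1/3) k l := by
  obtain ⟨C, hC, h⟩ := two_point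
  refine ⟨C, hC, ?_⟩
  have main : ∀ u : ℤ, 1 ≤ u → ∀ S : Finset Edg, RE (2 * u) (14 * u) 0 (5 * u) ⊆ S →
      ∀ k ∈ JJ u, ∀ l ∈ JJ u, k < l →
      Q S (fun F => Ar k (5 * u) F ∧ Ar l (5 * u) F) ≤ C / th u * dp (1/3) k l := by
    intro u hu S hS k hk l hl hkl
    have s1 := JJ_sub hS hk
    have s2 := JJ_sub hS hl
    rw [mem_JJ] at hk hl
    have e : k + (l - k) = l := by ring
    have h1 := h k (l - k) (5 * u) (by omega) (by omega) S s1 (by rw [e]; exact s2)
    rw [e] at h1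
    refine h1.trans ?_
    have e2 : dp (1/3) k l = 1 / th (l - k) := by
      unfold dp th
      rw [abs_sub_comm]
      have h3 : (0:ℝ) < (l : ℝ) - k := by
        have : (k : ℝ) < l := by exact_mod_cast hkl
        linarith
      rw [abs_of_pos h3, Real.rpow_neg h3.le]
      push_cast
      rw [one_div, one_div]
    rw [e2]
    have t1 : th u ≤ th (5 * u) := th_mono (by omega) (by omega)
    have t0 := th_pos hu
    have t2 : 0 < th (l - k) := th_pos (by omega)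
    rw [div_mul_div_comm, mul_one]
    apply div_le_div_of_nonneg_left hC.le (by positivity)
    rw [mul_comm (th u)]
    exact mul_le_mul_of_nonneg_left t1 t2.le
  intro u hu S hS k hk l hl hne
  rcases lt_or_gt_of_ne hne with h1 | h1
  · exact main u hu S hS k hk l hl h1
  · rw [dp_comm]
    refine le_trans (le_of_eq ?_) (main u hu S hS l hl k hk h1)
    apply Pr_congr
    intro F _
    exact and_comm

theorem E_EN {s : ℝ} (hs : 0 ≤ s) (hs1 : s < 2/3) : ∃ C : ℝ, 0 < C ∧ ∀ u : ℤ, 1 ≤ u →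
    ∀ S : Finset Edg, RE (2 * u) (14 * u) 0 (5 * u) ⊆ S →
    EE S (EN s u) ≤ C * (u : ℝ) ^ (4/3 - s) := by
  obtain ⟨C, hC, h⟩ := two_point'
  have hs2 : 0 < 2/3 - s := by linarith
  refine ⟨C * 3 * (2 * (2 / (2/3 - s))), by positivity, ?_⟩
  intro u hu S hS
  have hu0 : (0:ℝ) < u := by exact_mod_cast (show (0:ℤ) < u by omega)
  have hu1 : (1:ℝ) ≤ u := by exact_mod_cast hu
  have ht := th_pos hu
  have e1 : EE S (EN s u) = ∑ k ∈ JJ u, ∑ l ∈ (JJ u).erase k,
      dp s k l * Q S (fun F => Ar k (5 * u) F ∧ Ar l (5 * u) F) := by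
    unfold EE EN
    rw [Ex_sum]
    apply Finset.sum_congr rfl
    intro k _
    rw [Ex_sum]
    apply Finset.sum_congr rfl
    intro l _
    rw [Ex_mul_left]
    rfl
  rw [e1]
  have h2 : ∀ k ∈ JJ u, ∑ l ∈ (JJ u).erase k,
      dp s k l * Q S (fun F => Ar k (5 * u) F ∧ Ar l (5 * u) F) ≤
      C / th u * (2 * (((2 * u : ℤ) : ℝ) ^ (1 - (s + 1/3)) / (1 - (s + 1/3)))) := by
    intro k hk
    have h3 := sum_dp (a := s + 1/3) (by linarith) (by linarith) (u := 2 * u) (k := k) (J := JJ u)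
      (by omega) (by
        intro l hl
        rw [mem_JJ] at hk hl
        rw [abs_le]
        omega)
    refine le_trans ?_ (mul_le_mul_of_nonneg_left h3 (by positivity))
    rw [Finset.mul_sum]
    apply Finset.sum_le_sum
    intro l hl
    rw [Finset.mem_erase] at hl
    have h4 := h u hu S hS k hk l hl.2 hl.1.symm
    have e2 : dp (s + 1/3) k l = dp s k l * dp (1/3) k l := by
      unfold dp
      have h3 : (0:ℝ) < |(k : ℝ) - l| := by
        rw [abs_pos, sub_ne_zero]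
        intro h
        exact hl.1 (by exact_mod_cast h.symm)
      rw [← Real.rpow_add h3]
      congr 1
      ring
    rw [e2]
    calc dp s k l * Q S (fun F => Ar k (5 * u) F ∧ Ar l (5 * u) F)
        ≤ dp s k l * (C / th u * dp (1/3) k l) := mul_le_mul_of_nonneg_left h4 (dp_nonneg _ _ _)
      _ = _ := by ring
  refine (Finset.sum_le_sum h2).trans ?_
  rw [Finset.sum_const, nsmul_eq_mul, JJ_card (by omega)]
  have e3 : (1:ℝ) - (s + 1/3) = 2/3 - s := by ring
  rw [e3]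
  push_cast
  have h5 : (2 * (u : ℝ)) ^ (2/3 - s) ≤ 2 * (u : ℝ) ^ (2/3 - s) := by
    rw [Real.mul_rpow (by norm_num) hu0.le]
    apply mul_le_mul_of_nonneg_right _ (Real.rpow_nonneg hu0.le _)
    calc (2:ℝ) ^ (2/3 - s) ≤ (2:ℝ) ^ (1:ℝ) :=
          Real.rpow_le_rpow_of_exponent_le (by norm_num) (by linarith)
      _ = 2 := Real.rpow_one _
  have h6 : (u : ℝ) * ((u : ℝ) ^ (2/3 - s)) = (u : ℝ) ^ (4/3 - s) * th u := by
    unfold th
    rw [← Real.rpow_add hu0]
    nth_rewrite 1 [← Real.rpow_one (u : ℝ)]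
    rw [← Real.rpow_add hu0]
    congr 1
    ring
  have h7 : (2 * (u : ℝ) + 1) * (C / th u * (2 * ((2 * (u : ℝ)) ^ (2/3 - s) / (2/3 - s)))) ≤
      (3 * (u : ℝ)) * (C / th u * (2 * ((2 * (u : ℝ) ^ (2/3 - s)) / (2/3 - s)))) := by
    apply mul_le_mul (by linarith) _ (by positivity) (by positivity)
    apply mul_le_mul_of_nonneg_left _ (by positivity)
    apply mul_le_mul_of_nonneg_left _ (by norm_num)
    exact div_le_div_of_nonneg_right h5 hs2.le
  refine h7.trans (le_of_eq ?_)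
  have h8 : (3 * (u : ℝ)) * (C / th u * (2 * ((2 * (u : ℝ) ^ (2/3 - s)) / (2/3 - s)))) =
      C * 3 * (2 * (2 / (2/3 - s))) * ((u : ℝ) * ((u : ℝ) ^ (2/3 - s))) / th u := by
    field_simp
  rw [h8, h6]
  field_simp

end H934E
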