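import Pool.Agent.H934R2.Expl.HC

/-!
Arms from half-boxes: quasi-multiplicativity.
-/

set_option maxHeartbeats 400000

namespace H934E

open H974 H973 Finset

/-- The cube root. -/
noncomputable def th (n : ℤ) : ℝ := (n : ℝ) ^ ((1 : ℝ) / 3)

theorem th_pos {n : ℤ} (hn : 1 ≤ n) : 0 < th n :=
  Real.rpow_pos_of_pos (by exact_mod_cast (show (0:ℤ) < n by omega)) _

theorem th_mono {m n : ℤ} (hm : 0 ≤ m) (h : m ≤ n) : th m ≤ th n :=
  Real.rpow_le_rpow (by exact_mod_cast hm) (by exact_mod_cast h) (by norm_num)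

theorem one_le_th {n : ℤ} (hn : 1 ≤ n) : 1 ≤ th n :=
  Real.one_le_rpow (by exact_mod_cast hn) (by norm_num)

theorem th_mul {c n : ℤ} (hc : 1 ≤ c) (hn : 0 ≤ n) : th (c * n) ≤ c * th n := by
  unfold th
  push_cast
  rw [Real.mul_rpow (by exact_mod_cast (show (0:ℤ) ≤ c by omega)) (by exact_mod_cast hn)]
  apply mul_le_mul_of_nonneg_right _ (Real.rpow_nonneg (by exact_mod_cast hn) _)
  have hc1 : (1:ℝ) ≤ c := by exact_mod_cast hc
  calc (c:ℝ) ^ ((1:ℝ)/3) ≤ (c:ℝ) ^ (1:ℝ) :=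
        Real.rpow_le_rpow_of_exponent_le hc1 (by norm_num)
    _ = c := Real.rpow_one _

theorem reach_nonneg {G : Set Edg} (hG : ∀ e ∈ G, 0 ≤ e.2.1) {u v : Vtx} (hu : 0 ≤ u.2)
    (h : Reach G u v) : 0 ≤ v.2 := by
  induction h with
  | refl => exact hu
  | tail _ hs ih =>
    obtain ⟨⟨x, y, b⟩, he, hc⟩ := hs
    have := hG _ he
    simp only at this
    cases b
    · simp only [src_mk, tgt_false] at hc
      rcases hc with ⟨_, h2⟩ | ⟨h1, _⟩
      · rw [← h2]; simp only; omega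
      · rw [← h1]; exact this
    · simp only [src_mk, tgt_true] at hc
      rcases hc with ⟨_, h2⟩ | ⟨h1, _⟩
      · rw [← h2]; exact this
      · rw [← h1]; exact this

/-- Leaving a half-box whose neighbourhood is flat. -/
theorem exitG {G : Set Edg} {k R : ℤ} (hR : 1 ≤ R)
    (hG : ∀ e ∈ G, e ∈ RE (k - R) (k + R) (-R) R → 0 ≤ e.2.1) {u v : Vtx}
    (hu : inR (k - R) (k + R) 0 R u) (h : Reach G u v)
    (hv : v.1 ≤ k - R ∨ k + R ≤ v.1 ∨ v.2 ≤ -R ∨ R ≤ v.2) :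
    ∃ w : Vtx, (w.1 ≤ k - R ∨ k + R ≤ w.1 ∨ R ≤ w.2) ∧ inR (k - R) (k + R) 0 R w ∧
      Reach (G ∩ ↑(RE (k - R) (k + R) 0 R)) u w := by
  obtain ⟨w, h1, h2, h3⟩ := first_exit (a := k - R) (b := k + R) (c := -R) (d := R)
    (by unfold inR at hu ⊢; omega) h hv
  have hsub : G ∩ ↑(RE (k - R) (k + R) (-R) R) ⊆ G ∩ ↑(RE (k - R) (k + R) 0 R) := by
    rintro ⟨x, y, b⟩ ⟨he1, he2⟩
    refine ⟨he1, ?_⟩
    have h4 := hG _ he1 (Finset.mem_coe.mp he2)
    rw [Finset.mem_coe] at he2 ⊢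
    cases b
    · rw [mem_RE_false] at he2 ⊢
      simp only at h4
      omega
    · rw [mem_RE_true] at he2 ⊢
      simp only at h4
      omega
  have h5 : 0 ≤ w.2 := by
    refine reach_nonneg (G := G ∩ ↑(RE (k - R) (k + R) (-R) R)) ?_ hu.2.1 h3
    rintro e ⟨he1, he2⟩
    exact hG _ he1 (Finset.mem_coe.mp he2)
  refine ⟨w, by omega, ?_, h3.mono hsub⟩
  unfold inR at h1 ⊢
  omega

/-- The part of a path after the last visit of `B`. -/
theorem last_exit {G : Set Edg} {B : Finset Vtx} {u v : Vtx} (hu : u ∈ B) (h : Reach G u v) :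
    ∃ w ∈ B, Reach (G \ ↑(ES B)) w v := by
  induction h with
  | refl => exact ⟨u, hu, Reach.refl _ _⟩
  | @tail x y _ hs ih =>
    obtain ⟨w, hw, hr⟩ := ih
    obtain ⟨e, he, hc⟩ := hs
    by_cases hB : e ∈ ES B
    · refine ⟨y, ?_, Reach.refl _ _⟩
      have := mem_ES.mp hB
      rcases hc with ⟨_, h2⟩ | ⟨h1, _⟩
      · rw [← h2]; exact this.2
      · rw [← h1]; exact this.1
    · exact ⟨w, hw, hr.trans (Adj.reach ⟨e, ⟨he, by exact_mod_cast hB⟩, hc⟩)⟩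

theorem RE_nonneg {a b d : ℤ} {e : Edg} (he : e ∈ RE a b 0 d) : 0 ≤ e.2.1 := by
  obtain ⟨x, y, _ | _⟩ := e
  · rw [mem_RE_false] at he; simp only; omega
  · rw [mem_RE_true] at he; simp only; omega

theorem Ar.anti {k r R : ℤ} {F : Finset Edg} (hr : 1 ≤ r) (hrR : r ≤ R) (h : Ar k R F) :
    Ar k r F := by
  obtain ⟨y, h1, h2⟩ := h
  obtain ⟨w, h3, _, h4⟩ := exitG (k := k) hr
    (G := ↑F ∩ ↑(RE (k - R) (k + R) 0 R)) (fun e he _ => RE_nonneg (Finset.mem_coe.mp he.2))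
    (u := (k, 0)) (by unfold inR; simp only; omega) h2 (by omega)
  exact ⟨w, h3, h4.mono (by rintro e ⟨⟨he1, _⟩, he2⟩; exact ⟨he1, he2⟩)⟩

/-- The half-box of radius `r` around `(k, 0)` is connected to distance `R`. -/
def BAr (k r R : ℤ) (F : Finset Edg) : Prop :=
  ∃ u v : Vtx, inR (k - r) (k + r) 0 r u ∧ (v.1 ≤ k - R ∨ k + R ≤ v.1 ∨ R ≤ v.2) ∧
    Reach (↑F ∩ ↑(RE (k - R) (k + R) 0 R)) u v

theorem BAr.mono {k r R : ℤ} {F G : Finset Edg} (h : F ⊆ G) (hF : BAr k r R F) :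
    BAr k r R G := by
  obtain ⟨u, v, h1, h2, h3⟩ := hF
  exact ⟨u, v, h1, h2, h3.mono (Set.inter_subset_inter_left _ (by exact_mod_cast h))⟩

theorem BAr_incr (S : Finset Edg) (k r R : ℤ) : IncrE S (BAr k r R) :=
  fun _ _ h _ hF => hF.mono h

/-- Gluing. -/
theorem glue_ar {k r R : ℤ} {F : Finset Edg} (hr : 1 ≤ r) (hR : 3 * r ≤ R)
    (h1 : Ar k (3 * r) F) (h2 : HC k r (3 * r) F) (h3 : BAr k r R F) : Ar k R F := by
  obtain ⟨l, _, _, hz⟩ := hc_meet (by omega) (by omega) h2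
  obtain ⟨y, hy, hy2⟩ := h1
  obtain ⟨u, v, hu, hv, huv⟩ := h3
  have m1 := hz (k, 0) y (by unfold inR; simp only; omega) hy hy2
  obtain ⟨w, hw1, _, hw2⟩ := exitG (k := k) (R := 3 * r) (by omega)
    (G := ↑F ∩ ↑(RE (k - R) (k + R) 0 R)) (fun e he _ => RE_nonneg (Finset.mem_coe.mp he.2))
    (u := u) (v := v) (by unfold inR at hu ⊢; omega) huv (by omega)
  have m2 := hz u w hu hw1 (hw2.mono (by rintro e ⟨⟨he1, _⟩, he2⟩; exact ⟨he1, he2⟩))
  have hsub : (↑F : Set Edg) ∩ ↑(RE (k - 3 * r) (k + 3 * r) 0 (3 * r)) ⊆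
      ↑F ∩ ↑(RE (k - R) (k + R) 0 R) :=
    Set.inter_subset_inter_right _ (by
      exact_mod_cast RE_subset (by omega) (by omega) le_rfl (by omega))
  exact ⟨v, hv, (m1.mono hsub).trans ((m2.symm.mono hsub).trans huv)⟩

theorem pr_BAr_glue {k r R : ℤ} (hr : 1 ≤ r) (hR : 3 * r ≤ R) {S : Finset Edg}
    (hS : RE (k - R) (k + R) 0 R ⊆ S) : pa (3 * r) * (kp * Q S (BAr k r R)) ≤ pa R := by
  have hs3 : RE (k - 3 * r) (k + 3 * r) 0 (3 * r) ⊆ S :=
    (RE_subset (by omega) (by omega) le_rfl (by omega)).trans hS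
  have e1 := pr_Ar (k := k) (n := 3 * r) (by omega) hs3
  have e2 := pr_HC (k := k) (r := r) (by omega) hs3
  have e3 := pr_Ar (k := k) (n := R) (by omega) hS
  have i1 := hmul (HC_incr S k r (3 * r)) (BAr_incr S k r R) (Q_nonneg _ _) e2 le_rfl
  have c1 : IncrE S (fun F => HC k r (3 * r) F ∧ BAr k r R F) :=
    fun F G hFG _ hF => ⟨hF.1.mono hFG, hF.2.mono hFG⟩
  have i2 := hmul (Ar_incr S k (3 * r)) c1 (mul_nonneg kp_pos.le (Q_nonneg _ _)) e1.ge i1
  refine i2.trans ?_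
  rw [← e3]
  exact Q_mono (fun F _ hF => glue_ar hr hR hF.1 hF.2.1 hF.2.2)

/-- Boxes are connected to distance `R` with probability at most `C (r / R) ^ (1 / 3)`. -/
theorem BAr_le : ∃ C : ℝ, 0 < C ∧ ∀ k r R : ℤ, 1 ≤ r → r ≤ R → ∀ S : Finset Edg,
    RE (k - R) (k + R) 0 R ⊆ S → Q S (BAr k r R) ≤ C * (th r / th R) := by
  obtain ⟨c, C, hc, hC, h⟩ := pa_bounds
  refine ⟨max 3 (3 * C / (kp * c)), lt_max_of_lt_left (by norm_num), ?_⟩
  intro k r R hr hrR S hS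
  have hr0 := th_pos hr
  have hR0 := th_pos (hr.trans hrR)
  by_cases h3 : 3 * r ≤ R
  · have g := pr_BAr_glue hr h3 hS
    have b1 := (h (3 * r) (by omega)).1
    have b2 := (h R (by omega)).2
    change c ≤ th (3 * r) * pa (3 * r) at b1
    change th R * pa R ≤ C at b2
    have t3 := th_mul (c := 3) (n := r) (by norm_num) (by omega)
    push_cast at t3
    have hp : 0 ≤ pa (3 * r) := pa_nonneg _
    have hkp := kp_pos
    have hQ := Q_nonneg S (BAr k r R)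
    -- c * kp * Q ≤ th (3r) * pa (3r) * kp * Q ≤ th (3r) * pa R ≤ 3 th r * C / th R
    have s1 : c * (kp * Q S (BAr k r R)) ≤ th (3 * r) * pa R :=
      calc c * (kp * Q S (BAr k r R)) ≤ (th (3 * r) * pa (3 * r)) * (kp * Q S (BAr k r R)) :=
            mul_le_mul_of_nonneg_right b1 (mul_nonneg hkp.le hQ)
        _ = th (3 * r) * (pa (3 * r) * (kp * Q S (BAr k r R))) := by ring
        _ ≤ _ := mul_le_mul_of_nonneg_left g (th_pos (by omega)).le
    have s2 : pa R ≤ C / th R := by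
      rw [le_div_iff₀ hR0]; linarith
    have s3 : c * (kp * Q S (BAr k r R)) ≤ 3 * th r * (C / th R) :=
      s1.trans (mul_le_mul t3 s2 (pa_nonneg _) (by positivity))
    have s4 : Q S (BAr k r R) ≤ (3 * C / (kp * c)) * (th r / th R) := by
      rw [div_mul_div_comm, le_div_iff₀ (by positivity)]
      have : 3 * th r * (C / th R) * th R = 3 * C * th r := by field_simp
      nlinarith [mul_le_mul_of_nonneg_right s3 hR0.le]
    exact s4.trans (mul_le_mul_of_nonneg_right (le_max_right _ _) (by positivity))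
  · have t3 := th_mul (c := 3) (n := r) (by norm_num) (by omega)
    push_cast at t3
    have t4 : th R ≤ th (3 * r) := th_mono (by omega) (by omega)
    have : (1:ℝ) ≤ 3 * (th r / th R) := by
      rw [← mul_div_assoc, le_div_iff₀ hR0]; linarith
    calc Q S (BAr k r R) ≤ 1 := Q_le_one _ _
      _ ≤ 3 * (th r / th R) := this
      _ ≤ _ := mul_le_mul_of_nonneg_right (le_max_left _ _) (by positivity)

end H934E
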