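import Pool.Agent.H934R2.Expl.Final
import Pool.Agent.H731R3.Cardy.Compl

/-!
Hitting estimates in half-plane charts: symmetries of the lattice and duality.
-/

set_option maxHeartbeats 400000

namespace H934E

open H974 H973 Finset

/-- Around `(k, 0)` up to distance `R` the random edges `S` are those of the upper half-plane,
there are no fixed edges, and the base points are outside. -/
structure Chart (k R : ℤ) (S : Finset Edg) (A : Set Edg) (O : Set Vtx) : Prop where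
  box : ∀ e ∈ RE (k - R) (k + R) 0 R, e ∈ S
  up : ∀ e, (e ∈ S ∨ e ∈ A) → e ∈ RE (k - R) (k + R) (-R) R → 0 ≤ e.2.1
  free : ∀ e ∈ A, e ∉ RE (k - R) (k + R) 0 R
  base : ∀ o ∈ O, o.1 ≤ k - R ∨ k + R ≤ o.1 ∨ o.2 ≤ -R ∨ R ≤ o.2

theorem chart_BAr {k r R : ℤ} {S : Finset Edg} {A : Set Edg} {O : Set Vtx}
    (h : Chart k R S A O) (hR : 1 ≤ R) (hr : r ≤ R) {F : Finset Edg} (hF : F ⊆ S)
    (hW : ∃ o ∈ O, ∃ u : Vtx, inR (k - r) (k + r) 0 r u ∧ Reach (↑F ∪ A) o u) :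
    BAr k r R F := by
  obtain ⟨o, ho, u, hu, hr'⟩ := hW
  obtain ⟨w, hw1, _, hw2⟩ := exitG (k := k) hR (G := (↑F ∪ A : Set Edg))
    (fun e he hE => h.up e (he.imp (fun h => hF (Finset.mem_coe.mp h)) id) hE) (u := u) (v := o)
    (by unfold inR at hu ⊢; omega) (Reach.symm hr') (h.base o ho)
  refine ⟨u, w, hu, hw1, hw2.mono ?_⟩
  rintro e ⟨he1 | he1, he2⟩
  · exact ⟨he1, he2⟩
  · exact absurd (Finset.mem_coe.mp he2) (h.free e he1)

/-- Hitting estimate in a chart. -/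
theorem hit_chart : ∃ C : ℝ, 0 < C ∧ ∀ (S : Finset Edg) (A : Set Edg) (O : Set Vtx)
    (k r R : ℤ), Chart k R S A O → 1 ≤ r → r ≤ R →
    Q S (fun F => ∃ o ∈ O, ∃ u : Vtx, inR (k - r) (k + r) 0 r u ∧ Reach (↑F ∪ A) o u) ≤
      C * (th r / th R) := by
  obtain ⟨C, hC, h⟩ := BAr_le
  refine ⟨C, hC, ?_⟩
  intro S A O k r R hc hr hrR
  refine le_trans ?_ (h k r R hr hrR S hc.box)
  exact Q_mono (fun F hF hF2 => chart_BAr hc (by omega) hrR hF hF2)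

/-- Composition of symmetries: first `h`, then `g`. -/
def lcomp (g h : LSym) : LSym where
  φ := h.φ.trans g.φ
  ψ := h.ψ.trans g.ψ
  compat := by
    intro e
    simp only [Equiv.trans_apply]
    rcases g.compat (h.φ e) with ⟨a1, a2⟩ | ⟨a1, a2⟩ <;>
      rcases h.compat e with ⟨b1, b2⟩ | ⟨b1, b2⟩ <;> rw [a1, a2, b1, b2] <;> simp

/-- Hitting estimate in the chart given by a symmetry. -/
theorem hit_sym : ∃ C : ℝ, 0 < C ∧ ∀ (g : LSym) (S : Finset Edg) (A : Set Edg) (O : Set Vtx)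
    (k r R : ℤ), Chart k R (g.mp S) (g.φ '' A) (g.ψ '' O) → 1 ≤ r → r ≤ R →
    Q S (fun F => ∃ o ∈ O, ∃ u : Vtx, inR (k - r) (k + r) 0 r (g.ψ u) ∧ Reach (↑F ∪ A) o u) ≤
      C * (th r / th R) := by
  obtain ⟨C, hC, h⟩ := hit_chart
  refine ⟨C, hC, ?_⟩
  intro g S A O k r R hc hr hrR
  refine le_trans ?_ (h _ _ _ k r R hc hr hrR)
  unfold Q
  rw [LSym.pr]
  apply Pr_mono okhalf
  rintro F _ ⟨o, ho, u, hu, hR⟩
  refine ⟨g.ψ o, ⟨o, ho, rfl⟩, g.ψ u, hu, ?_⟩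
  rw [LSym.coe_mp, ← Set.image_union]
  exact g.reach hR

/-- Hitting estimate for dual clusters in the chart given by a symmetry. -/
theorem hit_dual : ∃ C : ℝ, 0 < C ∧ ∀ (g : LSym) (S S' : Finset Edg) (A : Set Edg) (O : Set Vtx)
    (k r R : ℤ), (∀ e, e ∈ S' ↔ e ∈ S ∧ e ∉ A) → Chart k R (g.mp (dmp S')) ∅ (g.ψ '' O) →
    1 ≤ r → r ≤ R →
    Q S (fun F => ∃ o ∈ O, ∃ u : Vtx, inR (k - r) (k + r) 0 r (g.ψ u) ∧
      DReach (↑S \ (↑F ∪ A)) o u) ≤ C * (th r / th R) := by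
  obtain ⟨C, hC, h⟩ := hit_sym
  refine ⟨C, hC, ?_⟩
  intro g S S' A O k r R hS' hc hr hrR
  have hc' : Chart k R (g.mp (dmp S')) (g.φ '' (∅ : Set Edg)) (g.ψ '' O) := by
    rw [Set.image_empty]; exact hc
  refine le_trans ?_ (h g (dmp S') ∅ O k r R hc' hr hrR)
  set B : Finset Edg → Prop := fun F => ∃ o ∈ O, ∃ u : Vtx, inR (k - r) (k + r) 0 r (g.ψ u) ∧
    Reach (↑F ∪ (∅ : Set Edg)) o u with hB
  have hsub : S' ⊆ S := fun e he => ((hS' e).mp he).1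
  have e1 : Q S' (fun F => B (dmp (S' \ F))) = Q (dmp S') B := H731C.P2_dual S' B
  rw [← e1]
  have e2 := Pr_restrict (S := S) (S' := S') hsub (fun F => B (dmp (S' \ F)))
  unfold Q
  rw [← e2]
  apply Pr_mono okhalf
  rintro F _ ⟨o, ho, u, hu, hR⟩
  refine ⟨o, ho, u, hu, ?_⟩
  rw [Set.union_empty, coe_dmp, reach_dl]
  refine hR.mono ?_
  rintro e ⟨he1, he2⟩
  rw [Set.mem_union, not_or] at he2
  rw [Finset.mem_coe, Finset.mem_sdiff, Finset.mem_inter]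
  refine ⟨(hS' e).mpr ⟨Finset.mem_coe.mp he1, he2.2⟩, ?_⟩
  intro h2
  exact he2.1 (Finset.mem_coe.mpr h2.1)

end H934E
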