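import Pool.Agent.H973R2.Exp3

/-!
Half-circuits in half-annuli of the upper half-plane, and the boundary one-arm probability.
-/

set_option maxHeartbeats 400000

namespace H934E

open H974 H973 Finset

/-- Probability under critical percolation on the edge set `S`. -/
noncomputable abbrev Q (S : Finset Edg) (A : Finset Edg → Prop) : ℝ :=
  Pr (fun _ => (1/2 : ℝ)) S A

theorem Q_nonneg (S : Finset Edg) (A : Finset Edg → Prop) : 0 ≤ Q S A := Pr_nonneg okhalf _ _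
theorem Q_le_one (S : Finset Edg) (A : Finset Edg → Prop) : Q S A ≤ 1 := Pr_le_one okhalf _ _
theorem Q_mono {S : Finset Edg} {A B : Finset Edg → Prop} (h : ∀ F, F ⊆ S → A F → B F) :
    Q S A ≤ Q S B := Pr_mono okhalf h

/-- Three crossings around a half-annulus centred at `(k, 0)`. -/
def HC (k R1 R2 : ℤ) (F : Finset Edg) : Prop :=
  LRc (k - R2) (k + R2) R1 R2 F ∧ TBc (k + R1) (k + R2) 0 R2 F ∧ TBc (k - R2) (k - R1) 0 R2 F

theorem HC.mono {k R1 R2 : ℤ} {F G : Finset Edg} (h : F ⊆ G) (hF : HC k R1 R2 F) :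
    HC k R1 R2 G := ⟨hF.1.mono h, hF.2.1.mono h, hF.2.2.mono h⟩

theorem HC_incr (S : Finset Edg) (k R1 R2 : ℤ) : IncrE S (HC k R1 R2) :=
  fun _ _ h _ hF => hF.mono h

theorem hc_meet {F : Finset Edg} {k R1 R2 : ℤ} (h1 : 0 ≤ R1) (h2 : R1 < R2)
    (h : HC k R1 R2 F) : ∃ l : ℤ, k - R2 ≤ l ∧ l ≤ k - R1 ∧
      ∀ u v : Vtx, inR (k - R1) (k + R1) 0 R1 u →
      (v.1 ≤ k - R2 ∨ k + R2 ≤ v.1 ∨ R2 ≤ v.2) →
      Reach (↑F ∩ ↑(RE (k - R2) (k + R2) 0 R2)) u v →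
      Reach (↑F ∩ ↑(RE (k - R2) (k + R2) 0 R2)) u (l, 0) := by
  obtain ⟨⟨t, t', ht, ht', hT⟩, ⟨r, r', hr, hr', hR⟩, ⟨l, l', hl, hl', hL⟩⟩ := h
  have hT' := hT.mono (Set.inter_subset_inter_right (↑F)
    (by exact_mod_cast LRE_subset_RE : (↑(LRE (k - R2) (k + R2) R1 R2) : Set Edg) ⊆ _))
  have hR' := hR.mono (Set.inter_subset_inter_right (↑F)
    (by exact_mod_cast TBE_subset_RE : (↑(TBE (k + R1) (k + R2) 0 R2) : Set Edg) ⊆ _))
  have hL' := hL.mono (Set.inter_subset_inter_right (↑F)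
    (by exact_mod_cast TBE_subset_RE : (↑(TBE (k - R2) (k - R1) 0 R2) : Set Edg) ⊆ _))
  have mTR : Reach (↑F ∩ ↑(RE (k - R2) (k + R2) 0 R2)) (k - R2, t) (r, 0) :=
    cross_meet (by omega) (by omega) le_rfl (by omega) h2 le_rfl hT' (by simp only; omega) le_rfl
      hR' (by simp only; omega) le_rfl
  have mTL : Reach (↑F ∩ ↑(RE (k - R2) (k + R2) 0 R2)) (k - R2, t) (l, 0) :=
    cross_meet le_rfl (by omega) (by omega) (by omega) h2 le_rfl hT' le_rfl (by simp only; omega)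
      hL' (by simp only; omega) le_rfl
  refine ⟨l, hl.1, hl.2, ?_⟩
  intro u v hu hv hP
  unfold inR at hu
  rcases hv with hv | hv | hv
  · have m : Reach (↑F ∩ ↑(RE (k - R2) (k + R2) 0 R2)) v (l, 0) :=
      cross_meet le_rfl (by omega) (by omega) le_rfl (by omega) le_rfl hP.symm hv
        (show k - R1 ≤ u.1 by omega) hL' le_rfl le_rfl
    exact hP.trans m
  · have m : Reach (↑F ∩ ↑(RE (k - R2) (k + R2) 0 R2)) u (r, 0) :=
      cross_meet (by omega) (by omega) le_rfl le_rfl (by omega) le_rfl hP (by omega) hv hR' le_rfl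
        le_rfl
    exact m.trans (mTR.symm.trans mTL)
  · have m : Reach (↑F ∩ ↑(RE (k - R2) (k + R2) 0 R2)) (k - R2, t) u :=
      cross_meet le_rfl (by omega) le_rfl (by omega) h2 le_rfl hT' le_rfl le_rfl hP
        (by omega) hv
    exact m.symm.trans mTL

/-- The constant of half-circuits. -/
noncomputable def kp : ℝ := (1/2 : ℝ)^47 * ((1/2 : ℝ)^47 * (1/2 : ℝ)^47)

theorem kp_pos : 0 < kp := by unfold kp; positivity

theorem pr_HC {k r : ℤ} (hr : 0 < r) {S : Finset Edg}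
    (hS : RE (k - 3 * r) (k + 3 * r) 0 (3 * r) ⊆ S) : kp ≤ Q S (HC k r (3 * r)) := by
  have s1 : LRE (k - 3 * r) (k + 3 * r) r (3 * r) ⊆ S :=
    LRE_subset_RE.trans ((RE_subset le_rfl le_rfl (by omega) le_rfl).trans hS)
  have s2 : TBE (k + r) (k + 3 * r) 0 (3 * r) ⊆ S :=
    TBE_subset_RE.trans ((RE_subset (by omega) le_rfl le_rfl le_rfl).trans hS)
  have s3 : TBE (k - 3 * r) (k - r) 0 (3 * r) ⊆ S :=
    TBE_subset_RE.trans ((RE_subset le_rfl (by omega) le_rfl le_rfl).trans hS)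
  have e1 := pr_LRc (1/2) s1
  have e2 := pr_TBc (1/2) s2
  have e3 := pr_TBc (1/2) s3
  have a1 : (1/2 : ℝ)^47 ≤ Q S (LRc (k - 3 * r) (k + 3 * r) r (3 * r)) := by
    unfold Q; rw [e1]; exact rsw hr (by omega) (by omega) (by omega)
  have a2 : (1/2 : ℝ)^47 ≤ Q S (TBc (k + r) (k + 3 * r) 0 (3 * r)) := by
    unfold Q; rw [e2]; exact rsw hr (by omega) (by omega) (by omega)
  have a3 : (1/2 : ℝ)^47 ≤ Q S (TBc (k - 3 * r) (k - r) 0 (3 * r)) := by
    unfold Q; rw [e3]; exact rsw hr (by omega) (by omega) (by omega)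
  have i1 := hmul (TBc_incr S (k + r) (k + 3 * r) 0 (3 * r))
    (TBc_incr S (k - 3 * r) (k - r) 0 (3 * r)) (by positivity) a2 a3
  have c1 : IncrE S (fun F => TBc (k + r) (k + 3 * r) 0 (3 * r) F ∧
      TBc (k - 3 * r) (k - r) 0 (3 * r) F) :=
    fun F G hFG _ hF => ⟨hF.1.mono hFG, hF.2.mono hFG⟩
  exact hmul (LRc_incr S _ _ _ _) c1 (by positivity) a1 i1

/-- The half-plane one-arm probability. -/
noncomputable def pa (n : ℤ) : ℝ := armP (HB 0 (-1) n) n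

theorem pa_nonneg (n : ℤ) : 0 ≤ pa n := armP_nonneg _ _
theorem pa_le_one (n : ℤ) : pa n ≤ 1 := armP_le_one _ _

theorem mem_HBy {n : ℤ} {y : Vtx} : y ∈ HB 0 (-1) n ↔
    ((-n ≤ y.1 ∧ y.1 ≤ n) ∧ (0 ≤ y.2 ∧ y.2 ≤ n)) := by
  rw [mem_HB]
  have : ((0:ℝ) * (y.1 : ℝ) + (-1) * (y.2 : ℝ) ≤ 0) ↔ 0 ≤ y.2 := by
    constructor
    · intro h
      have : (0:ℝ) ≤ (y.2 : ℝ) := by linarith
      exact_mod_cast this
    · intro h
      have : (0:ℝ) ≤ (y.2 : ℝ) := by exact_mod_cast h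
      linarith
  rw [this]
  omega

/-- The half-box of radius `n` around `(k, 0)`. -/
noncomputable def HK (k n : ℤ) : Finset Vtx := shift (k, 0) (HB 0 (-1) n)

theorem mem_HK {k n : ℤ} {y : Vtx} : y ∈ HK k n ↔
    ((k - n ≤ y.1 ∧ y.1 ≤ k + n) ∧ (0 ≤ y.2 ∧ y.2 ≤ n)) := by
  unfold HK
  rw [mem_shift, mem_HBy]
  simp only
  omega

theorem ES_HK {k n : ℤ} : ES (HK k n) = RE (k - n) (k + n) 0 n := by
  ext e
  rw [mem_ES, mem_HK, mem_HK]
  constructor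
  · rintro ⟨h1, h2⟩
    exact mem_RE_of_ends (by unfold inR; omega) (by unfold inR; omega)
  · intro h
    have := mem_RE_ends h
    unfold inR at this
    omega

/-- The arm event at `(k, 0)` in the half-box of radius `n`. -/
def Ar (k n : ℤ) (F : Finset Edg) : Prop :=
  ∃ y : Vtx, (y.1 ≤ k - n ∨ k + n ≤ y.1 ∨ n ≤ y.2) ∧
    Reach (↑F ∩ ↑(RE (k - n) (k + n) 0 n)) (k, 0) y

theorem Ar.mono {k n : ℤ} {F G : Finset Edg} (h : F ⊆ G) (hF : Ar k n F) : Ar k n G := by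
  obtain ⟨y, h1, h2⟩ := hF
  exact ⟨y, h1, h2.mono (Set.inter_subset_inter_left _ (by exact_mod_cast h))⟩

theorem Ar_incr (S : Finset Edg) (k n : ℤ) : IncrE S (Ar k n) := fun _ _ h _ hF => hF.mono h

theorem Ar_local {k n : ℤ} {F S : Finset Edg} (hS : RE (k - n) (k + n) 0 n ⊆ S) :
    Ar k n F ↔ Ar k n (F ∩ S) := by
  unfold Ar
  rw [coe_inter_eq hS]

theorem pr_Ar {k n : ℤ} (hn : 1 ≤ n) {S : Finset Edg} (hS : RE (k - n) (k + n) 0 n ⊆ S) :
    Q S (Ar k n) = pa n := by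
  unfold pa
  rw [← arm_shift (k, 0)]
  change _ = Pr (fun _ => (1/2 : ℝ)) (ES (HK k n)) (armC (HK k n) (k, 0) n)
  rw [ES_HK]
  unfold Q
  have e0 := Pr_local (p := fun _ : Edg => (1/2 : ℝ)) hS (A := Ar k n)
    (fun F _ => Ar_local (Finset.Subset.refl _))
  rw [e0]
  apply Pr_congr
  intro F hF
  have e1 : (↑F : Set Edg) ∩ ↑(RE (k - n) (k + n) 0 n) = ↑F :=
    Set.inter_eq_left.mpr (by exact_mod_cast hF)
  have hmem : ∀ v : Vtx, Reach (F : Set Edg) (k, 0) v → v ∈ HK k n := by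
    intro v hv
    apply reach_mem (F := (F : Set Edg)) _ _ hv
    · intro e he
      rw [ES_HK]
      exact hF (Finset.mem_coe.mp he)
    · rw [mem_HK]; simp only; omega
  unfold Ar armC
  rw [e1]
  constructor
  · rintro ⟨y, h1, h2⟩
    have h3 := hmem y h2
    refine ⟨y, h3, ?_, h2⟩
    rw [mem_HK] at h3
    unfold onBX
    simp only
    omega
  · rintro ⟨y, h1, h2, h3⟩
    refine ⟨y, ?_, h3⟩
    rw [mem_HK] at h1
    unfold onBX at h2
    simp only at h2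
    omega

theorem pa_bounds : ∃ c C : ℝ, 0 < c ∧ 0 < C ∧ ∀ n : ℤ, 1 ≤ n →
    c ≤ (n : ℝ) ^ ((1 : ℝ) / 3) * pa n ∧ (n : ℝ) ^ ((1 : ℝ) / 3) * pa n ≤ C := by
  obtain ⟨c, C, hc, hC, h⟩ := exponents
  refine ⟨c, C, hc, hC, ?_⟩
  intro n hn
  obtain ⟨m, rfl⟩ := Int.eq_ofNat_of_zero_le (show 0 ≤ n by omega)
  have := (h m (by omega)).2 0 (-1) (Or.inr (by norm_num))
  simpa [pa] using this

end H934E
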