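import Pool.Agent.H934R2.Expl.Upper

/-!
Weak limits of the laws of the trace: lower bound for the dimension of the touching set.
-/

set_option maxHeartbeats 400000

namespace H934E

open H974 H973 Finset MeasureTheory TopologicalSpace Filter Topology
open scoped ENNReal

/-- A neighbourhood of the part of the boundary covered by the given intervals. -/
def OC (X θ : ℝ) {n : ℕ} (x L : Fin n → ℝ) : Set ℂ :=
  {z | (∃ i, x i < z.re ∧ z.re < x i + L i) ∨ θ < |z.im| ∨ z.re < 0 ∨ X < z.re}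

theorem isOpen_OC (X θ : ℝ) {n : ℕ} (x L : Fin n → ℝ) : IsOpen (OC X θ x L) := by
  have e : OC X θ x L = (⋃ i, {z : ℂ | x i < z.re ∧ z.re < x i + L i}) ∪
      ({z : ℂ | θ < |z.im|} ∪ ({z : ℂ | z.re < 0} ∪ {z : ℂ | X < z.re})) := by
    ext z
    simp only [OC, Set.mem_ofPred_eq, Set.mem_union, Set.mem_iUnion]
  rw [e]
  have c1 : Continuous (fun z : ℂ => |z.im|) := by fun_prop
  refine (isOpen_iUnion fun i => ?_).union ((isOpen_lt continuous_const c1).union
    ((isOpen_lt Complex.continuous_re continuous_const).union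
      (isOpen_lt continuous_const Complex.continuous_re)))
  exact (isOpen_lt continuous_const Complex.continuous_re).inter
    (isOpen_lt Complex.continuous_re continuous_const)

/-- The compact sets whose part near the boundary can be covered cheaply. -/
def EC (s X c θ η : ℝ) : Set (NonemptyCompacts ℂ) :=
  {K | ∃ (n : ℕ) (x L : Fin n → ℝ), (∀ i, η ≤ L i) ∧ ∑ i, (L i) ^ s < c ∧
    (K : Set ℂ) ⊆ OC X θ x L}

theorem isOpen_EC (s X c θ η : ℝ) : IsOpen (EC s X c θ η) := by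
  have e : EC s X c θ η = ⋃ (n : ℕ) (x : Fin n → ℝ) (L : Fin n → ℝ)
      (_ : (∀ i, η ≤ L i) ∧ ∑ i, (L i) ^ s < c), {K : NonemptyCompacts ℂ |
        (K : Set ℂ) ⊆ OC X θ x L} := by
    ext K
    simp only [EC, Set.mem_ofPred_eq, Set.mem_iUnion, exists_prop, and_assoc]
  rw [e]
  exact isOpen_iUnion fun n => isOpen_iUnion fun x => isOpen_iUnion fun L => isOpen_iUnion
    fun _ => NonemptyCompacts.isOpen_subsets_of_isOpen (isOpen_OC X θ x L)

theorem EC_mono {s X c θ η θ' η' : ℝ} (h1 : θ' ≤ θ) (h2 : η' ≤ η) :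
    EC s X c θ η ⊆ EC s X c θ' η' := by
  rintro K ⟨n, x, L, h3, h4, h5⟩
  refine ⟨n, x, L, fun i => h2.trans (h3 i), h4, h5.trans ?_⟩
  rintro z (h | h | h | h)
  · exact Or.inl h
  · exact Or.inr (Or.inl (h1.trans_lt h))
  · exact Or.inr (Or.inr (Or.inl h))
  · exact Or.inr (Or.inr (Or.inr h))

namespace Rect

/-- Cheap covers of the trace give cheap covers of the visited vertices. -/
theorem trace_cheap (R : Rect) {s X c θ η δ : ℝ} (hs : 0 ≤ s) (hX : 0 < X) (hXB : X < R.B)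
    (hc : 0 < c) (hδ : 0 < δ) (h1 : δ ≤ η) (h2 : δ ≤ θ) (h3 : 2 * δ ≤ X) (h4 : δ ≤ R.B - X)
    {F : Finset Edg} (h : R.trace hδ F ∈ EC s X (c * (X / 2) ^ s) θ η) :
    Cheap s 1 (c * ((⌊X / δ⌋ : ℤ) : ℝ) ^ s) (Vis (R.wired δ) ⌊X / δ⌋ F) := by
  obtain ⟨n, x, L, hL, hsum, hcov⟩ := h
  refine ⟨n, fun i => x i / δ, fun i => L i / δ, ?_, ?_, ?_⟩
  · intro i
    rw [one_le_div hδ]
    exact h1.trans (hL i)
  · rintro y ⟨k, hk0, hkm, rfl, hW⟩
    have hk1 : (k : ℝ) ≤ X / δ := (by exact_mod_cast hkm : (k : ℝ) ≤ (⌊X / δ⌋ : ℤ)).trans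
      (Int.floor_le _)
    have hkX : δ * k ≤ X := by
      rw [le_div_iff₀ hδ] at hk1; linarith
    have hkx : k ≤ R.x1 δ := by
      unfold x1
      have a1 : R.B / δ ≤ (⌈R.B / δ⌉ : ℝ) := Int.le_ceil _
      have a2 : 1 ≤ (R.B - X) / δ := by rw [one_le_div hδ]; exact h4
      rw [sub_div] at a2
      have : (k : ℝ) ≤ (⌈R.B / δ⌉ : ℝ) - 1 := by linarith
      exact_mod_cast this
    have hk0' : (0:ℝ) ≤ k := by exact_mod_cast hk0
    have hz := R.mem_path (δ := δ) (F := F) hk0 hkx hW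
    rcases hcov hz with h | h | h | h
    · obtain ⟨i, hi1, hi2⟩ := h
      simp only at hi1 hi2
      refine ⟨i, ?_, ?_⟩
      · rw [div_le_iff₀ hδ]; linarith
      · rw [← add_div, le_div_iff₀ hδ]; linarith
    · simp only at h
      rw [abs_of_pos (by positivity)] at h
      linarith
    · simp only at h
      have : 0 ≤ δ * (k : ℝ) := by positivity
      linarith
    · simp only at h
      linarith
  · have e1 : ∑ i, (L i / δ) ^ s = (∑ i, (L i) ^ s) / δ ^ s := by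
      rw [Finset.sum_div]
      apply Finset.sum_congr rfl
      intro i _
      have : 0 ≤ L i := by linarith [hL i]
      rw [Real.div_rpow this hδ.le]
    rw [e1]
    have hδs : 0 < δ ^ s := Real.rpow_pos_of_pos hδ _
    rw [div_lt_iff₀ hδs]
    refine hsum.trans_le ?_
    rw [mul_assoc]
    apply mul_le_mul_of_nonneg_left _ hc.le
    have a1 : X / δ < (⌊X / δ⌋ : ℝ) + 1 := Int.lt_floor_add_one _
    have a2 : 2 ≤ X / δ := by rw [le_div_iff₀ hδ]; exact h3
    have a3 : (0:ℝ) ≤ ((⌊X / δ⌋ : ℤ) : ℝ) := by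
      have : 1 < ((⌊X / δ⌋ : ℤ) : ℝ) := by linarith
      linarith
    rw [← Real.mul_rpow a3 hδ.le]
    apply Real.rpow_le_rpow (by positivity) _ hs
    have a4 : X / δ / 2 ≤ ((⌊X / δ⌋ : ℤ) : ℝ) := by linarith
    calc X / 2 = X / δ / 2 * δ := by field_simp
      _ ≤ _ := mul_le_mul_of_nonneg_right a4 hδ.le

/-- The probability of cheap covers, for the limit. -/
theorem EC_le : ∃ p : ℝ, 0 < p ∧ p ≤ 1 ∧ ∀ s : ℝ, 0 ≤ s → s < 2/3 → ∀ J : ℕ,
    ∃ c : ℝ, 0 < c ∧ ∀ (R : Rect) {ι : Type} {L : Filter ι} [NeBot L] {δ : ι → ℝ}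
    (hδ : ∀ i, 0 < δ i) (_ : Tendsto δ L (𝓝 0)) {μ : ProbabilityMeasure (NonemptyCompacts ℂ)}
    (_ : Tendsto (fun i => R.law (hδ i)) L (𝓝 μ)) (X : ℝ), 0 < X → 4 * X < R.L0 →
    ∀ θ η : ℝ, 0 < θ → 0 < η →
    (μ : Measure (NonemptyCompacts ℂ)) (EC s X (c * (X / 2) ^ s) θ η) ≤
      ENNReal.ofReal ((1 - p) ^ (J + 1)) := by
  obtain ⟨p, hp, hp1, h⟩ := content_tail
  refine ⟨p, hp, hp1, ?_⟩
  intro s hs hs1 J
  obtain ⟨c, hc, h⟩ := h s hs hs1 J
  refine ⟨c, hc, ?_⟩
  intro R ι L _ δ hδ hlim μ hμ X hX hX4 θ η hθ hη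
  apply R.open_le hδ hμ (isOpen_EC _ _ _ _ _)
  have hXB : X < R.B := by linarith [R.L0_B]
  have hpos : 0 < min (min η θ) (min (min (X / 2) (R.B - X))
      (min ((R.L0 - 4 * X) / 4) (X / (9 * 16 ^ J + 1)))) := by
    refine lt_min (lt_min hη hθ) (lt_min (lt_min (by positivity) (by linarith))
      (lt_min (by linarith) (by positivity)))
  filter_upwards [hlim.eventually_lt_const hpos] with i hi
  simp only [lt_min_iff] at hi
  obtain ⟨⟨i1, i2⟩, ⟨i3, i4⟩, i5, i6⟩ := hi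
  have hδi := hδ i
  set m : ℤ := ⌊X / δ i⌋ with hm
  have m1 : (m : ℝ) ≤ X / δ i := Int.floor_le _
  have m2 : X / δ i < m + 1 := Int.lt_floor_add_one _
  have hD := R.dob (δ := δ i) hδi (M := ⌊R.L0 / δ i⌋ - 3) le_rfl
  have hmM : 4 * m ≤ ⌊R.L0 / δ i⌋ - 3 := by
    have a1 : R.L0 / δ i < (⌊R.L0 / δ i⌋ : ℝ) + 1 := Int.lt_floor_add_one _
    have a2 : 4 ≤ (R.L0 - 4 * X) / δ i := by rw [le_div_iff₀ hδi]; linarith
    have a3 : (R.L0 - 4 * X) / δ i = R.L0 / δ i - 4 * (X / δ i) := by ring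
    have a4 : ((4 * m : ℤ) : ℝ) ≤ ((⌊R.L0 / δ i⌋ - 3 : ℤ) : ℝ) := by
      push_cast; linarith
    exact_mod_cast a4
  have hmJ : 9 * 16 ^ J ≤ m := by
    have a1 : (9 * 16 ^ J + 1 : ℝ) ≤ X / δ i := by
      rw [lt_div_iff₀ (by positivity)] at i6
      rw [le_div_iff₀ hδi]; linarith
    have a2 : ((9 * 16 ^ J : ℤ) : ℝ) ≤ (m : ℝ) := by push_cast; linarith
    exact_mod_cast a2
  refine le_trans ?_ (h _ _ _ hD m hmJ hmM)
  apply Q_mono
  intro F _ hF
  exact R.trace_cheap hs hX hXB hc hδi i1.le i2.le (by linarith) i4.le hF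

end Rect

/-- Sets of zero Hausdorff measure have cheap covers. -/
theorem null_cheap {s X c : ℝ} (hs : 0 < s) (hs1 : s ≤ 1) (hc : 0 < c)
    {K : NonemptyCompacts ℂ} (h0 : μH[s] (touch K ∩ Set.Icc 0 X) = 0) :
    ∃ n : ℕ, K ∈ EC s X c (1 / ((n : ℝ) + 1)) (1 / ((n : ℝ) + 1)) := by
  set I := touch K ∩ Set.Icc 0 X with hI
  have hKc : IsCompact (K : Set ℂ) := K.isCompact
  have hIc : IsCompact I := by
    have h1 : IsClosed (touch K) := by
      have : touch K = (fun y : ℝ => (y : ℂ)) ⁻¹' (K : Set ℂ) := rfl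
      rw [this]
      exact hKc.isClosed.preimage Complex.continuous_ofReal
    exact isCompact_Icc.inter_left h1
  -- a cover with small sum
  obtain ⟨t, ht1, ht2, ht3⟩ : ∃ t : ℕ → Set ℝ, I ⊆ ⋃ n, t n ∧ (∀ n, Metric.ediam (t n) ≤ 1) ∧
      ∑' n, ⨆ _ : (t n).Nonempty, Metric.ediam (t n) ^ s < ENNReal.ofReal (c / 8) := by
    have h1 : (⨅ (t : ℕ → Set ℝ) (_ : I ⊆ ⋃ n, t n) (_ : ∀ n, Metric.ediam (t n) ≤ 1),
        ∑' n, ⨆ _ : (t n).Nonempty, Metric.ediam (t n) ^ s) < ENNReal.ofReal (c / 8) := by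
      have h2 : (⨅ (t : ℕ → Set ℝ) (_ : I ⊆ ⋃ n, t n) (_ : ∀ n, Metric.ediam (t n) ≤ 1),
        ∑' n, ⨆ _ : (t n).Nonempty, Metric.ediam (t n) ^ s) ≤ μH[s] I := by
        rw [Measure.hausdorffMeasure_apply]
        exact le_iSup₂ (f := fun (r : ℝ≥0∞) (_ : 0 < r) => ⨅ (t : ℕ → Set ℝ)
          (_ : I ⊆ ⋃ n, t n) (_ : ∀ n, Metric.ediam (t n) ≤ r),
          ∑' n, ⨆ _ : (t n).Nonempty, Metric.ediam (t n) ^ s) 1 one_pos
      rw [h0] at h2
      exact lt_of_le_of_lt h2 (ENNReal.ofReal_pos.mpr (by positivity))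
    simp only [iInf_lt_iff] at h1
    obtain ⟨t, ht1, ht2, ht3⟩ := h1
    exact ⟨t, ht1, ht2, ht3⟩
  -- replace the sets by open intervals
  have hfin : ∀ n, Metric.ediam (t n) ≠ ⊤ := fun n =>
    ne_top_of_le_ne_top ENNReal.one_ne_top (ht2 n)
  set d : ℕ → ℝ := fun n => Metric.diam (t n) with hd
  have hd0 : ∀ n, 0 ≤ d n := fun n => Metric.diam_nonneg
  -- small errors
  set e : ℕ → ℝ := fun n => (c / 8 * (1/2) ^ (n + 1)) ^ (1 / s) / 2 with he
  have he0 : ∀ n, 0 < e n := fun n => by rw [he]; positivity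
  have hes : ∀ n, (2 * e n) ^ s = c / 8 * (1/2) ^ (n + 1) := by
    intro n
    have : 2 * e n = (c / 8 * (1/2) ^ (n + 1)) ^ (1 / s) := by rw [he]; ring
    rw [this, ← Real.rpow_mul (by positivity), one_div_mul_cancel hs.ne', Real.rpow_one]
  classical
  set y : ℕ → ℝ := fun n => if h : (t n).Nonempty then h.choose else 0 with hy
  have hty : ∀ n, ∀ z ∈ t n, |z - y n| ≤ d n := by
    intro n z hz
    have hne : (t n).Nonempty := ⟨z, hz⟩
    have h1 : y n ∈ t n := by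
      rw [hy]; simp only; rw [dif_pos hne]; exact hne.choose_spec
    rw [← Real.dist_eq]
    exact Metric.dist_le_diam_of_mem' (hfin n) hz h1
  -- partial sums
  have hsum : ∀ S : Finset ℕ, (∀ n ∈ S, (t n).Nonempty) → ∑ n ∈ S, (2 * (d n + e n)) ^ s < c := by
    intro S hS
    have h1 : ∀ n ∈ S, (2 * (d n + e n)) ^ s ≤ 2 * (d n) ^ s + (2 * e n) ^ s := by
      intro n _
      rw [mul_add]
      have h2 : (2 * d n + 2 * e n) ^ s ≤ (2 * d n) ^ s + (2 * e n) ^ s :=
        Real.rpow_add_le_add_rpow (by have := hd0 n; positivity) (by have := he0 n; positivity)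
          hs.le hs1
      have h3 : (2 * d n) ^ s ≤ 2 * (d n) ^ s := by
        rw [Real.mul_rpow (by norm_num) (hd0 n)]
        apply mul_le_mul_of_nonneg_right _ (Real.rpow_nonneg (hd0 n) _)
        calc (2:ℝ) ^ s ≤ (2:ℝ) ^ (1:ℝ) := Real.rpow_le_rpow_of_exponent_le (by norm_num) hs1
          _ = 2 := Real.rpow_one _
      linarith
    have h2 : ∑ n ∈ S, (d n) ^ s < c / 8 := by
      have h3 : ENNReal.ofReal (∑ n ∈ S, (d n) ^ s) < ENNReal.ofReal (c / 8) := by
        rw [ENNReal.ofReal_sum_of_nonneg (fun n _ => Real.rpow_nonneg (hd0 n) _)]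
        refine lt_of_le_of_lt ?_ ht3
        refine le_trans ?_ (ENNReal.sum_le_tsum S)
        apply Finset.sum_le_sum
        intro n hn
        have h4 : ENNReal.ofReal ((d n) ^ s) = Metric.ediam (t n) ^ s := by
          rw [hd]
          simp only
          rw [Metric.diam, ENNReal.toReal_rpow, ENNReal.ofReal_toReal]
          exact ENNReal.rpow_ne_top_of_nonneg hs.le (hfin n)
        rw [h4, iSup_pos (hS n hn)]
      exact (ENNReal.ofReal_lt_ofReal_iff (by positivity)).mp h3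
    have h3 : ∑ n ∈ S, (2 * e n) ^ s ≤ c / 8 := by
      rw [Finset.sum_congr rfl (fun n _ => hes n), ← Finset.mul_sum]
      have h4 : ∑ n ∈ S, ((1:ℝ)/2) ^ (n + 1) ≤ 1 := by
        have hsm : Summable (fun n : ℕ => ((1:ℝ)/2) ^ (n + 1)) := by
          have := (summable_geometric_of_lt_one (r := (1:ℝ)/2) (by norm_num) (by norm_num))
          exact (summable_nat_add_iff 1).mpr this
        have h5 := hsm.sum_le_tsum S (fun n _ => by positivity)
        have h6 : ∑' n : ℕ, ((1:ℝ)/2) ^ (n + 1) = 1 := by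
          have : (fun n : ℕ => ((1:ℝ)/2) ^ (n + 1)) = fun n : ℕ => (1/2) * ((1:ℝ)/2) ^ n := by
            funext n; ring
          rw [this, tsum_mul_left, tsum_geometric_of_lt_one (by norm_num) (by norm_num)]
          norm_num
        linarith
      have : c / 8 * ∑ n ∈ S, ((1:ℝ)/2) ^ (n + 1) ≤ c / 8 * 1 :=
        mul_le_mul_of_nonneg_left h4 (by positivity)
      linarith
    calc ∑ n ∈ S, (2 * (d n + e n)) ^ s ≤ ∑ n ∈ S, (2 * (d n) ^ s + (2 * e n) ^ s) :=
          Finset.sum_le_sum h1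
      _ = 2 * ∑ n ∈ S, (d n) ^ s + ∑ n ∈ S, (2 * e n) ^ s := by
          rw [Finset.sum_add_distrib, Finset.mul_sum]
      _ < c := by linarith
  -- finite subcover
  obtain ⟨S0, hS0⟩ := hIc.elim_finite_subcover
    (fun n => if (t n).Nonempty then Set.Ioo (y n - d n - e n) (y n + d n + e n) else ∅)
    (by
      intro n
      split_ifs
      · exact isOpen_Ioo
      · exact isOpen_empty)
    (by
      intro z hz
      obtain ⟨n, hn⟩ := Set.mem_iUnion.mp (ht1 hz)
      rw [Set.mem_iUnion]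
      refine ⟨n, ?_⟩
      rw [if_pos ⟨z, hn⟩]
      have h1 := abs_le.mp (hty n z hn)
      have h2 := he0 n
      constructor <;> linarith)
  set S := S0.filter (fun n => (t n).Nonempty) with hS
  have hcov : ∀ z ∈ I, ∃ n ∈ S, y n - d n - e n < z ∧ z < y n + d n + e n := by
    intro z hz
    have h1 := hS0 hz
    rw [Set.mem_iUnion₂] at h1
    obtain ⟨n, hn, hn2⟩ := h1
    by_cases hne : (t n).Nonempty
    · rw [if_pos hne] at hn2
      exact ⟨n, Finset.mem_filter.mpr ⟨hn, hne⟩, hn2.1, hn2.2⟩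
    · rw [if_neg hne] at hn2
      exact absurd hn2 (Set.notMem_empty _)
  -- enumerate
  set eq := S.equivFin.symm with heq
  set x : Fin S.card → ℝ := fun i => y (eq i) - d (eq i) - e (eq i) with hx
  set Ln : Fin S.card → ℝ := fun i => 2 * (d (eq i) + e (eq i)) with hLn
  have hL0 : ∀ i, 0 < Ln i := fun i => by
    rw [hLn]; have := hd0 (eq i); have := he0 (eq i); positivity
  have hsumL : ∑ i, (Ln i) ^ s < c := by
    have h1 : ∑ i, (Ln i) ^ s = ∑ n ∈ S, (2 * (d n + e n)) ^ s := by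
      rw [← Finset.sum_coe_sort S (fun n => (2 * (d n + e n)) ^ s)]
      exact Fintype.sum_equiv eq _ _ (fun i => rfl)
    rw [h1]
    exact hsum S (fun n hn => (Finset.mem_filter.mp hn).2)
  -- minimal length
  obtain ⟨η, hη0, hη⟩ : ∃ η : ℝ, 0 < η ∧ ∀ i, η ≤ Ln i := by
    rcases Nat.eq_zero_or_pos S.card with h | h
    · refine ⟨1, one_pos, fun i => ?_⟩
      have := i.2
      omega
    · haveI : Nonempty (Fin S.card) := ⟨⟨0, h⟩⟩
      obtain ⟨i0, hi0⟩ := Finite.exists_min Ln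
      exact ⟨Ln i0, hL0 i0, hi0⟩
  -- distance of the uncovered part from the real line
  obtain ⟨θ, hθ0, hθ⟩ : ∃ θ : ℝ, 0 < θ ∧ (K : Set ℂ) ⊆ OC X θ x Ln := by
    set V : Set ℂ := {z | (∃ i, x i < z.re ∧ z.re < x i + Ln i) ∨ z.re < 0 ∨ X < z.re} with hV
    have hVo : IsOpen V := by
      have e1 : V = (⋃ i, {z : ℂ | x i < z.re ∧ z.re < x i + Ln i}) ∪
          ({z : ℂ | z.re < 0} ∪ {z : ℂ | X < z.re}) := by
        ext z
        simp only [hV, Set.mem_ofPred_eq, Set.mem_union, Set.mem_iUnion]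
      rw [e1]
      refine (isOpen_iUnion fun i => ?_).union
        ((isOpen_lt Complex.continuous_re continuous_const).union
          (isOpen_lt continuous_const Complex.continuous_re))
      exact (isOpen_lt continuous_const Complex.continuous_re).inter
        (isOpen_lt Complex.continuous_re continuous_const)
    have hKV : IsCompact ((K : Set ℂ) \ V) := hKc.diff hVo
    rcases ((K : Set ℂ) \ V).eq_empty_or_nonempty with hemp | hne
    · refine ⟨1, one_pos, ?_⟩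
      intro z hz
      by_cases hzV : z ∈ V
      · rcases hzV with h | h | h
        · exact Or.inl h
        · exact Or.inr (Or.inr (Or.inl h))
        · exact Or.inr (Or.inr (Or.inr h))
      · have : z ∈ (K : Set ℂ) \ V := ⟨hz, hzV⟩
        rw [hemp] at this
        exact absurd this (Set.notMem_empty _)
    · obtain ⟨z0, hz0, hz1⟩ := hKV.exists_isMinOn hne
        (show Continuous (fun z : ℂ => |z.im|) by fun_prop).continuousOn
      have hz0im : 0 < |z0.im| := by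
        rw [abs_pos]
        intro h
        have h1 : z0 = ((z0.re : ℝ) : ℂ) := by
          apply Complex.ext <;> simp [h]
        have hV0 := hz0.2
        simp only [hV, Set.mem_ofPred_eq, not_or, not_lt] at hV0
        have h2 : z0.re ∈ I := by
          refine ⟨?_, hV0.2.1, hV0.2.2⟩
          show ((z0.re : ℝ) : ℂ) ∈ K
          rw [← h1]
          exact hz0.1
        obtain ⟨n, hn, hn1, hn2⟩ := hcov _ h2
        apply hV0.1
        refine ⟨S.equivFin ⟨n, hn⟩, ?_, ?_⟩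
        · simp only [hx, heq, Equiv.symm_apply_apply]
          exact hn1
        · simp only [hx, hLn, heq, Equiv.symm_apply_apply]
          linarith
      refine ⟨|z0.im| / 2, by positivity, ?_⟩
      intro z hz
      by_cases hzV : z ∈ V
      · rcases hzV with h | h | h
        · exact Or.inl h
        · exact Or.inr (Or.inr (Or.inl h))
        · exact Or.inr (Or.inr (Or.inr h))
      · right; left
        have h2 : |z0.im| ≤ |z.im| := hz1 ⟨hz, hzV⟩
        linarith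
  obtain ⟨n, hn⟩ := exists_nat_one_div_lt (lt_min hη0 hθ0)
  refine ⟨n, EC_mono (hn.trans_le (min_le_right _ _)).le (hn.trans_le (min_le_left _ _)).le ?_⟩
  exact ⟨S.card, x, Ln, hη, hsumL, hθ⟩

namespace Rect

variable (R : Rect)

section

variable {ι : Type} {L : Filter ι} [NeBot L] {δ : ι → ℝ} (hδ : ∀ i, 0 < δ i)
  (hlim : Tendsto δ L (𝓝 0))
  {μ : ProbabilityMeasure (NonemptyCompacts ℂ)}
  (hμ : Tendsto (fun i => R.law (hδ i)) L (𝓝 μ))

include hlim hμ

theorem ae_not_null {s X : ℝ} (hs : 0 < s) (hs1 : s < 2/3) (hX : 0 < X) (hX4 : 4 * X < R.L0) :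
    ∀ᵐ K ∂(μ : Measure (NonemptyCompacts ℂ)), μH[s] (touch K ∩ Set.Icc 0 X) ≠ 0 := by
  obtain ⟨p, hp, hp1, h⟩ := EC_le
  rw [ae_iff]
  simp only [not_not]
  have key : ∀ J : ℕ, (μ : Measure (NonemptyCompacts ℂ))
      {K | μH[s] (touch K ∩ Set.Icc 0 X) = 0} ≤ ENNReal.ofReal ((1 - p) ^ (J + 1)) := by
    intro J
    obtain ⟨c, hc, h2⟩ := h s hs.le hs1 J
    have hc' : 0 < c * (X / 2) ^ s := by positivity
    have hsub : {K : NonemptyCompacts ℂ | μH[s] (touch K ∩ Set.Icc 0 X) = 0} ⊆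
        ⋃ n : ℕ, EC s X (c * (X / 2) ^ s) (1 / ((n : ℝ) + 1)) (1 / ((n : ℝ) + 1)) := by
      intro K hK
      rw [Set.mem_iUnion]
      exact null_cheap hs (by linarith) hc' hK
    refine (measure_mono hsub).trans ?_
    have hmono : Monotone (fun n : ℕ =>
        EC s X (c * (X / 2) ^ s) (1 / ((n : ℝ) + 1)) (1 / ((n : ℝ) + 1))) := by
      intro a b hab
      have : 1 / ((b : ℝ) + 1) ≤ 1 / ((a : ℝ) + 1) := Nat.one_div_le_one_div hab
      exact EC_mono this this
    rw [hmono.measure_iUnion]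
    apply iSup_le
    intro n
    exact h2 R hδ hlim hμ X hX hX4 _ _ (by positivity) (by positivity)
  have hlim0 : Tendsto (fun J : ℕ => ENNReal.ofReal ((1 - p) ^ (J + 1))) atTop (𝓝 0) := by
    rw [← ENNReal.ofReal_zero]
    apply ENNReal.tendsto_ofReal
    exact (tendsto_pow_atTop_nhds_zero_of_lt_one (by linarith) (by linarith)).comp
      (tendsto_add_atTop_nat 1)
  exact le_antisymm (ge_of_tendsto' hlim0 key) bot_le

/-- Lower bound for the dimension. -/
theorem ae_le_dim : ∀ᵐ K ∂(μ : Measure (NonemptyCompacts ℂ)), ∀ x : ℝ, 0 < x →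
    ((2/3 : NNReal) : ℝ≥0∞) ≤ dimH (touch K ∩ Set.Ico 0 x) := by
  have h1 : ∀ n m : ℕ, ∀ᵐ K ∂(μ : Measure (NonemptyCompacts ℂ)),
      μH[((2/3 - 1 / ((m : NNReal) + 2) : NNReal) : ℝ)]
        (touch K ∩ Set.Icc 0 (R.L0 / 8 / ((n : ℝ) + 1))) ≠ 0 := by
    intro n m
    have hm : (1 / ((m : NNReal) + 2) : NNReal) < 2/3 := by
      have h3 : (1 / ((m : ℝ) + 2)) < 2/3 := by
        rw [div_lt_div_iff₀ (by positivity) (by norm_num)]
        have : (0:ℝ) ≤ m := Nat.cast_nonneg _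
        linarith
      rw [← NNReal.coe_lt_coe]
      push_cast
      exact h3
    have hm2 : ((2/3 - 1 / ((m : NNReal) + 2) : NNReal) : ℝ) = 2/3 - 1 / ((m : ℝ) + 2) := by
      rw [NNReal.coe_sub hm.le]
      push_cast
      rfl
    rw [hm2]
    have hm3 : (1 / ((m : ℝ) + 2)) < 2/3 := by
      rw [div_lt_div_iff₀ (by positivity) (by norm_num)]
      have : (0:ℝ) ≤ m := Nat.cast_nonneg _
      linarith
    have hL := R.L0_pos
    apply R.ae_not_null hδ hlim hμ
    · linarith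
    · have : 0 < 1 / ((m : ℝ) + 2) := by positivity
      linarith
    · positivity
    · have : R.L0 / 8 / ((n : ℝ) + 1) ≤ R.L0 / 8 :=
        div_le_self (by positivity) (by linarith [Nat.cast_nonneg (α := ℝ) n])
      linarith
  have h1' := ae_all_iff.mpr (fun n => ae_all_iff.mpr (h1 n))
  filter_upwards [h1'] with K hK
  intro x hx
  have hL := R.L0_pos
  obtain ⟨n, hn⟩ := exists_nat_one_div_lt (show (0:ℝ) < x / (R.L0 / 8) by positivity)
  have hsub : touch K ∩ Set.Icc 0 (R.L0 / 8 / ((n : ℝ) + 1)) ⊆ touch K ∩ Set.Ico 0 x := by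
    rintro y ⟨hy1, hy2, hy3⟩
    refine ⟨hy1, hy2, lt_of_le_of_lt hy3 ?_⟩
    rw [lt_div_iff₀ (by positivity)] at hn
    calc R.L0 / 8 / ((n : ℝ) + 1) = 1 / ((n : ℝ) + 1) * (R.L0 / 8) := by ring
      _ < x := hn
  refine le_trans ?_ (dimH_mono hsub)
  apply le_of_forall_lt
  intro a ha
  have hat : a ≠ ⊤ := ne_top_of_lt ha
  lift a to NNReal using hat
  have ha' : a < (2/3 : NNReal) := by exact_mod_cast ha
  have ha2 : (0:ℝ) < 2/3 - (a : ℝ) := by
    have : (a : ℝ) < ((2/3 : NNReal) : ℝ) := by exact_mod_cast ha'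
    push_cast at this
    linarith
  obtain ⟨m, hm⟩ := exists_nat_one_div_lt ha2
  have h3 : (a : ℝ≥0∞) < ((2/3 - 1 / ((m : NNReal) + 2) : NNReal) : ℝ≥0∞) := by
    have h4 : (a : ℝ) < ((2/3 - 1 / ((m : NNReal) + 2) : NNReal) : ℝ) := by
      have h5 : (1 / ((m : ℝ) + 2)) < 1 / ((m : ℝ) + 1) := by
        apply one_div_lt_one_div_of_lt (by positivity); linarith
      have h6 : ((2/3 : NNReal) : ℝ) - ((1 / ((m : NNReal) + 2) : NNReal) : ℝ) ≤
          ((2/3 - 1 / ((m : NNReal) + 2) : NNReal) : ℝ) := by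
        rw [NNReal.coe_sub_def]
        exact le_max_left _ _
      push_cast at h6
      linarith
    exact_mod_cast h4
  exact h3.trans_le (le_dimH_of_hausdorffMeasure_ne_zero (hK n m))

end

end Rect

end H934E
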