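import Pool.Agent.H934R2.Expl.Model

/-!
The rectangle is a Dobrushin domain with a flat boundary near the end point; estimates for the
trace.
-/

set_option maxHeartbeats 400000

namespace H934E

open H974 H973 Finset MeasureTheory TopologicalSpace Filter Topology

namespace Rect

variable (R : Rect)

/-- Distance from the end point `b = 0` to the other sides. -/
noncomputable def L0 : ℝ := min R.A (min R.B R.H)

theorem L0_pos : 0 < R.L0 := lt_min R.hA (lt_min R.hB R.hH)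
theorem L0_A : R.L0 ≤ R.A := min_le_left _ _
theorem L0_B : R.L0 ≤ R.B := (min_le_right _ _).trans (min_le_left _ _)
theorem L0_H : R.L0 ≤ R.H := (min_le_right _ _).trans (min_le_right _ _)

theorem dob {δ : ℝ} (hδ : 0 < δ) {M : ℤ} (hM : M ≤ ⌊R.L0 / δ⌋ - 3) :
    Dob M (R.verts δ) (R.wired δ) := by
  have h1 : M + 3 ≤ R.x1 δ + 1 := by
    unfold x1
    have : ⌊R.L0 / δ⌋ ≤ ⌈R.B / δ⌉ :=
      (Int.floor_le_ceil _).trans (Int.ceil_le_ceil (div_le_div_of_nonneg_right R.L0_B hδ.le))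
    omega
  have h2 : M + 3 ≤ R.y1 δ + 2 := by
    unfold y1
    have : ⌊R.L0 / δ⌋ ≤ ⌈R.H / δ⌉ :=
      (Int.floor_le_ceil _).trans (Int.ceil_le_ceil (div_le_div_of_nonneg_right R.L0_H hδ.le))
    omega
  have h3 : R.x0 δ + M + 2 ≤ 0 := by
    unfold x0
    have : ⌊R.L0 / δ⌋ ≤ ⌈R.A / δ⌉ :=
      (Int.floor_le_ceil _).trans (Int.ceil_le_ceil (div_le_div_of_nonneg_right R.L0_A hδ.le))
    rw [Int.floor_neg]
    omega
  constructor
  · intro v hv
    rw [mem_BX] at hv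
    rw [mem_verts']
    simp only at hv
    omega
  · intro x hx hx0
    right; right
    refine ⟨rfl, rfl, ?_, hx0⟩
    simp only
    omega
  · intro e he hE
    rw [mem_ES, mem_BX, mem_BX] at hE
    have e1 : (src e).1 = e.1 := rfl
    have e2 : (src e).2 = e.2.1 := rfl
    simp only at hE
    rcases he with he | he | he
    · omega
    · omega
    · exact ⟨he.2.1, he.1, he.2.2.2⟩

theorem freeR {δ : ℝ} {k r : ℤ} (hr : r ≤ k) (hk : k + r ≤ R.x1 δ) (hy : r < R.y1 δ)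
    (hx : R.x0 δ < 0) : Free k r (R.verts δ) (R.wired δ) := by
  constructor
  · intro v hv
    rw [mem_BX] at hv
    rw [mem_verts']
    simp only at hv
    omega
  · intro e he hE
    rw [mem_ES, mem_BX, mem_BX] at hE
    have e1 : (src e).1 = e.1 := rfl
    have e2 : (src e).2 = e.2.1 := rfl
    simp only at hE
    rcases he with he | he | he <;> omega

/-- Vertices of the cluster have nonnegative second coordinate. -/
theorem clu_nonneg {δ : ℝ} (hy : 0 ≤ R.y1 δ) {F : Finset Edg} (hF : F ⊆ R.edges δ) {v : Vtx}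
    (hv : W (R.wired δ) F v) : 0 ≤ v.2 := by
  refine reach_nonneg (G := (↑F ∪ R.wired δ : Set Edg)) ?_ le_rfl hv
  rintro e (he | he)
  · have h := (mem_ES.mp (hF (Finset.mem_coe.mp he))).1
    rw [mem_verts'] at h
    exact h.2.1
  · rcases he with he | he | he <;> omega

/-- The open box around the boundary point `x`. -/
def UU (x ε : ℝ) : Set ℂ := {z | |z.re - x| < ε ∧ |z.im| < ε}

theorem isOpen_UU (x ε : ℝ) : IsOpen (UU x ε) := by
  have h1 : Continuous (fun z : ℂ => |z.re - x|) := by fun_prop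
  have h2 : Continuous (fun z : ℂ => |z.im|) := by fun_prop
  exact (isOpen_lt h1 continuous_const).inter (isOpen_lt h2 continuous_const)

/-- Upper bound for the probability that the path comes close to a boundary point. -/
theorem hitU_le : ∃ C : ℝ, 0 < C ∧ ∀ (R : Rect) (x ρ ε : ℝ), 0 < ρ → ρ ≤ x → ρ ≤ R.B - x →
    ρ ≤ R.H → 0 < ε → 8 * ε ≤ ρ → ∀ (δ : ℝ) (hδ : 0 < δ), 16 * δ ≤ ε → δ < R.A →
    Q (R.edges δ) (fun F => (R.path δ F ∩ UU x ε).Nonempty) ≤ C * (ε / ρ) ^ ((1:ℝ)/3) := by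
  obtain ⟨C, hC, h⟩ := hit_le
  refine ⟨3 * C, by positivity, ?_⟩
  intro R x ρ ε hρ h1 h2 h3 hε h8 δ hδ h16 hA
  set k : ℤ := ⌊x / δ⌋ with hk
  set r : ℤ := ⌈3 * ε / δ⌉ with hr
  set S : ℤ := ⌊ρ / (2 * δ)⌋ with hS
  have hδ' : δ ≤ ε := by linarith
  have k1 : (k : ℝ) ≤ x / δ := Int.floor_le _
  have k2 : x / δ < k + 1 := Int.lt_floor_add_one _
  have r1 : 3 * ε / δ ≤ r := Int.le_ceil _
  have r2 : (r : ℝ) < 3 * ε / δ + 1 := Int.ceil_lt_add_one _
  have S1 : (S : ℝ) ≤ ρ / (2 * δ) := Int.floor_le _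
  have S2 : ρ / (2 * δ) < S + 1 := Int.lt_floor_add_one _
  have q1 : 16 ≤ ε / δ := by rw [le_div_iff₀ hδ]; exact h16
  have q2 : 8 * (ε / δ) ≤ ρ / δ := by
    rw [← mul_div_assoc]; exact div_le_div_of_nonneg_right h8 hδ.le
  have q3 : ρ / (2 * δ) = (ρ / δ) / 2 := by field_simp
  have q4 : 3 * ε / δ = 3 * (ε / δ) := by ring
  have q5 : ρ / δ ≤ x / δ := div_le_div_of_nonneg_right h1 hδ.le
  have q6 : ρ / δ ≤ R.B / δ - x / δ := by
    rw [← sub_div]; exact div_le_div_of_nonneg_right h2 hδ.le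
  have q7 : ρ / δ ≤ R.H / δ := div_le_div_of_nonneg_right h3 hδ.le
  rw [q3] at S1 S2
  rw [q4] at r1 r2
  have hr1 : 1 ≤ r := by
    have : (0:ℝ) < r := by linarith
    exact_mod_cast this
  have hrS : r ≤ S := by
    have : (r : ℝ) < S := by linarith
    exact_mod_cast this.le
  have hSk : S ≤ k := by
    have : (S : ℝ) < k := by linarith
    exact_mod_cast this.le
  have hx1 : k + S ≤ R.x1 δ := by
    have a1 : R.B / δ ≤ (⌈R.B / δ⌉ : ℝ) := Int.le_ceil _
    have : (k : ℝ) + S ≤ (⌈R.B / δ⌉ : ℝ) - 1 := by linarith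
    unfold x1
    exact_mod_cast this
  have hy1 : S < R.y1 δ := by
    have a1 : R.H / δ ≤ (⌈R.H / δ⌉ : ℝ) := Int.le_ceil _
    have : (S : ℝ) < (⌈R.H / δ⌉ : ℝ) - 2 := by linarith
    unfold y1
    exact_mod_cast this
  have hx0 : R.x0 δ < 0 := by
    unfold x0
    rw [Int.floor_neg]
    have : 1 < ⌈R.A / δ⌉ := by
      rw [Int.lt_ceil]
      push_cast
      rw [lt_div_iff₀ hδ]
      linarith
    omega
  have hfree := R.freeR (δ := δ) hSk hx1 hy1 hx0
  have key := h (R.verts δ) (R.wired δ) k r S hfree hr1 hrS hSk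
  have i1 : Q (R.edges δ) (fun F => (R.path δ F ∩ UU x ε).Nonempty) ≤
      Q (ES (R.verts δ)) (WB (R.wired δ) k r) := by
    apply Q_mono
    rintro F hF ⟨z, hz1, hz2, hz3⟩
    obtain ⟨v, hv, hv1, hv2⟩ := R.path_near hδ hz1
    have hv0 := R.clu_nonneg (by omega) hF hv
    refine ⟨v, ?_, hv⟩
    have a1 : |(v.1 : ℝ) - x / δ| < ε / δ + 1 := by
      have : |δ * (v.1 : ℝ) - x| < ε + δ := by
        calc |δ * (v.1 : ℝ) - x| = |(z.re - x) - (z.re - δ * v.1)| := by congr 1; ring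
          _ ≤ |z.re - x| + |z.re - δ * v.1| := abs_sub _ _
          _ < ε + δ := by linarith
      have e1 : (v.1 : ℝ) - x / δ = (δ * (v.1 : ℝ) - x) / δ := by field_simp
      rw [e1, abs_div, abs_of_pos hδ, div_lt_iff₀ hδ]
      have : (ε / δ + 1) * δ = ε + δ := by field_simp
      linarith
    have a2 : ((v.2 : ℝ) + 1) < ε / δ + 1 := by
      have : δ * ((v.2 : ℝ) + 1) < ε + δ := by
        have b1 := (abs_lt.mp hz3).2
        have b2 := (abs_le.mp hv2).1
        linarith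
      have e1 : (v.2 : ℝ) + 1 = (δ * ((v.2 : ℝ) + 1)) / δ := by field_simp
      rw [e1, div_lt_iff₀ hδ]
      have : (ε / δ + 1) * δ = ε + δ := by field_simp
      linarith
    rw [abs_lt] at a1
    have b1 : ((k - r : ℤ) : ℝ) ≤ v.1 := by push_cast; linarith
    have b2 : (v.1 : ℝ) ≤ ((k + r : ℤ) : ℝ) := by push_cast; linarith
    have b3 : (v.2 : ℝ) ≤ r := by linarith
    exact ⟨⟨by exact_mod_cast b1, by exact_mod_cast b2⟩, hv0, by exact_mod_cast b3⟩
  refine i1.trans (key.trans ?_)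
  have hS0 : (0:ℝ) < S := by exact_mod_cast (show (0:ℤ) < S by omega)
  have hr0 : (0:ℝ) ≤ r := by exact_mod_cast (show (0:ℤ) ≤ r by omega)
  have e1 : th r / th S = ((r : ℝ) / S) ^ ((1:ℝ)/3) := by
    unfold th
    rw [Real.div_rpow hr0 hS0.le]
  rw [e1]
  have e2 : (r : ℝ) / S ≤ 16 * (ε / ρ) := by
    rw [div_le_iff₀ hS0]
    have c1 : ρ / δ / 4 ≤ S := by linarith
    have c2 : (r : ℝ) ≤ 4 * (ε / δ) := by linarith
    calc (r : ℝ) ≤ 4 * (ε / δ) := c2
      _ = 16 * (ε / ρ) * (ρ / δ / 4) := by field_simp; norm_num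
      _ ≤ 16 * (ε / ρ) * S := mul_le_mul_of_nonneg_left c1 (by positivity)
  have e3 : ((r : ℝ) / S) ^ ((1:ℝ)/3) ≤ 3 * (ε / ρ) ^ ((1:ℝ)/3) := by
    calc ((r : ℝ) / S) ^ ((1:ℝ)/3) ≤ (16 * (ε / ρ)) ^ ((1:ℝ)/3) :=
          Real.rpow_le_rpow (by positivity) e2 (by norm_num)
      _ = (16:ℝ) ^ ((1:ℝ)/3) * (ε / ρ) ^ ((1:ℝ)/3) := Real.mul_rpow (by norm_num) (by positivity)
      _ ≤ _ := by
          apply mul_le_mul_of_nonneg_right _ (by positivity)
          have : (16:ℝ) ^ ((1:ℝ)/3) ≤ (27:ℝ) ^ ((1:ℝ)/3) :=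
            Real.rpow_le_rpow (by norm_num) (by norm_num) (by norm_num)
          have e27 : (27:ℝ) ^ ((1:ℝ)/3) = 3 := by
            rw [show (27:ℝ) = 3 ^ (3:ℝ) by norm_num, ← Real.rpow_mul (by norm_num)]
            norm_num
          linarith
  calc C * ((r : ℝ) / S) ^ ((1:ℝ)/3) ≤ C * (3 * (ε / ρ) ^ ((1:ℝ)/3)) :=
        mul_le_mul_of_nonneg_left e3 hC.le
    _ = _ := by ring

end Rect

end H934E
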