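import Pool.Agent.H934R2.Expl.Content

/-!
Lower tails for the set of visited boundary vertices, uniformly over Dobrushin domains with a flat
boundary near the end point.
-/

set_option maxHeartbeats 400000

namespace H934E

open H974 H973 Finset

/-- The starting scale. -/
theorem scale_start {J : ℕ} {m : ℤ} (hm : 9 * 16 ^ J ≤ m) :
    ∃ u : ℤ, 1 ≤ u ∧ 9 * us u J ≤ m ∧ m ≤ 18 * 16 ^ J * u := by
  have hP : (0:ℤ) < 9 * 16 ^ J := by positivity
  refine ⟨m / (9 * 16 ^ J), ?_, ?_, ?_⟩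
  · rw [Int.le_ediv_iff_mul_le hP]; linarith
  · unfold us
    have := Int.ediv_mul_le m hP.ne'
    linarith
  · have h1 := Int.lt_ediv_add_one_mul_self m hP
    have h2 : 1 ≤ m / (9 * 16 ^ J) := by
      rw [Int.le_ediv_iff_mul_le hP]; linarith
    nlinarith

theorem Q_S_sub {M : ℤ} {T : Finset Vtx} {A : Set Edg} (h : Dob M T A) {R : ℤ} (hR : R ≤ M) :
    ES (HK 0 R) ⊆ ES T := by
  rw [ES_HK]
  exact (RE_subset (by omega) (by omega) le_rfl hR).trans (RE_sub h.flat)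

/-- Uniform lower tail for the content of the visited set. -/
theorem content_tail : ∃ p : ℝ, 0 < p ∧ p ≤ 1 ∧ ∀ s : ℝ, 0 ≤ s → s < 2/3 → ∀ J : ℕ,
    ∃ c : ℝ, 0 < c ∧ ∀ (M : ℤ) (T : Finset Vtx) (A : Set Edg), Dob M T A → ∀ m : ℤ,
      9 * 16 ^ J ≤ m → 4 * m ≤ M →
      Q (ES T) (fun F => Cheap s 1 (c * (m : ℝ) ^ s) (Vis A m F)) ≤ (1 - p) ^ (J + 1) := by
  obtain ⟨a, p, ha, hp, h⟩ := pr_Gd
  have hp1 : p ≤ 1 := by
    obtain ⟨b, hb, h2⟩ := h 0 le_rfl (by norm_num)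
    exact (h2 1 le_rfl _ (Finset.Subset.refl _)).trans (Q_le_one _ _)
  refine ⟨p, hp, hp1, ?_⟩
  intro s hs hs1 J
  obtain ⟨b, hb, h2⟩ := h s hs hs1
  have hK : (0:ℝ) < 18 * 16 ^ J := by positivity
  refine ⟨a / 2 / (1 + 2 * b / a) / (18 * 16 ^ J) ^ s, by positivity, ?_⟩
  intro M T A hD m hm hM
  obtain ⟨u, hu, hu2, hu3⟩ := scale_start hm
  have husJ := us_pos hu J
  refine le_trans ?_ (pr_NG hp1 h2 hu J (ES T) (Q_S_sub hD (by omega)))
  apply Q_mono
  intro F _ hF j hj hG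
  have huj := us_mono hu hj
  refine Gd_content hs hs1.le ha hb hD (us_pos hu j) (by omega) (by omega) hG (hF.mono_c ?_)
  have hmr : (0:ℝ) ≤ m := by
    have : (0:ℤ) ≤ m := by omega
    exact_mod_cast this
  have e1 : a / 2 / (1 + 2 * b / a) / (18 * 16 ^ J) ^ s * (m : ℝ) ^ s =
      a / 2 / (1 + 2 * b / a) * ((m : ℝ) / (18 * 16 ^ J)) ^ s := by
    rw [Real.div_rpow hmr hK.le]
    ring
  rw [e1]
  apply mul_le_mul_of_nonneg_left _ (by positivity)
  apply Real.rpow_le_rpow (by positivity) _ hs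
  rw [div_le_iff₀ hK]
  have h3 : u ≤ us u j := by
    have := us_mono hu (Nat.zero_le j)
    unfold us at this ⊢
    simpa using this
  have h4 : (m : ℝ) ≤ 18 * 16 ^ J * (u : ℝ) := by exact_mod_cast hu3
  have h5 : (u : ℝ) ≤ ((us u j : ℤ) : ℝ) := by exact_mod_cast h3
  have h6 : (18 * 16 ^ J : ℝ) * u ≤ 18 * 16 ^ J * ((us u j : ℤ) : ℝ) :=
    mul_le_mul_of_nonneg_left h5 hK.le
  linarith

/-- Number of visited boundary vertices `(k, 0)` with `0 ≤ k ≤ m`. -/
noncomputable def VN (A : Set Edg) (m : ℤ) (F : Finset Edg) : ℝ :=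
  ∑ k ∈ Finset.Icc 0 m, ind (W A F (k, 0))

theorem one_le_VN {A : Set Edg} {m : ℤ} (hm : 0 ≤ m) (F : Finset Edg) : 1 ≤ VN A m F := by
  unfold VN
  have h0 : (0:ℤ) ∈ Finset.Icc 0 m := by rw [Finset.mem_Icc]; omega
  rw [← Finset.add_sum_erase _ _ h0]
  have h1 : ind (W A F (0, 0)) = 1 := ind_of (Reach.refl _ _)
  rw [h1]
  have : 0 ≤ ∑ k ∈ (Finset.Icc 0 m).erase 0, ind (W A F (k, 0)) :=
    Finset.sum_nonneg (fun _ _ => ind_nonneg _)
  linarith

/-- Uniform lower tail for the number of visited vertices. -/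
theorem count_tail : ∃ p c : ℝ, 0 < p ∧ p ≤ 1 ∧ 0 < c ∧ ∀ J : ℕ,
    ∀ (M : ℤ) (T : Finset Vtx) (A : Set Edg), Dob M T A → ∀ m : ℤ,
      1 ≤ m → 4 * m ≤ M →
      Q (ES T) (fun F => VN A m F < c / 16 ^ J * (m : ℝ) ^ ((2:ℝ)/3)) ≤ (1 - p) ^ (J + 1) := by
  obtain ⟨a, p, ha, hp, h⟩ := pr_Gd
  obtain ⟨b, hb, h2⟩ := h 0 le_rfl (by norm_num)
  have hp1 : p ≤ 1 := (h2 1 le_rfl _ (Finset.Subset.refl _)).trans (Q_le_one _ _)
  refine ⟨p, min (a / 18) (1/9), hp, hp1, lt_min (by positivity) (by norm_num), ?_⟩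
  intro J M T A hD m hm hM
  have hmr : (1:ℝ) ≤ m := by exact_mod_cast hm
  have hmr0 : (0:ℝ) < m := by linarith
  have h16 : (1:ℝ) ≤ 16 ^ J := one_le_pow₀ (by norm_num)
  have hm23 : 0 < (m : ℝ) ^ ((2:ℝ)/3) := Real.rpow_pos_of_pos hmr0 _
  have hm1 : (m : ℝ) ^ ((2:ℝ)/3) ≤ m := by
    calc (m : ℝ) ^ ((2:ℝ)/3) ≤ (m : ℝ) ^ (1:ℝ) :=
          Real.rpow_le_rpow_of_exponent_le hmr (by norm_num)
      _ = m := Real.rpow_one _
  by_cases hJ : 9 * 16 ^ J ≤ m
  · obtain ⟨u, hu, hu2, hu3⟩ := scale_start hJ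
    have husJ := us_pos hu J
    refine le_trans ?_ (pr_NG hp1 h2 hu J (ES T) (Q_S_sub hD (by omega)))
    apply Q_mono
    intro F _ hF j hj hG
    have huj := us_mono hu hj
    have h3 := Gd_count hD (us_pos hu j) (by omega) (show 9 * us u j ≤ m by omega) hG
    change a * ((us u j : ℤ) : ℝ) ^ ((2:ℝ)/3) ≤ VN A m F at h3
    have h4 : u ≤ us u j := by
      have := us_mono hu (Nat.zero_le j)
      unfold us at this ⊢
      simpa using this
    have h5 : (m : ℝ) ≤ 18 * 16 ^ J * (u : ℝ) := by exact_mod_cast hu3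
    have h6 : (u : ℝ) ≤ ((us u j : ℤ) : ℝ) := by exact_mod_cast h4
    have hK : (0:ℝ) < 18 * 16 ^ J := by positivity
    have h7 : (m : ℝ) ≤ 18 * 16 ^ J * ((us u j : ℤ) : ℝ) :=
      h5.trans (mul_le_mul_of_nonneg_left h6 hK.le)
    have husr : (0:ℝ) ≤ ((us u j : ℤ) : ℝ) := by
      have := us_pos hu j
      exact_mod_cast (show (0:ℤ) ≤ us u j by omega)
    have h8 : (m : ℝ) ^ ((2:ℝ)/3) ≤ (18 * 16 ^ J) * ((us u j : ℤ) : ℝ) ^ ((2:ℝ)/3) := by
      calc (m : ℝ) ^ ((2:ℝ)/3) ≤ (18 * 16 ^ J * ((us u j : ℤ) : ℝ)) ^ ((2:ℝ)/3) :=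
            Real.rpow_le_rpow hmr0.le h7 (by norm_num)
        _ = (18 * 16 ^ J : ℝ) ^ ((2:ℝ)/3) * ((us u j : ℤ) : ℝ) ^ ((2:ℝ)/3) :=
            Real.mul_rpow hK.le husr
        _ ≤ _ := by
            apply mul_le_mul_of_nonneg_right _ (Real.rpow_nonneg husr _)
            calc (18 * 16 ^ J : ℝ) ^ ((2:ℝ)/3) ≤ (18 * 16 ^ J : ℝ) ^ (1:ℝ) := by
                  apply Real.rpow_le_rpow_of_exponent_le _ (by norm_num)
                  linarith
              _ = _ := Real.rpow_one _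
    have h9 : min (a / 18) (1/9) / 16 ^ J * (m : ℝ) ^ ((2:ℝ)/3) ≤
        a * ((us u j : ℤ) : ℝ) ^ ((2:ℝ)/3) := by
      calc min (a / 18) (1/9) / 16 ^ J * (m : ℝ) ^ ((2:ℝ)/3)
          ≤ (a / 18) / 16 ^ J * (m : ℝ) ^ ((2:ℝ)/3) := by
            apply mul_le_mul_of_nonneg_right _ hm23.le
            exact div_le_div_of_nonneg_right (min_le_left _ _) (by positivity)
        _ ≤ (a / 18) / 16 ^ J * ((18 * 16 ^ J) * ((us u j : ℤ) : ℝ) ^ ((2:ℝ)/3)) :=
            mul_le_mul_of_nonneg_left h8 (by positivity)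
        _ = _ := by field_simp
    linarith
  · push Not at hJ
    have h0 : Q (ES T) (fun F => VN A m F <
        min (a / 18) (1/9) / 16 ^ J * (m : ℝ) ^ ((2:ℝ)/3)) = 0 := by
      have : Q (ES T) (fun F => VN A m F <
          min (a / 18) (1/9) / 16 ^ J * (m : ℝ) ^ ((2:ℝ)/3)) = Q (ES T) (fun _ => False) := by
        apply Pr_congr
        intro F _
        rw [iff_false, not_lt]
        refine le_trans ?_ (one_le_VN (by omega) F)
        have h3 : (m : ℝ) < 9 * 16 ^ J := by exact_mod_cast hJ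
        calc min (a / 18) (1/9) / 16 ^ J * (m : ℝ) ^ ((2:ℝ)/3)
            ≤ (1/9) / 16 ^ J * (m : ℝ) := by
              apply mul_le_mul _ hm1 hm23.le (by positivity)
              exact div_le_div_of_nonneg_right (min_le_right _ _) (by positivity)
          _ ≤ 1 := by
              rw [div_mul_eq_mul_div, div_le_one (by positivity)]
              linarith
      rw [this]
      unfold Q Pr
      have : (fun F : Finset Edg => ind False) = fun _ => (0:ℝ) := by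
        funext F; exact ind_not_of (fun h => h)
      rw [this, Ex_const]
    rw [h0]
    exact pow_nonneg (by linarith) _

/-- Mean number of visited vertices. -/
theorem mean_VN : ∃ c C : ℝ, 0 < c ∧ 0 < C ∧ ∀ (M : ℤ) (T : Finset Vtx) (A : Set Edg),
    Dob M T A → ∀ m : ℤ, 1 ≤ m → 4 * m ≤ M →
    c * (m : ℝ) ^ ((2:ℝ)/3) ≤ EE (ES T) (VN A m) ∧
      EE (ES T) (VN A m) ≤ C * (m : ℝ) ^ ((2:ℝ)/3) := by
  obtain ⟨c, C, hc, hC, h⟩ := visit_bounds
  refine ⟨c, 1 + C * (3/2), hc, by positivity, ?_⟩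
  intro M T A hD m hm hM
  have hmr : (1:ℝ) ≤ m := by exact_mod_cast hm
  have hmr0 : (0:ℝ) < m := by linarith
  have hm23 : 0 < (m : ℝ) ^ ((2:ℝ)/3) := Real.rpow_pos_of_pos hmr0 _
  have hm231 : 1 ≤ (m : ℝ) ^ ((2:ℝ)/3) := Real.one_le_rpow hmr (by norm_num)
  have e1 : EE (ES T) (VN A m) = ∑ k ∈ Finset.Icc 0 m, Q (ES T) (fun F => W A F (k, 0)) := by
    unfold EE VN
    rw [Ex_sum]
    rfl
  have e2 : ∑ k ∈ Finset.Icc 0 m, Q (ES T) (fun F => W A F (k, 0)) =
      Q (ES T) (fun F => W A F (0, 0)) + ∑ k ∈ Finset.Icc 1 m, Q (ES T) (fun F => W A F (k, 0)) := by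
    have : Finset.Icc 0 m = insert 0 (Finset.Icc 1 m) := by
      ext k; rw [Finset.mem_insert, Finset.mem_Icc, Finset.mem_Icc]; omega
    rw [this, Finset.sum_insert (by rw [Finset.mem_Icc]; omega)]
  rw [e1, e2]
  constructor
  · have h1 : ∀ k ∈ Finset.Icc 1 m, c / th m ≤ Q (ES T) (fun F => W A F (k, 0)) := by
      intro k hk
      rw [Finset.mem_Icc] at hk
      have h2 := (h M T A hD k hk.1 (by omega)).1
      have h3 := th_mono (m := k) (n := m) (by omega) hk.2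
      rw [div_le_iff₀ (th_pos hm)]
      refine h2.trans ?_
      rw [mul_comm]
      exact mul_le_mul_of_nonneg_left h3 (Q_nonneg _ _)
    have h2 := Finset.sum_le_sum h1
    rw [Finset.sum_const, nsmul_eq_mul, Int.card_Icc] at h2
    have h3 : (((m + 1 - 1).toNat : ℕ) : ℝ) = m := by
      have : ((m + 1 - 1).toNat : ℤ) = m := by omega
      exact_mod_cast this
    rw [h3] at h2
    have h4 : (m : ℝ) * (c / th m) = c * (m : ℝ) ^ ((2:ℝ)/3) := by
      unfold th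
      have : (m : ℝ) = (m : ℝ) ^ ((2:ℝ)/3) * (m : ℝ) ^ ((1:ℝ)/3) := by
        rw [← Real.rpow_add hmr0]; norm_num
      nth_rewrite 1 [this]
      have h5 : (m : ℝ) ^ ((1:ℝ)/3) ≠ 0 := (Real.rpow_pos_of_pos hmr0 _).ne'
      field_simp
    rw [h4] at h2
    have := Q_nonneg (ES T) (fun F => W A F (0, 0))
    linarith
  · have h1 : ∀ k ∈ Finset.Icc 1 m, Q (ES T) (fun F => W A F (k, 0)) ≤ C * dp (1/3) 0 k := by
      intro k hk
      rw [Finset.mem_Icc] at hk
      have h2 := (h M T A hD k hk.1 (by omega)).2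
      have hk0 : (0:ℝ) < k := by exact_mod_cast (show (0:ℤ) < k by omega)
      have e3 : dp (1/3) 0 k = 1 / th k := by
        unfold dp th
        rw [Int.cast_zero, zero_sub, abs_neg, abs_of_pos hk0, Real.rpow_neg hk0.le]
        rw [one_div, one_div]
      rw [e3, mul_one_div, le_div_iff₀ (th_pos hk.1)]
      linarith
    have h2 := Finset.sum_le_sum h1
    rw [← Finset.mul_sum] at h2
    have h3 : ∑ k ∈ Finset.Icc 1 m, dp (1/3) 0 k ≤ 3/2 * (m : ℝ) ^ ((2:ℝ)/3) := by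
      obtain ⟨n, hn⟩ := Int.eq_ofNat_of_zero_le (show 0 ≤ m by omega)
      have e4 : ∑ k ∈ Finset.Icc 1 m, dp (1/3) 0 k =
          ∑ d ∈ Finset.range n, ((d : ℝ) + 1) ^ (-(1/3) : ℝ) := by
        symm
        apply Finset.sum_bij (fun (d : ℕ) _ => (d : ℤ) + 1)
        · intro d hd
          rw [Finset.mem_range] at hd
          rw [Finset.mem_Icc]
          omega
        · intro x _ y _ hxy
          omega
        · intro k hk
          rw [Finset.mem_Icc] at hk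
          refine ⟨(k - 1).toNat, ?_, ?_⟩
          · rw [Finset.mem_range]; omega
          · omega
        · intro d _
          unfold dp
          push_cast
          rw [zero_sub, abs_neg, abs_of_pos (by positivity)]
      have h4 := sum_rpow (a := 1/3) (by norm_num) (by norm_num) n
      rw [e4]
      refine h4.trans (le_of_eq ?_)
      have : (n : ℝ) = m := by rw [hn]; push_cast; rfl
      rw [this]
      norm_num
      ring
    have h4 := Q_le_one (ES T) (fun F => W A F (0, 0))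
    nlinarith

end H934E
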