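import Pool.Agent.H934R2.Expl.Wire

/-!
Two-point estimate for boundary arms.
-/

set_option maxHeartbeats 400000

namespace H934E

open H974 H973 Finset

theorem Pr_indep3 {U S1 S2 S3 : Finset Edg} (h1 : S1 ⊆ U) (h2 : S2 ⊆ U) (h3 : S3 ⊆ U)
    (d12 : Disjoint S1 S2) (d13 : Disjoint S1 S3) (d23 : Disjoint S2 S3)
    (A B C : Finset Edg → Prop) :
    Q U (fun F => A (F ∩ S1) ∧ B (F ∩ S2) ∧ C (F ∩ S3)) = Q S1 A * (Q S2 B * Q S3 C) := by
  have e1 := Pr_indep' (U := U) (S := S1) (T := S2 ∪ S3) h1 (Finset.union_subset h2 h3)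
    (Finset.disjoint_union_right.mpr ⟨d12, d13⟩) A (fun G => B (G ∩ S2) ∧ C (G ∩ S3))
  have e2 := Pr_indep' (U := S2 ∪ S3) (S := S2) (T := S3) Finset.subset_union_left
    Finset.subset_union_right d23 B C
  unfold Q
  rw [← e2, ← e1]
  apply Pr_congr
  intro F _
  have k2 : (F ∩ (S2 ∪ S3)) ∩ S2 = F ∩ S2 := by
    rw [Finset.inter_assoc, Finset.inter_eq_right.mpr Finset.subset_union_left]
  have k3 : (F ∩ (S2 ∪ S3)) ∩ S3 = F ∩ S3 := by
    rw [Finset.inter_assoc, Finset.inter_eq_right.mpr Finset.subset_union_right]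
  rw [k2, k3]

theorem HK_disj {k l q : ℤ} (h : k + q < l - q) : Disjoint (RE (k - q) (k + q) 0 q)
    (RE (l - q) (l + q) 0 q) := by
  rw [Finset.disjoint_left]
  intro e h1 h2
  have e1 := (mem_RE_ends h1).1
  have e2 := (mem_RE_ends h2).1
  unfold inR at e1 e2
  omega

theorem RE_sub_RE {k q l r : ℤ} (h1 : l - r ≤ k - q) (h2 : k + q ≤ l + r) (h3 : q ≤ r) :
    RE (k - q) (k + q) 0 q ⊆ RE (l - r) (l + r) 0 r := RE_subset h1 h2 le_rfl h3

/-- Arms at `(k, 0)` and `(k + d, 0)` to distance `R`. -/
theorem two_point : ∃ C : ℝ, 0 < C ∧ ∀ k d R : ℤ, 1 ≤ d → d ≤ R → ∀ S : Finset Edg,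
    RE (k - R) (k + R) 0 R ⊆ S → RE (k + d - R) (k + d + R) 0 R ⊆ S →
    Q S (fun F => Ar k R F ∧ Ar (k + d) R F) ≤ C / (th d * th R) := by
  obtain ⟨c, C, hc, hC, h⟩ := pa_bounds
  obtain ⟨C1, hC1, hB⟩ := BAr_le
  refine ⟨2 * C + 16 * C ^ 2 * (2 * C1 + 3), by positivity, ?_⟩
  intro k d R hd hdR S hS1 hS2
  have hR1 : 1 ≤ R := hd.trans hdR
  have htd := th_pos hd
  have htR := th_pos hR1
  have hpR : pa R ≤ C / th R := by
    have := (h R hR1).2
    change th R * pa R ≤ C at this
    rw [le_div_iff₀ htR]; linarith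
  by_cases hd3 : d ≤ 2
  · have i1 : Q S (fun F => Ar k R F ∧ Ar (k + d) R F) ≤ pa R := by
      rw [← pr_Ar hR1 hS1]
      exact Q_mono (fun F _ hF => hF.1)
    have t2 : th d ≤ 2 := by
      have a1 : th d ≤ th 2 := th_mono (by omega) (by omega)
      have a2 := th_mul (c := 2) (n := 1) (by norm_num) (by norm_num)
      have a3 : th 1 = 1 := by unfold th; norm_num
      rw [a3] at a2
      norm_num at a2
      linarith
    refine i1.trans (hpR.trans ?_)
    rw [div_le_div_iff₀ htR (by positivity)]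
    have : C * (th d * th R) ≤ C * (2 * th R) := by
      apply mul_le_mul_of_nonneg_left _ hC.le
      exact mul_le_mul_of_nonneg_right t2 htR.le
    have hpos : 0 ≤ 16 * C ^ 2 * (2 * C1 + 3) * th R := by positivity
    linarith
  · push Not at hd3
    set q : ℤ := (d - 1) / 2 with hq
    have hq1 : 1 ≤ q := by omega
    have hqd : 2 * q ≤ d - 1 := by omega
    have hdq : d ≤ 4 * q := by omega
    have htq := th_pos hq1
    have hpq : pa q ≤ C / th q := by
      have := (h q hq1).2
      change th q * pa q ≤ C at this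
      rw [le_div_iff₀ htq]; linarith
    have tq : th d ≤ 4 * th q := by
      have a1 : th d ≤ th (4 * q) := th_mono (by omega) hdq
      have a2 := th_mul (c := 4) (n := q) (by norm_num) (by omega)
      push_cast at a2
      linarith
    have hpq4 : pa q ≤ 4 * C / th d := by
      refine hpq.trans ?_
      rw [div_le_div_iff₀ htq htd]
      nlinarith
    have hpq0 := pa_nonneg q
    -- the bound in terms of the middle factor
    have key : ∀ X : ℝ, 0 ≤ X → X ≤ (2 * C1 + 3) * (th d / th R) →
        pa q * (pa q * X) ≤ (2 * C + 16 * C ^ 2 * (2 * C1 + 3)) / (th d * th R) := by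
      intro X hX hX2
      have a1 : pa q * (pa q * X) ≤ (4 * C / th d) * ((4 * C / th d) *
          ((2 * C1 + 3) * (th d / th R))) := by
        apply mul_le_mul hpq4 _ (mul_nonneg hpq0 hX) (by positivity)
        exact mul_le_mul hpq4 hX2 hX (by positivity)
      have a2 : (4 * C / th d) * ((4 * C / th d) * ((2 * C1 + 3) * (th d / th R))) =
          (16 * C ^ 2 * (2 * C1 + 3)) / (th d * th R) := by
        field_simp
        ring
      rw [a2] at a1
      refine a1.trans ?_
      apply div_le_div_of_nonneg_right _ (by positivity)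
      linarith
    have s1 : RE (k - q) (k + q) 0 q ⊆ S := (RE_sub_RE (by omega) (by omega) (by omega)).trans hS1
    have s2 : RE (k + d - q) (k + d + q) 0 q ⊆ S :=
      (RE_sub_RE (by omega) (by omega) (by omega)).trans hS2
    have hdis : Disjoint (RE (k - q) (k + q) 0 q) (RE (k + d - q) (k + d + q) 0 q) :=
      HK_disj (by omega)
    by_cases h2 : 2 * d ≤ R
    · -- three independent pieces
      set S3 : Finset Edg := S \ RE (k - 2 * d) (k + 2 * d) 0 (2 * d) with hS3
      have d13 : Disjoint (RE (k - q) (k + q) 0 q) S3 := by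
        apply Finset.disjoint_of_subset_left _ Finset.disjoint_sdiff
        exact RE_sub_RE (by omega) (by omega) (by omega)
      have d23 : Disjoint (RE (k + d - q) (k + d + q) 0 q) S3 := by
        apply Finset.disjoint_of_subset_left _ Finset.disjoint_sdiff
        exact RE_sub_RE (by omega) (by omega) (by omega)
      have i1 : Q S (fun F => Ar k R F ∧ Ar (k + d) R F) ≤
          Q S (fun F => Ar k q (F ∩ RE (k - q) (k + q) 0 q) ∧
            Ar (k + d) q (F ∩ RE (k + d - q) (k + d + q) 0 q) ∧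
            BAr k (2 * d) R (F ∩ S3)) := by
        apply Q_mono
        rintro F hF ⟨f1, f2⟩
        refine ⟨(Ar_local (Finset.Subset.refl _)).mp (f1.anti hq1 (by omega)),
          (Ar_local (Finset.Subset.refl _)).mp (f2.anti hq1 (by omega)), ?_⟩
        obtain ⟨y, hy, hy2⟩ := f1
        obtain ⟨w, hw, hw2⟩ := last_exit (B := HK k (2 * d)) (u := (k, 0))
          (by rw [mem_HK]; simp only; omega) hy2
        refine ⟨w, y, ?_, hy, hw2.mono ?_⟩
        · rw [mem_HK] at hw
          unfold inR
          omega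
        · rintro e ⟨⟨he1, he2⟩, he3⟩
          rw [Finset.mem_coe] at he1 he3
          rw [ES_HK] at he3
          refine ⟨?_, he2⟩
          rw [Finset.mem_coe, Finset.mem_inter, hS3, Finset.mem_sdiff]
          exact ⟨he1, hF he1, he3⟩
      rw [Pr_indep3 s1 s2 Finset.sdiff_subset hdis d13 d23 (Ar k q) (Ar (k + d) q)
        (BAr k (2 * d) R), pr_Ar hq1 (Finset.Subset.refl _),
        pr_Ar hq1 (Finset.Subset.refl _)] at i1
      refine i1.trans (key _ (Q_nonneg _ _) ?_)
      have i2 : Q S3 (BAr k (2 * d) R) ≤ Q S (BAr k (2 * d) R) :=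
        Pr_mono_set okhalf Finset.sdiff_subset (BAr_incr _ _ _ _)
      have i3 := hB k (2 * d) R (by omega) h2 S hS1
      have t2 := th_mul (c := 2) (n := d) (by norm_num) (by omega)
      push_cast at t2
      calc Q S3 (BAr k (2 * d) R) ≤ C1 * (th (2 * d) / th R) := i2.trans i3
        _ ≤ C1 * (2 * th d / th R) := by
            apply mul_le_mul_of_nonneg_left _ hC1.le
            exact div_le_div_of_nonneg_right t2 htR.le
        _ = (2 * C1) * (th d / th R) := by ring
        _ ≤ (2 * C1 + 3) * (th d / th R) := by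
            apply mul_le_mul_of_nonneg_right _ (by positivity)
            linarith
    · have i1 : Q S (fun F => Ar k R F ∧ Ar (k + d) R F) ≤
          Q S (fun F => Ar k q (F ∩ RE (k - q) (k + q) 0 q) ∧
            Ar (k + d) q (F ∩ RE (k + d - q) (k + d + q) 0 q)) := by
        apply Q_mono
        rintro F hF ⟨f1, f2⟩
        exact ⟨(Ar_local (Finset.Subset.refl _)).mp (f1.anti hq1 (by omega)),
          (Ar_local (Finset.Subset.refl _)).mp (f2.anti hq1 (by omega))⟩
      rw [show Q S (fun F => Ar k q (F ∩ RE (k - q) (k + q) 0 q) ∧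
            Ar (k + d) q (F ∩ RE (k + d - q) (k + d + q) 0 q)) =
          Q (RE (k - q) (k + q) 0 q) (Ar k q) * Q (RE (k + d - q) (k + d + q) 0 q) (Ar (k + d) q)
          from Pr_indep' s1 s2 hdis _ _, pr_Ar hq1 (Finset.Subset.refl _),
        pr_Ar hq1 (Finset.Subset.refl _)] at i1
      have i2 := key 1 (by norm_num) (by
        have a1 : th R ≤ th (2 * d) := th_mono (by omega) (by omega)
        have t2 := th_mul (c := 2) (n := d) (by norm_num) (by omega)
        push_cast at t2
        rw [← mul_div_assoc, le_div_iff₀ htR]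
        nlinarith)
      rw [mul_one] at i2
      exact i1.trans i2

end H934E
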