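import Pool.Agent.H934R2.Expl.RectLem

/-!
Weak limits of the laws of the trace: upper bound for the dimension of the touching set.
-/

set_option maxHeartbeats 400000

namespace H934E

open H974 H973 Finset MeasureTheory TopologicalSpace Filter Topology
open scoped ENNReal

/-- The set of points of the real line in `K`. -/
def touch (K : NonemptyCompacts ℂ) : Set ℝ := {y : ℝ | (y : ℂ) ∈ K}

namespace Rect

variable (R : Rect)

theorem law_apply {δ : ℝ} (hδ : 0 < δ) {G : Set (NonemptyCompacts ℂ)} (hG : MeasurableSet G) :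
    (R.law hδ : Measure (NonemptyCompacts ℂ)) G =
      ENNReal.ofReal (Q (R.edges δ) (fun F => R.trace hδ F ∈ G)) := R.lawM_apply hδ hG

section

variable {ι : Type*} {L : Filter ι} [NeBot L] {δ : ι → ℝ} (hδ : ∀ i, 0 < δ i)
  {μ : ProbabilityMeasure (NonemptyCompacts ℂ)}
  (hμ : Tendsto (fun i => R.law (hδ i)) L (𝓝 μ))

include hμ

theorem open_le {G : Set (NonemptyCompacts ℂ)} (hG : IsOpen G) {q : ℝ}
    (h : ∀ᶠ i in L, Q (R.edges (δ i)) (fun F => R.trace (hδ i) F ∈ G) ≤ q) :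
    (μ : Measure (NonemptyCompacts ℂ)) G ≤ ENNReal.ofReal q := by
  refine (ProbabilityMeasure.le_liminf_measure_open_of_tendsto hμ hG).trans ?_
  apply Filter.liminf_le_of_frequently_le'
  apply Eventually.frequently
  filter_upwards [h] with i hi
  rw [R.law_apply (hδ i) hG.measurableSet]
  exact ENNReal.ofReal_le_ofReal hi

theorem closed_ge {G : Set (NonemptyCompacts ℂ)} (hG : IsClosed G) {q : ℝ}
    (h : ∀ᶠ i in L, q ≤ Q (R.edges (δ i)) (fun F => R.trace (hδ i) F ∈ G)) :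
    ENNReal.ofReal q ≤ (μ : Measure (NonemptyCompacts ℂ)) G := by
  refine le_trans ?_ (ProbabilityMeasure.limsup_measure_closed_le_of_tendsto hμ hG)
  apply Filter.le_limsup_of_frequently_le'
  apply Eventually.frequently
  filter_upwards [h] with i hi
  rw [R.law_apply (hδ i) hG.measurableSet]
  exact ENNReal.ofReal_le_ofReal hi

end

/-- The event that `K` comes close to the boundary point `x`. -/
def HU (x ε : ℝ) : Set (NonemptyCompacts ℂ) := {K | ((K : Set ℂ) ∩ UU x ε).Nonempty}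

theorem isOpen_HU (x ε : ℝ) : IsOpen (HU x ε) :=
  NonemptyCompacts.isOpen_inter_nonempty_of_isOpen (isOpen_UU x ε)

end Rect

namespace Rect

/-- Hitting probabilities for weak limits. -/
theorem HU_le : ∃ C : ℝ, 0 < C ∧ ∀ (R : Rect) {ι : Type} {L : Filter ι} [NeBot L] {δ : ι → ℝ}
    (hδ : ∀ i, 0 < δ i) (_ : Tendsto δ L (𝓝 0)) {μ : ProbabilityMeasure (NonemptyCompacts ℂ)}
    (_ : Tendsto (fun i => R.law (hδ i)) L (𝓝 μ)) (x ρ ε : ℝ), 0 < ρ → ρ ≤ x → ρ ≤ R.B - x →
    ρ ≤ R.H → 0 < ε → 8 * ε ≤ ρ →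
    (μ : Measure (NonemptyCompacts ℂ)) (HU x ε) ≤ ENNReal.ofReal (C * (ε / ρ) ^ ((1:ℝ)/3)) := by
  obtain ⟨C, hC, h⟩ := hitU_le
  refine ⟨C, hC, ?_⟩
  intro R ι L _ δ hδ hlim μ hμ x ρ ε h1 h2 h3 h4 h5 h6
  apply R.open_le hδ hμ (isOpen_HU x ε)
  have e1 : ∀ᶠ i in L, δ i < min (ε / 16) R.A :=
    (hlim.eventually_lt_const (lt_min (by positivity) R.hA))
  filter_upwards [e1] with i hi
  have hi1 := hi.trans_le (min_le_left _ _)
  have hi2 := hi.trans_le (min_le_right _ _)
  exact h R x ρ ε h1 h2 h3 h4 h5 h6 (δ i) (hδ i) (by linarith) hi2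

variable (R : Rect)

section

variable {ι : Type} {L : Filter ι} [NeBot L] {δ : ι → ℝ} (hδ : ∀ i, 0 < δ i)
  (hlim : Tendsto δ L (𝓝 0))
  {μ : ProbabilityMeasure (NonemptyCompacts ℂ)}
  (hμ : Tendsto (fun i => R.law (hδ i)) L (𝓝 μ))

include hlim hμ

theorem ae_content {ρ d : ℝ} (hρ : 0 < ρ) (hd : 2/3 < d) :
    ∀ᵐ K ∂(μ : Measure (NonemptyCompacts ℂ)), μH[d] (touch K ∩ Set.Icc ρ (R.B - ρ)) = 0 := by
  obtain ⟨C, hC, hH⟩ := HU_le
  set ρ' : ℝ := min (ρ / 2) R.H with hρ'
  have hρ'0 : 0 < ρ' := lt_min (by positivity) R.hH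
  have hd0 : 0 < d := by linarith
  set ε : ℕ → ℝ := fun n => (1/2 : ℝ) ^ n with hε
  have hε0 : ∀ n, 0 < ε n := fun n => by rw [hε]; positivity
  have hε1 : ∀ n, ε n ≤ 1 := fun n => pow_le_one₀ (by norm_num) (by norm_num)
  have hεlim : Tendsto ε atTop (𝓝 0) :=
    tendsto_pow_atTop_nhds_zero_of_lt_one (by norm_num) (by norm_num)
  set N : ℕ → ℕ := fun n => ⌈R.B / ε n⌉₊ + 1 with hN
  -- the events
  classical
  set O : ℕ → ℕ → Set (NonemptyCompacts ℂ) := fun n j =>
    if (ρ / 2 ≤ j * ε n ∧ j * ε n ≤ R.B - ρ / 2 ∧ 16 * ε n ≤ ρ') then HU (j * ε n) (2 * ε n)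
    else ∅ with hO
  have hOm : ∀ n j, MeasurableSet (O n j) := by
    intro n j
    rw [hO]
    simp only
    split_ifs
    · exact (isOpen_HU _ _).measurableSet
    · exact MeasurableSet.empty
  have hOμ : ∀ n j, (μ : Measure (NonemptyCompacts ℂ)) (O n j) ≤
      ENNReal.ofReal (C * (2 * ε n / ρ') ^ ((1:ℝ)/3)) := by
    intro n j
    rw [hO]
    simp only
    split_ifs with h
    · exact hH R hδ hlim hμ (j * ε n) ρ' (2 * ε n) hρ'0 ((min_le_left _ _).trans h.1)
        ((min_le_left _ _).trans (by linarith)) (min_le_right _ _) (by have := hε0 n; positivity)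
        (by linarith)
    · simp
  set g : ℕ → NonemptyCompacts ℂ → ℝ≥0∞ := fun n K =>
    ∑ j ∈ Finset.range (N n), (O n j).indicator (fun _ => ENNReal.ofReal (ε n ^ d)) K with hg
  have hgm : ∀ n, Measurable (g n) := by
    intro n
    rw [hg]
    apply Finset.measurable_sum
    intro j _
    exact measurable_const.indicator (hOm n j)
  have hgint : ∀ n, ∫⁻ K, g n K ∂(μ : Measure (NonemptyCompacts ℂ)) ≤
      ENNReal.ofReal ((R.B + 2) * (C * (2 / ρ') ^ ((1:ℝ)/3)) * (ε n) ^ (d - 2/3)) := by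
    intro n
    have hn := hε0 n
    rw [hg]
    simp only
    rw [lintegral_finsetSum _ (fun j _ => measurable_const.indicator (hOm n j))]
    have h1 : ∀ j ∈ Finset.range (N n),
        ∫⁻ K, (O n j).indicator (fun _ => ENNReal.ofReal (ε n ^ d)) K
          ∂(μ : Measure (NonemptyCompacts ℂ)) ≤
        ENNReal.ofReal (ε n ^ d * (C * (2 * ε n / ρ') ^ ((1:ℝ)/3))) := by
      intro j _
      rw [lintegral_indicator_const (hOm n j), ENNReal.ofReal_mul (by positivity)]
      exact mul_le_mul_right (hOμ n j) _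
    refine (Finset.sum_le_sum h1).trans ?_
    rw [Finset.sum_const, Finset.card_range, nsmul_eq_mul, ← ENNReal.ofReal_natCast,
      ← ENNReal.ofReal_mul (by positivity)]
    apply ENNReal.ofReal_le_ofReal
    have h2 : ((N n : ℕ) : ℝ) ≤ (R.B + 2) / ε n := by
      rw [hN]
      simp only
      push_cast
      have h3 : (⌈R.B / ε n⌉₊ : ℝ) < R.B / ε n + 1 :=
        Nat.ceil_lt_add_one (div_nonneg R.hB.le hn.le)
      have h4 : 1 ≤ 1 / ε n := by rw [le_div_iff₀ hn]; linarith [hε1 n]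
      have h5 : (R.B + 2) / ε n = R.B / ε n + 2 * (1 / ε n) := by ring
      linarith
    have h6 : (2 * ε n / ρ') ^ ((1:ℝ)/3) = (2 / ρ') ^ ((1:ℝ)/3) * (ε n) ^ ((1:ℝ)/3) := by
      rw [← Real.mul_rpow (by positivity) hn.le]
      congr 1; ring
    calc ((N n : ℕ) : ℝ) * (ε n ^ d * (C * (2 * ε n / ρ') ^ ((1:ℝ)/3)))
        ≤ (R.B + 2) / ε n * (ε n ^ d * (C * (2 * ε n / ρ') ^ ((1:ℝ)/3))) :=
          mul_le_mul_of_nonneg_right h2 (by positivity)
      _ = (R.B + 2) * (C * (2 / ρ') ^ ((1:ℝ)/3)) * ((ε n ^ d * (ε n) ^ ((1:ℝ)/3)) / ε n) := by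
          rw [h6]; ring
      _ = _ := by
          congr 1
          rw [← Real.rpow_add hn]
          nth_rewrite 2 [← Real.rpow_one (ε n)]
          rw [← Real.rpow_sub hn]
          congr 1; ring
      _ ≤ _ := le_rfl
  have hlimg : Tendsto (fun n => ∫⁻ K, g n K ∂(μ : Measure (NonemptyCompacts ℂ))) atTop (𝓝 0) := by
    have h1 : Tendsto (fun n => ENNReal.ofReal
        ((R.B + 2) * (C * (2 / ρ') ^ ((1:ℝ)/3)) * (ε n) ^ (d - 2/3))) atTop (𝓝 0) := by
      rw [← ENNReal.ofReal_zero]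
      apply ENNReal.tendsto_ofReal
      have h2 : Tendsto (fun n => (ε n) ^ (d - 2/3)) atTop (𝓝 0) := by
        have := hεlim.rpow_const (p := d - 2/3) (Or.inr (by linarith))
        rwa [Real.zero_rpow (by linarith)] at this
      have := h2.const_mul ((R.B + 2) * (C * (2 / ρ') ^ ((1:ℝ)/3)))
      rwa [mul_zero] at this
    exact tendsto_of_tendsto_of_tendsto_of_le_of_le tendsto_const_nhds h1
      (fun _ => bot_le) hgint
  have hfatou : ∫⁻ K, liminf (fun n => g n K) atTop ∂(μ : Measure (NonemptyCompacts ℂ)) = 0 := by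
    have := lintegral_liminf_le (u := atTop) (μ := (μ : Measure (NonemptyCompacts ℂ))) hgm
    rw [hlimg.liminf_eq] at this
    exact le_antisymm this (bot_le)
  rw [lintegral_eq_zero_iff (Measurable.liminf hgm)] at hfatou
  filter_upwards [hfatou] with K hK
  have hK' : liminf (fun n => g n K) atTop = 0 := hK
  set I := touch K ∩ Set.Icc ρ (R.B - ρ) with hI
  have key := Measure.hausdorffMeasure_le_liminf_sum (X := ℝ) (ι := fun n => Fin (N n)) d I
    (l := atTop) (fun n => ENNReal.ofReal (ε n))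
    (by rw [← ENNReal.ofReal_zero]; exact ENNReal.tendsto_ofReal hεlim)
    (fun n j => I ∩ Set.Icc ((j : ℕ) * ε n) (((j : ℕ) + 1) * ε n))
    (by
      apply Eventually.of_forall
      intro n j
      refine (Metric.ediam_mono Set.inter_subset_right).trans ?_
      rw [Real.ediam_Icc]
      apply ENNReal.ofReal_le_ofReal
      linarith)
    (by
      apply Eventually.of_forall
      intro n y hy
      have hn := hε0 n
      have hy0 : 0 ≤ y := by linarith [hy.2.1]
      have hyB : y ≤ R.B := by linarith [hy.2.2]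
      rw [Set.mem_iUnion]
      have h1 : ⌊y / ε n⌋₊ < N n := by
        rw [hN]
        simp only
        have : ⌊y / ε n⌋₊ ≤ ⌈R.B / ε n⌉₊ :=
          (Nat.floor_le_ceil _).trans (Nat.ceil_le_ceil (div_le_div_of_nonneg_right hyB hn.le))
        omega
      refine ⟨⟨⌊y / ε n⌋₊, h1⟩, hy, ?_, ?_⟩
      · have := Nat.floor_le (div_nonneg hy0 hn.le)
        rw [le_div_iff₀ hn] at this
        exact this
      · have := (Nat.lt_floor_add_one (y / ε n)).le
        rw [div_le_iff₀ hn] at this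
        exact this)
  refine le_antisymm (key.trans ?_) (bot_le)
  rw [← hK']
  refine liminf_le_liminf ?_
  have hev : ∀ᶠ n in atTop, 16 * ε n ≤ ρ' := by
    have := hεlim.eventually_lt_const (show (0:ℝ) < ρ' / 16 by positivity)
    filter_upwards [this] with n hn
    linarith
  filter_upwards [hev] with n hn16
  have hn := hε0 n
  rw [hg]
  simp only
  rw [← Fin.sum_univ_eq_sum_range (fun j => (O n j).indicator
    (fun _ => ENNReal.ofReal (ε n ^ d)) K) (N n)]
  apply Finset.sum_le_sum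
  intro j _
  rcases (I ∩ Set.Icc ((j : ℕ) * ε n) (((j : ℕ) + 1) * ε n)).eq_empty_or_nonempty with h0 | ⟨y, hy⟩
  · rw [h0, Metric.ediam_empty, ENNReal.zero_rpow_of_pos hd0]
    exact bot_le
  · have hρ2 : ρ' ≤ ρ / 2 := min_le_left _ _
    have hyI := hy.1
    have h1 : K ∈ O n j := by
      rw [hO]
      simp only
      have h2 : ρ / 2 ≤ (j : ℕ) * ε n ∧ (j : ℕ) * ε n ≤ R.B - ρ / 2 ∧ 16 * ε n ≤ ρ' := by
        refine ⟨?_, ?_, hn16⟩
        · have := hy.2.2
          have := hyI.2.1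
          linarith
        · have := hy.2.1
          have := hyI.2.2
          linarith
      rw [if_pos h2]
      refine ⟨(y : ℂ), hyI.1, ?_, ?_⟩
      · simp only [Complex.ofReal_re]
        rw [abs_lt]
        constructor <;> linarith [hy.2.1, hy.2.2]
      · simp only [Complex.ofReal_im, abs_zero]
        linarith
    rw [Set.indicator_of_mem h1]
    rw [← ENNReal.ofReal_rpow_of_pos hn]
    apply ENNReal.rpow_le_rpow _ hd0.le
    refine (Metric.ediam_mono Set.inter_subset_right).trans ?_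
    rw [Real.ediam_Icc]
    apply ENNReal.ofReal_le_ofReal
    linarith

/-- Upper bound for the dimension. -/
theorem ae_dim_le : ∀ᵐ K ∂(μ : Measure (NonemptyCompacts ℂ)),
    dimH (touch K ∩ Set.Ico 0 R.B) ≤ ((2/3 : NNReal) : ℝ≥0∞) := by
  have h1 : ∀ n m : ℕ, ∀ᵐ K ∂(μ : Measure (NonemptyCompacts ℂ)),
      μH[((2/3 + 1 / ((m : NNReal) + 1) : NNReal) : ℝ)]
        (touch K ∩ Set.Icc (1 / ((n : ℝ) + 1)) (R.B - 1 / ((n : ℝ) + 1))) = 0 := by
    intro n m
    apply R.ae_content hδ hlim hμ (by positivity)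
    push_cast
    have : (0:ℝ) < 1 / ((m : ℝ) + 1) := by positivity
    linarith
  have h1' := ae_all_iff.mpr (fun n => ae_all_iff.mpr (h1 n))
  filter_upwards [h1'] with K hK
  have hsub : touch K ∩ Set.Ico 0 R.B ⊆ {0} ∪ ⋃ n : ℕ,
      (touch K ∩ Set.Icc (1 / ((n : ℝ) + 1)) (R.B - 1 / ((n : ℝ) + 1))) := by
    rintro y ⟨hy1, hy2, hy3⟩
    rcases eq_or_lt_of_le hy2 with h | h
    · left; exact h.symm
    · right
      rw [Set.mem_iUnion]
      obtain ⟨n, hn⟩ := exists_nat_one_div_lt (lt_min h (sub_pos.mpr hy3))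
      refine ⟨n, hy1, ?_, ?_⟩
      · exact (hn.trans_le (min_le_left _ _)).le
      · have := (hn.trans_le (min_le_right _ _)).le
        linarith
  refine (dimH_mono hsub).trans ?_
  rw [dimH_union, dimH_singleton, dimH_iUnion]
  apply max_le (bot_le)
  apply iSup_le
  intro n
  apply le_of_forall_gt_imp_ge_of_dense
  intro a ha
  -- a > 2/3
  have h2 : ∃ m : ℕ, ((2/3 + 1 / ((m : NNReal) + 1) : NNReal) : ℝ≥0∞) ≤ a := by
    by_cases hat : a = ⊤
    · exact ⟨0, by rw [hat]; exact le_top⟩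
    · lift a to NNReal using hat
      have ha' : (2/3 : NNReal) < a := by exact_mod_cast ha
      have ha2 : (0:ℝ) < (a : ℝ) - 2/3 := by
        have : ((2/3 : NNReal) : ℝ) < (a : ℝ) := by exact_mod_cast ha'
        push_cast at this
        linarith
      obtain ⟨m, hm⟩ := exists_nat_one_div_lt ha2
      refine ⟨m, ?_⟩
      have : ((2/3 + 1 / ((m : NNReal) + 1) : NNReal) : ℝ) ≤ (a : ℝ) := by
        push_cast
        linarith
      exact_mod_cast this
  obtain ⟨m, hm⟩ := h2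
  refine le_trans ?_ hm
  apply dimH_le_of_hausdorffMeasure_ne_top
  rw [hK n m]
  exact ENNReal.zero_ne_top

end

end Rect

end H934E
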